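import Pool.Agent.Helper88.Ric.Defs

/-!
MP_092777_ag: module statements (see /team-store/ric_blueprint.md).
-/

set_option autoImplicit false

open scoped ContDiff Manifold Topology MatrixGroups LinearAlgebra.Projectivization
open Complex

noncomputable section

namespace RicP

/-! ### Part A: étale presentations give surfaces -/

def ST_ETALE : Prop := ∀ D : EtaleData, D.Good →
  ∃ (X : Type) (_ : TopologicalSpace X) (_ : ChartedSpace E X) (π : D.ι → E → X),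
    IsManifold 𝓘(ℂ, E) ω X ∧ CompactSpace X ∧ T2Space X ∧ ConnectedSpace X ∧
    (∃ K : KahlerStructure X, K.NegRicPerp) ∧
    (∀ i j, ∀ x ∈ D.U i, ∀ y ∈ D.U j, π i x = π j y ↔ D.R i x j y) ∧
    (∀ (n : ℕ) (f : X → ℙ ℂ (Fin (n + 1) → ℂ)), HolToProj n f → ∀ i, ∀ x ∈ D.U i,
      ∃ V : Set E, IsOpen V ∧ x ∈ V ∧ V ⊆ D.U i ∧ ∃ F : E → (Fin (n + 1) → ℂ),
        DifferentiableOn ℂ F V ∧ ∀ y ∈ V, ∃ h : F y ≠ 0, f (π i y) = Projectivization.mk ℂ (F y) h)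

/-! ### Part B: modular data -/

def ST_CHI : Prop := ∃ (χ : SL(2, ℤ) →* ℂˣ) (g : ℂ → ℂ), (∀ γ, χ γ ^ 4 = 1) ∧
  ((χ ModularGroup.T : ℂˣ) : ℂ) = I ∧
  (∀ τ : ℂ, 0 < τ.im → DifferentiableAt ℂ g τ ∧ g τ ≠ 0) ∧
  (∀ γ, ∀ τ : ℂ, 0 < τ.im → g (mob γ τ) = χ γ * jj γ τ ^ 3 * g τ) ∧
  ∃ C : ℝ, ∀ τ : ℂ, 1 / 2 ≤ τ.im → ‖g τ‖ ≤ C * Real.exp (-(3 / 2) * τ.im)

def ST_MOD : Prop := Nonempty ModData

/-! ### Part C: the relation -/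

/-- standing assumption on `N` -/
def NOK (N : ℕ) : Prop := 4 ∣ N ∧ 8 ≤ N

def ST_GREQ : Prop := ∀ (M : ModData) (N : ℕ) (t : ℝ),
  (∀ (q : QN M N) (x : E), GR M t q q x x) ∧
  (∀ (q q' : QN M N) (x x' : E), 0 < x.1.im → GR M t q q' x x' →
    0 < x'.1.im ∧ GR M t q' q x' x) ∧
  (∀ (q q' q'' : QN M N) (x x' x'' : E), 0 < x.1.im → GR M t q q' x x' → GR M t q' q'' x' x'' →
    GR M t q q'' x x'')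

/-- heights -/
def ST_HT : Prop := ∀ (γ : SL(2, ℤ)) (τ : ℂ), 0 < τ.im →
  jj γ τ ≠ 0 ∧ (mob γ τ).im = τ.im / ‖jj γ τ‖ ^ 2 ∧
  (1 < τ.im * (mob γ τ).im → γ ∈ borel)

/-- upper triangular matrices -/
def ST_BOR : Prop := ∀ (M : ModData), ∀ γ ∈ borel, ∃ s : ℤ, (s = 1 ∨ s = -1) ∧
  γ 0 0 = s ∧ γ 1 1 = s ∧ (∀ τ : ℂ, jj γ τ = (s : ℂ) ∧ mob γ τ = τ + ((s * γ 0 1 : ℤ) : ℂ)) ∧
  M.V₁ γ = 0 ∧ M.V₂ γ = 0 ∧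
  (∀ N : ℕ, 3 ≤ N → hN M N γ = 1 → s = 1 ∧ (N : ℤ) ∣ γ 0 1) ∧
  (∀ N : ℕ, 4 ∣ N → s = 1 → (N : ℤ) ∣ γ 0 1 → hN M N γ = 1)

/-- freeness -/
def ST_FREE : Prop := ∀ (M : ModData) (N : ℕ), 4 ≤ N → ∀ (γ : SL(2, ℤ)) (τ : ℂ), 0 < τ.im →
  hN M N γ = 1 → mob γ τ = τ → γ = 1

/-- the relation is closed -/
def ST_GCLO : Prop := ∀ (M : ModData) (N : ℕ) (t : ℝ) (q q' : QN M N) (x x' : E),
  0 < x.1.im → 0 < x'.1.im →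
  (x, x') ∈ closure {z : E × E | 0 < z.1.1.im ∧ 0 < z.2.1.im ∧ GR M t q q' z.1 z.2} →
  GR M t q q' x x'

/-- local injectivity -/
def ST_GINJ : Prop := ∀ (M : ModData) (N : ℕ), NOK N → ∀ (t : ℝ) (q : QN M N) (x : E),
  0 < x.1.im → ∃ V ∈ 𝓝 x, ∀ y ∈ V, ∀ z ∈ V, GR M t q q y z → y = z

/-- the local biholomorphisms of the open part -/
def hGam (γ : SL(2, ℤ)) (a b : ℝ) (y : E) : E :=
  (mob γ y.1, (y.2 + (a : ℂ) * y.1 + (b : ℂ)) / jj γ y.1)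

def ST_GET : Prop := ∀ (M : ModData) (N : ℕ) (t : ℝ) (q q' : QN M N) (x x' : E),
  0 < x.1.im → GR M t q q' x x' →
  ∃ (γ : SL(2, ℤ)) (a b : ℝ), x' = hGam γ a b x ∧
    (∀ y : E, 0 < y.1.im → GR M t q q' y (hGam γ a b y)) ∧
    (γ ∈ borel → ∃ m n : ℤ, a = m ∧ b = n)

/-- `hGam` is a biholomorphism of `ℍ × ℂ` -/
def ST_GBI : Prop := ∀ (γ : SL(2, ℤ)) (a b : ℝ), ∃ h : OpenPartialHomeomorph E E,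
  h.source = {x : E | 0 < x.1.im} ∧ h.target = {x : E | 0 < x.1.im} ∧
  (∀ y : E, h y = hGam γ a b y) ∧ ContDiffOn ℂ ω h h.source ∧ ContDiffOn ℂ ω h.symm h.target

/-- local inverse branches of the node coordinates -/
def ST_DL : Prop := ∀ (N : ℕ), 1 ≤ N → ∀ (k : ZMod N) (p : E), p.1 * p.2 ≠ 0 →
  ‖p.1 * p.2‖ < 1 → (∃ x₀, D0 k p x₀) ∧
  ∀ x₀, D0 k p x₀ → ∃ h : OpenPartialHomeomorph E E, p ∈ h.source ∧ h p = x₀ ∧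
    (∀ p' ∈ h.source, p'.1 * p'.2 ≠ 0 ∧ ‖p'.1 * p'.2‖ < 1 ∧ D0 k p' (h p')) ∧
    ContDiffOn ℂ ω h h.source ∧ ContDiffOn ℂ ω h.symm h.target

def ST_DU : Prop := ∀ (N : ℕ), 1 ≤ N → ∀ (k : ZMod N) (p x₀ x₁ : E), D0 k p x₀ →
  (D0 k p x₁ ↔ ∃ j m : ℤ, x₁.1 = x₀.1 + (N : ℂ) * j ∧ x₁.2 = x₀.2 + m)

/-- comparison of node charts -/
def ST_DD : Prop := ∀ (M : ModData) (N : ℕ), NOK N → ∀ (t : ℝ) (c c' : Cusp M N) (k k' : ZMod N),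
  ∀ p ∈ UD, ∀ p' ∈ UD, p.1 * p.2 ≠ 0 → p'.1 * p'.2 ≠ 0 →
  ((∃ x₀ x₁, D0 k p x₀ ∧ D0 k' p' x₁ ∧ GR M t (cout M c) (cout M c') x₀ x₁) ↔
    (c = c' ∧ RDD k k' p p'))

/-- domain of the chart `i` -/
def Uof {M : ModData} {N : ℕ} : Idx M N → Set E
  | Sum.inl _ => UH N
  | Sum.inr _ => UD

def ST_REQ : Prop := ∀ (M : ModData) (N : ℕ), NOK N → ∀ t : ℝ,
  (∀ i : Idx M N, ∀ x ∈ Uof i, ricR M t i x i x) ∧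
  (∀ i j : Idx M N, ∀ x ∈ Uof i, ∀ y ∈ Uof j, ricR M t i x j y → ricR M t j y i x) ∧
  (∀ i j k : Idx M N, ∀ x ∈ Uof i, ∀ y ∈ Uof j, ∀ z ∈ Uof k,
    ricR M t i x j y → ricR M t j y k z → ricR M t i x k z)

def ST_RCLO : Prop := ∀ (M : ModData) (N : ℕ), NOK N → ∀ t : ℝ,
  ∀ i j : Idx M N, ∀ x ∈ Uof i, ∀ y ∈ Uof j,
    (x, y) ∈ closure {z : E × E | z.1 ∈ Uof i ∧ z.2 ∈ Uof j ∧ ricR M t i z.1 j z.2} →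
    ricR M t i x j y

def ST_RINJ : Prop := ∀ (M : ModData) (N : ℕ), NOK N → ∀ t : ℝ,
  ∀ i : Idx M N, ∀ x ∈ Uof i, ∃ V ∈ 𝓝 x, ∀ y ∈ V ∩ Uof i, ∀ z ∈ V ∩ Uof i,
    ricR M t i y i z → y = z

def ST_RCOV : Prop := ∀ (M : ModData) (N : ℕ), NOK N → ∀ t : ℝ,
  ∀ i : Idx M N, ∀ x ∈ Uof i,
    (∃ q : QN M N, ∃ y ∈ KH N, ricR M t i x (Sum.inl q) y) ∨
    (∃ ck : Cusp M N × ZMod N, ∃ y ∈ KD, ricR M t i x (Sum.inr ck) y)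

def ST_RLINK : Prop := ∀ (M : ModData) (N : ℕ), NOK N → ∀ t : ℝ, ∀ i j : Idx M N,
  Relation.ReflTransGen (fun i j : Idx M N => ∃ x ∈ Uof i, ∃ y ∈ Uof j, ricR M t i x j y) i j

def ST_TOP : Prop := ∀ (M : ModData) (N : ℕ), NOK N →
  Finite (Idx M N) ∧ Nonempty (Idx M N) ∧ IsOpen (UH N) ∧ IsOpen UD ∧ IsConnected (UH N) ∧
  IsConnected UD ∧ IsCompact (KH N) ∧ IsCompact KD ∧ KH N ⊆ UH N ∧ KD ⊆ UD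

/-! ### Part D: potentials -/

/-- calculus of Levi forms -/
def ST_LV : Prop :=
  (∀ (φ : E → ℝ) (h : E → E) (x v w : E), ContDiffAt ℝ 2 φ (h x) → ContDiffAt ℂ 2 h x →
    levi (fun y => φ (h y)) x v w = levi φ (h x) (fderiv ℂ h x v) (fderiv ℂ h x w)) ∧
  (∀ (f : E → ℂ) (x v w : E), ContDiffAt ℂ 2 f x → levi (fun y => (f y).re) x v w = 0) ∧
  (∀ (f : E → ℂ) (x v w : E), ContDiffAt ℂ 2 f x → f x ≠ 0 →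
    levi (fun y => Real.log ‖f y‖) x v w = 0) ∧
  (∀ (φ ψ : E → ℝ) (x v w : E), ContDiffAt ℝ 2 φ x → ContDiffAt ℝ 2 ψ x →
    levi (fun y => φ y + ψ y) x v w = levi φ x v w + levi ψ x v w) ∧
  (∀ (φ ψ : E → ℝ) (x v w : E), φ =ᶠ[𝓝 x] ψ → levi φ x v w = levi ψ x v w)

/-- invariance of the semi-flat metric -/
def ST_UINV : Prop := ∀ (N : ℕ), 1 ≤ N → ∀ (γ : SL(2, ℤ)) (a b : ℝ) (x v w : E), 0 < x.1.im →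
  levi (fun y : E => FU (4 * Real.pi * y.1.im / N, 4 * Real.pi * y.2.im)) x v w =
    levi (fun y : E => FU (4 * Real.pi * y.1.im / N, 4 * Real.pi * y.2.im)) (hGam γ a b x)
      (fderiv ℂ (hGam γ a b) x v) (fderiv ℂ (hGam γ a b) x w)

def ST_FPER : Prop := ∀ (ε L T : ℝ), 0 < ε → 0 < L →
  (∀ m : ℤ, Feps ε (L, T + m * L) = Feps ε (L, T) + 28 * (2 * m * T + (m : ℝ) ^ 2 * L)) ∧
  Feps ε (L, -T) = Feps ε (L, T)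

/-- comparison of the two potentials near a cusp (theta functional equation) -/
def ST_FPHI : Prop := ∀ k : ℕ, ∃ c₀ c₁ c₂ : ℝ, ∀ p : E, p.1 ≠ 0 → p.2 ≠ 0 → ‖p.1 * p.2‖ < 1 →
  ∀ L T : ℝ, L = -2 * Real.log ‖p.1 * p.2‖ → T = -2 * Real.log ‖p.2‖ + k * L →
    potD p = FU (L, T) + FD (L, T) + c₀ + c₁ * L + c₂ * T

def ST_PHISH : Prop := ∀ p : E, p.2 ≠ 0 → ‖p.1 * p.2‖ < 1 →
  potD (p.2⁻¹, p.1 * p.2 ^ 2) = potD p - 112 * Real.log ‖p.2‖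

def ST_SMH : Prop := ∀ (N : ℕ) (ε : ℝ), 1 ≤ N → 0 < ε →
  ContDiffOn ℝ ∞ (potH N ε) {x : E | 0 < x.1.im}

/-- the function `FU + FD` is smooth for `L > 0`, and so is `Feps ε` -/
def ST_SMF : Prop := ContDiffOn ℝ ∞ (fun p : ℝ × ℝ => FU p + FD p) {p | 0 < p.1} ∧
  ∀ ε : ℝ, 0 < ε → ContDiffOn ℝ ∞ (Feps ε) {p : ℝ × ℝ | 0 < p.1}

def ST_SMD : Prop := ContDiffOn ℝ ∞ potD {p : E | ‖p.1 * p.2‖ < 1}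

/-- local biholomorphisms realising the relation and preserving the metric -/
def ST_RET : Prop := ∀ (M : ModData) (N : ℕ), NOK N → ∀ (ε t : ℝ), 0 < ε → ε ≤ 9 / 10 →
  5 * Real.pi / N ≤ ε → ∀ i j : Idx M N, ∀ x ∈ Uof i, ∀ y ∈ Uof j, ricR M t i x j y →
    ∃ h : OpenPartialHomeomorph E E, x ∈ h.source ∧ h x = y ∧ h.source ⊆ Uof i ∧
      h.target ⊆ Uof j ∧ ContDiffOn ℂ ω h h.source ∧ ContDiffOn ℂ ω h.symm h.target ∧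
      (∀ x' ∈ h.source, ricR M t i x' j (h x')) ∧
      (∀ x' ∈ h.source, ∀ v w : E, levi ((ricData M N ε t).pot i) x' v w =
        levi ((ricData M N ε t).pot j) (h x') (fderiv ℂ h x' v) (fderiv ℂ h x' w))

/-! ### Part E: curvature of toric potentials -/

/-- `g11 g12 g22 T111 T112 T121 T122 T221 T222 Q1111 Q1112 Q1122 Q1212 Q1222 Q2222`,
`T_{ik,j} = ∂_i ∂_k ∂̄_j φ`, `Q_{ik,jl} = ∂_i ∂_k ∂̄_j ∂̄_l φ` -/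
abbrev Ten : Type := Fin 15 → ℝ

namespace Ten

def det (t : Ten) : ℝ := t 0 * t 2 - t 1 ^ 2

/-- `(Q(S,S') - ⟨T(S), T(S')⟩_g) det g` for `T(S) = (a₁,a₂)`, `T(S') = (b₁,b₂)` -/
def kk (t : Ten) (Q a₁ a₂ b₁ b₂ : ℝ) : ℝ :=
  Q * t.det - (a₁ * b₁ * t 2 + a₂ * b₂ * t 0 - t 1 * (a₁ * b₂ + a₂ * b₁))

def K00 (t : Ten) : ℝ := t.kk (t 9) (t 3) (t 4) (t 3) (t 4)
def K01 (t : Ten) : ℝ := t.kk (t 10) (t 3) (t 4) (t 5) (t 6)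
def K02 (t : Ten) : ℝ := t.kk (t 11) (t 3) (t 4) (t 7) (t 8)
def K11 (t : Ten) : ℝ := t.kk (t 12) (t 5) (t 6) (t 5) (t 6)
def K12 (t : Ten) : ℝ := t.kk (t 13) (t 5) (t 6) (t 7) (t 8)
def K22 (t : Ten) : ℝ := t.kk (t 14) (t 7) (t 8) (t 7) (t 8)

def KDD (t : Ten) : ℝ := t 2 ^ 2 * t.K00 - 2 * (t 0 * t 2) * t.K02 + t 0 ^ 2 * t.K22
def KOO (t : Ten) : ℝ := t 1 ^ 2 * t.K00 - 2 * (t 0 * t 1) * t.K01 + t 0 ^ 2 * t.K11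
def KDO (t : Ten) : ℝ :=
  t 1 * t 2 * t.K00 - t 0 * t 2 * t.K01 - t 0 * t 1 * t.K02 + t 0 ^ 2 * t.K12
def KII (t : Ten) : ℝ :=
  t 2 ^ 2 * t.K00 + 4 * t 1 ^ 2 * t.K11 + t 0 ^ 2 * t.K22 - 4 * (t 1 * t 2) * t.K01
    + 2 * (t 0 * t 2) * t.K02 - 4 * (t 0 * t 1) * t.K12

/-- the curvature condition -/
def Cond (t : Ten) : Prop :=
  0 < t 0 ∧ 0 < t.det ∧ 0 < t.KDD ∧ t.KDO ^ 2 < t.KDD * t.KOO ∧ 0 < t.KII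

/-- Hermitian form -/
def G (t : Ten) (e f : ℂ × ℂ) : ℂ :=
  t 0 * e.1 * (starRingEnd ℂ) f.1 + t 1 * (e.1 * (starRingEnd ℂ) f.2 + e.2 * (starRingEnd ℂ) f.1)
    + t 2 * e.2 * (starRingEnd ℂ) f.2

/-- `∑ T_{ik,j} e_i e'_k f̄_j` -/
def T3 (t : Ten) (e e' f : ℂ × ℂ) : ℂ :=
  e.1 * e'.1 * (t 3 * (starRingEnd ℂ) f.1 + t 4 * (starRingEnd ℂ) f.2)
  + (e.1 * e'.2 + e.2 * e'.1) * (t 5 * (starRingEnd ℂ) f.1 + t 6 * (starRingEnd ℂ) f.2)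
  + e.2 * e'.2 * (t 7 * (starRingEnd ℂ) f.1 + t 8 * (starRingEnd ℂ) f.2)

/-- `∑ Q_{ik,jl} e_i e'_k f̄_j f̄'_l` -/
def Q4 (t : Ten) (e e' f f' : ℂ × ℂ) : ℂ :=
  e.1 * e'.1 * (t 9 * (starRingEnd ℂ) (f.1 * f'.1)
    + t 10 * (starRingEnd ℂ) (f.1 * f'.2 + f.2 * f'.1) + t 11 * (starRingEnd ℂ) (f.2 * f'.2))
  + (e.1 * e'.2 + e.2 * e'.1) * (t 10 * (starRingEnd ℂ) (f.1 * f'.1)
    + t 12 * (starRingEnd ℂ) (f.1 * f'.2 + f.2 * f'.1) + t 13 * (starRingEnd ℂ) (f.2 * f'.2))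
  + e.2 * e'.2 * (t 11 * (starRingEnd ℂ) (f.1 * f'.1)
    + t 13 * (starRingEnd ℂ) (f.1 * f'.2 + f.2 * f'.1) + t 14 * (starRingEnd ℂ) (f.2 * f'.2))

end Ten

/-- linear algebra -/
def ST_COND : Prop := ∀ t : Ten, t.Cond → (∀ v : ℂ × ℂ, v ≠ 0 → 0 < (t.G v v).re) ∧
  ∀ e f : ℂ × ℂ, t.G e e = 1 → t.G f f = 1 → t.G e f = 0 →
    -(t.Q4 e f e f).re + ‖t.T3 e f e‖ ^ 2 + ‖t.T3 e f f‖ ^ 2 < 0

/-- `φ` has positive Levi form and negative curvature at `p` -/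
def GoodAt (φ : E → ℝ) (p : E) : Prop := GoodPot φ {p}

/-- directional derivative -/
def Dd (b : ℝ × ℝ) (ψ : ℝ × ℝ → ℝ) : ℝ × ℝ → ℝ := fun x => fderiv ℝ ψ x b

/-- tensors of a real function in the frame `b₁, b₂` -/
def tenOf (ψ : ℝ × ℝ → ℝ) (p b₁ b₂ : ℝ × ℝ) : Ten :=
  ![Dd b₁ (Dd b₁ ψ) p, Dd b₁ (Dd b₂ ψ) p, Dd b₂ (Dd b₂ ψ) p,
    Dd b₁ (Dd b₁ (Dd b₁ ψ)) p, Dd b₁ (Dd b₁ (Dd b₂ ψ)) p, Dd b₁ (Dd b₁ (Dd b₂ ψ)) p,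
    Dd b₁ (Dd b₂ (Dd b₂ ψ)) p, Dd b₁ (Dd b₂ (Dd b₂ ψ)) p, Dd b₂ (Dd b₂ (Dd b₂ ψ)) p,
    Dd b₁ (Dd b₁ (Dd b₁ (Dd b₁ ψ))) p, Dd b₁ (Dd b₁ (Dd b₁ (Dd b₂ ψ))) p,
    Dd b₁ (Dd b₁ (Dd b₂ (Dd b₂ ψ))) p, Dd b₁ (Dd b₁ (Dd b₂ (Dd b₂ ψ))) p,
    Dd b₁ (Dd b₂ (Dd b₂ (Dd b₂ ψ))) p, Dd b₂ (Dd b₂ (Dd b₂ (Dd b₂ ψ))) p]

/-- curvature of `ψ(α Im τ, β Im z)` -/
def ST_HCURV : Prop := ∀ (ψ : ℝ × ℝ → ℝ) (U : Set (ℝ × ℝ)), IsOpen U → ContDiffOn ℝ ∞ ψ U →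
  ∀ (α β : ℝ), α ≠ 0 → β ≠ 0 → ∀ x : E, (α * x.1.im, β * x.2.im) ∈ U →
  ∀ b₁ b₂ : ℝ × ℝ, b₁.1 * b₂.2 - b₁.2 * b₂.1 ≠ 0 →
    (tenOf ψ (α * x.1.im, β * x.2.im) b₁ b₂).Cond →
    GoodAt (fun y : E => ψ (α * y.1.im, β * y.2.im)) x

/-- the coordinate derivatives `∂^I ∂̄^J φ`, `I, J ∈ {1, X, Y, XX, XY, YY}` -/
def dI (I : Fin 6) (f : E → ℂ) : E → ℂ :=
  match I with
  | 0 => f
  | 1 => dz (1, 0) f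
  | 2 => dz (0, 1) f
  | 3 => dz (1, 0) (dz (1, 0) f)
  | 4 => dz (1, 0) (dz (0, 1) f)
  | 5 => dz (0, 1) (dz (0, 1) f)

def dJ (J : Fin 6) (f : E → ℂ) : E → ℂ :=
  match J with
  | 0 => f
  | 1 => dzb (1, 0) f
  | 2 => dzb (0, 1) f
  | 3 => dzb (1, 0) (dzb (1, 0) f)
  | 4 => dzb (1, 0) (dzb (0, 1) f)
  | 5 => dzb (0, 1) (dzb (0, 1) f)

def jet (φ : E → ℝ) (p : E) (I J : Fin 6) : ℂ := dI I (dJ J (toC φ)) p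

/-- the tensors of `φ` at `p` are given by the real numbers `t` -/
def HasTen (φ : E → ℝ) (p : E) (t : Ten) : Prop :=
  jet φ p 1 1 = t 0 ∧ jet φ p 1 2 = t 1 ∧ jet φ p 2 1 = t 1 ∧ jet φ p 2 2 = t 2 ∧
  jet φ p 3 1 = t 3 ∧ jet φ p 3 2 = t 4 ∧ jet φ p 4 1 = t 5 ∧ jet φ p 4 2 = t 6 ∧
  jet φ p 5 1 = t 7 ∧ jet φ p 5 2 = t 8 ∧
  jet φ p 3 3 = t 9 ∧ jet φ p 3 4 = t 10 ∧ jet φ p 4 3 = t 10 ∧ jet φ p 3 5 = t 11 ∧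
  jet φ p 5 3 = t 11 ∧ jet φ p 4 4 = t 12 ∧ jet φ p 4 5 = t 13 ∧ jet φ p 5 4 = t 13 ∧
  jet φ p 5 5 = t 14

/-- curvature from coordinate derivatives -/
def ST_JET : Prop := ∀ (φ : E → ℝ) (U : Set E), IsOpen U → ContDiffOn ℝ ∞ φ U → ∀ p ∈ U,
  ∀ t : Ten, HasTen φ p t → t.Cond → GoodAt φ p

/-- torus invariant potentials: it is enough to look at real points -/
def ST_ROT : Prop := ∀ (φ : E → ℝ) (U : Set E), IsOpen U → ContDiffOn ℝ ∞ φ U →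
  (∀ u v : ℂ, ‖u‖ = 1 → ‖v‖ = 1 → ∀ p : E, p ∈ U → (u * p.1, v * p.2) ∈ U ∧
    φ (u * p.1, v * p.2) = φ p) →
  ∀ p ∈ U, GoodAt φ (((‖p.1‖ : ℝ) : ℂ), ((‖p.2‖ : ℝ) : ℂ)) → GoodAt φ p

/-- coefficients and exponents -/
def cJ (J : Fin 6) (a b : ℕ) : ℝ :=
  ![1, (a : ℝ), (b : ℝ), (a : ℝ) * ((a : ℝ) - 1), (a : ℝ) * b, (b : ℝ) * ((b : ℝ) - 1)] J
def eX : Fin 6 → ℕ := ![0, 1, 0, 2, 1, 0]
def eY : Fin 6 → ℕ := ![0, 0, 1, 0, 1, 2]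

/-- `∂^I ∂̄^J |X^a Y^b|²` at the real point `(x, y)` -/
def monJ (a b : ℕ) (x y : ℝ) (I J : Fin 6) : ℝ :=
  cJ I a b * cJ J a b * x ^ (2 * a - eX I - eX J) * y ^ (2 * b - eY I - eY J)

/-- exponents of the `n`-th term of the theta function -/
def exA (k : ℕ) (n : ℤ) : ℕ := k * (n * (n + 1) / 2).toNat
def exB (k : ℕ) (n : ℤ) : ℕ := k * (n * (n - 1) / 2).toNat

def momZ (k : ℕ) (x y : ℝ) (I J : Fin 6) : ℝ := ∑' n : ℤ, monJ (exA k n) (exB k n) x y I J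
def momB (j : ℕ) (x y : ℝ) (I J : Fin 6) : ℝ := monJ 0 0 x y I J - monJ j j x y I J

/-- index of the second order derivative -/
def i2 (i k : Fin 2) : Fin 6 := if i = 0 then (if k = 0 then 3 else 4) else (if k = 0 then 4 else 5)
def i1 (i : Fin 2) : Fin 6 := if i = 0 then 1 else 2

/-- derivatives of `log u` from the normalised derivatives `m I J = u_{I,J}/u` -/
def lg2 (m : Fin 6 → Fin 6 → ℝ) (i j : Fin 2) : ℝ := m (i1 i) (i1 j) - m (i1 i) 0 * m 0 (i1 j)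
def lg3 (m : Fin 6 → Fin 6 → ℝ) (i k j : Fin 2) : ℝ :=
  m (i2 i k) (i1 j) - m (i2 i k) 0 * m 0 (i1 j) - m (i1 i) (i1 j) * m (i1 k) 0
    - m (i1 k) (i1 j) * m (i1 i) 0 + 2 * (m (i1 i) 0 * m (i1 k) 0 * m 0 (i1 j))
def lg4 (m : Fin 6 → Fin 6 → ℝ) (i k j l : Fin 2) : ℝ :=
  m (i2 i k) (i2 j l)
    - m (i2 i k) (i1 j) * m 0 (i1 l) - m (i2 i k) (i1 l) * m 0 (i1 j)
    - m (i1 i) (i2 j l) * m (i1 k) 0 - m (i1 k) (i2 j l) * m (i1 i) 0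
    - m (i2 i k) 0 * m 0 (i2 j l) - m (i1 i) (i1 j) * m (i1 k) (i1 l)
    - m (i1 i) (i1 l) * m (i1 k) (i1 j)
    + 2 * (m (i2 i k) 0 * m 0 (i1 j) * m 0 (i1 l) + m 0 (i2 j l) * m (i1 i) 0 * m (i1 k) 0
      + m (i1 i) (i1 j) * m (i1 k) 0 * m 0 (i1 l) + m (i1 i) (i1 l) * m (i1 k) 0 * m 0 (i1 j)
      + m (i1 k) (i1 j) * m (i1 i) 0 * m 0 (i1 l) + m (i1 k) (i1 l) * m (i1 i) 0 * m 0 (i1 j))
    - 6 * (m (i1 i) 0 * m (i1 k) 0 * (m 0 (i1 j) * m 0 (i1 l)))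

/-- tensors of `log u` -/
def logTen (u : Fin 6 → Fin 6 → ℝ) : Ten :=
  let m : Fin 6 → Fin 6 → ℝ := fun I J => u I J / u 0 0
  ![lg2 m 0 0, lg2 m 0 1, lg2 m 1 1, lg3 m 0 0 0, lg3 m 0 0 1, lg3 m 0 1 0, lg3 m 0 1 1,
    lg3 m 1 1 0, lg3 m 1 1 1, lg4 m 0 0 0 0, lg4 m 0 0 0 1, lg4 m 0 0 1 1, lg4 m 0 1 0 1,
    lg4 m 0 1 1 1, lg4 m 1 1 1 1]

/-- tensors of `potD` at the real point `(x, y)` -/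
def tenD (x y : ℝ) : Ten :=
  (4 : ℝ) • logTen (momZ 1 x y) + (10 : ℝ) • logTen (momZ 2 x y) + (8 : ℝ) • logTen (momZ 4 x y)
    - (5 : ℝ) • logTen (momB 1 x y) - (7 : ℝ) • logTen (momB 4 x y)

/-- logarithms -/
def ST_LOGJ : Prop := ∀ (u : E → ℝ) (U : Set E), IsOpen U → ContDiffOn ℝ ∞ u U →
  (∀ p ∈ U, 0 < u p) → ∀ p ∈ U, ∀ m : Fin 6 → Fin 6 → ℝ, (∀ I J, m I J = m J I) →
  (∀ I J, jet u p I J = m I J) → HasTen (fun q => Real.log (u q)) p (logTen m)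

/-- jets of the theta functions at real points -/
def ST_ZJET : Prop := ∀ (k : ℕ), 1 ≤ k → ∀ x y : ℝ, 0 ≤ x → 0 ≤ y → x * y < 1 →
  (∀ I J, jet (Zk k) ((x : ℂ), (y : ℂ)) I J = (momZ k x y I J : ℝ)) ∧
  (∀ I J, jet (fun p : E => 1 - ‖p.1 * p.2‖ ^ (2 * k)) ((x : ℂ), (y : ℂ)) I J
    = (momB k x y I J : ℝ))

/-- smoothness and positivity of the theta functions -/
def ST_ZSM : Prop := ∀ (k : ℕ), 1 ≤ k → ContDiffOn ℝ ∞ (Zk k) {p : E | ‖p.1 * p.2‖ < 1} ∧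
  ∀ p : E, ‖p.1 * p.2‖ < 1 → 0 < Zk k p

def ST_DCURV : Prop := ∀ p : E, ‖p.1 * p.2‖ < 1 → (tenD ‖p.1‖ ‖p.2‖).Cond → GoodAt potD p

/-- the certified inequality in the node charts -/
def ST_CERTD : Prop := ∀ x y : ℝ, 0 ≤ x → 0 ≤ y → x < 65 / 64 → y < 65 / 64 → x * y < 2 / 5 →
  (tenD x y).Cond

/-- `L^{a+b} ∂_L^b L^{-a}` applied to `exp(-c/L)`, `y = c/L` -/
def PL (a b : ℕ) (y : ℝ) : ℝ :=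
  match b with
  | 0 => 1
  | 1 => y - a
  | 2 => y ^ 2 - 2 * (a + 1) * y + a * (a + 1)
  | 3 => y ^ 3 - 3 * (a + 2) * y ^ 2 + 3 * (a + 1) * (a + 2) * y - a * (a + 1) * (a + 2)
  | _ => y ^ 4 - 4 * (a + 3) * y ^ 3 + 6 * (a + 2) * (a + 3) * y ^ 2
      - 4 * (a + 1) * (a + 2) * (a + 3) * y + a * (a + 1) * (a + 2) * (a + 3)

/-- normalised derivatives of `thd k`, without the factor `μ^{a/2}`, `μ = π²/(14 L)`;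
`θ = 2π(T/L - 1/2)` -/
def thH (k a b : ℕ) (L θ : ℝ) : ℝ :=
  ∑' m : ℤ, (m : ℝ) ^ a * Real.cos (m * θ + a * (Real.pi / 2)) *
    PL a b (2 * Real.pi ^ 2 * (m : ℝ) ^ 2 / (k * L)) *
    Real.exp (-(2 * Real.pi ^ 2 * (m : ℝ) ^ 2 / (k * L)))

/-- derivatives (orders `(a,b)`) of `thd k` in the frame `b₁ = (0, √(L/56))`, `b₂ = (L, T)` -/
def uH (k : ℕ) (L θ : ℝ) (a b : ℕ) : ℝ := Real.sqrt (Real.pi ^ 2 / (14 * L)) ^ a * thH k a b L θ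

/-- derivatives of `log u` from the derivatives `u a b` of `u` in directions `b₁, b₂` -/
def lgR (u : ℕ → ℕ → ℝ) : Ten :=
  let m : ℕ → ℕ → ℝ := fun a b => u a b / u 0 0
  let k20 := m 2 0 - m 1 0 ^ 2
  let k11 := m 1 1 - m 1 0 * m 0 1
  let k02 := m 0 2 - m 0 1 ^ 2
  let k30 := m 3 0 - 3 * m 2 0 * m 1 0 + 2 * m 1 0 ^ 3
  let k21 := m 2 1 - m 2 0 * m 0 1 - 2 * m 1 1 * m 1 0 + 2 * m 1 0 ^ 2 * m 0 1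
  let k12 := m 1 2 - m 0 2 * m 1 0 - 2 * m 1 1 * m 0 1 + 2 * m 1 0 * m 0 1 ^ 2
  let k03 := m 0 3 - 3 * m 0 2 * m 0 1 + 2 * m 0 1 ^ 3
  let k40 := m 4 0 - 4 * m 3 0 * m 1 0 - 3 * m 2 0 ^ 2 + 12 * m 2 0 * m 1 0 ^ 2 - 6 * m 1 0 ^ 4
  let k31 := m 3 1 - m 3 0 * m 0 1 - 3 * m 2 1 * m 1 0 - 3 * m 2 0 * m 1 1
    + 6 * m 2 0 * m 1 0 * m 0 1 + 6 * m 1 1 * m 1 0 ^ 2 - 6 * m 1 0 ^ 3 * m 0 1
  let k22 := m 2 2 - 2 * m 2 1 * m 0 1 - 2 * m 1 2 * m 1 0 - m 2 0 * m 0 2 - 2 * m 1 1 ^ 2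
    + 2 * m 2 0 * m 0 1 ^ 2 + 2 * m 0 2 * m 1 0 ^ 2 + 8 * m 1 1 * m 1 0 * m 0 1
    - 6 * m 1 0 ^ 2 * m 0 1 ^ 2
  let k13 := m 1 3 - m 0 3 * m 1 0 - 3 * m 1 2 * m 0 1 - 3 * m 0 2 * m 1 1
    + 6 * m 0 2 * m 0 1 * m 1 0 + 6 * m 1 1 * m 0 1 ^ 2 - 6 * m 0 1 ^ 3 * m 1 0
  let k04 := m 0 4 - 4 * m 0 3 * m 0 1 - 3 * m 0 2 ^ 2 + 12 * m 0 2 * m 0 1 ^ 2 - 6 * m 0 1 ^ 4
  ![k20, k11, k02, k30, k21, k21, k12, k12, k03, k40, k31, k22, k22, k13, k04]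

/-- base part: `z = jL/2` -/
def bb2 (z : ℝ) : ℝ := (z / Real.sinh z) ^ 2
def bb3 (z : ℝ) : ℝ := -2 * z ^ 3 * Real.cosh z / Real.sinh z ^ 3
def bb4 (z : ℝ) : ℝ :=
  2 * z ^ 4 * (3 * Real.cosh z ^ 2 - Real.sinh z ^ 2) / Real.sinh z ^ 4

/-- semi-flat part of the tensors -/
def tenS (L : ℝ) : Ten :=
  ![1, 0, 11 + 5 * bb2 (L / 2) + 7 * bb2 (2 * L), 0, -1, -1, 0, 0,
    -22 + 5 * bb3 (L / 2) + 7 * bb3 (2 * L), 0, 0, 2, 2, 0,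
    66 + 5 * bb4 (L / 2) + 7 * bb4 (2 * L)]

/-- tensors of `FU + FD` at `(L, T)` in the frame `b₁ = (0, √(L/56))`, `b₂ = (L, T)`;
`θ = 2π(T/L - 1/2)` -/
def tenH (L θ : ℝ) : Ten :=
  tenS L + (4 : ℝ) • lgR (uH 1 L θ) + (10 : ℝ) • lgR (uH 2 L θ) + (8 : ℝ) • lgR (uH 4 L θ)

def ST_HTEN : Prop := ∀ L T : ℝ, 0 < L →
  tenOf (fun p => FU p + FD p) (L, T) (0, Real.sqrt (L / 56)) (L, T)
    = tenH L (2 * Real.pi * (T / L - 1 / 2))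

/-- the certified inequality -/
def ST_HNUM : Prop := ∀ L θ : ℝ, 0 < L → L < 37 / 20 → (tenH L θ).Cond

/-- normalised derivatives of `FD` tend to zero as `L → 0` -/
def ST_FDLIM : Prop := ∀ η : ℝ, 0 < η → ∃ L₀ : ℝ, 0 < L₀ ∧ ∀ L T : ℝ, 0 < L → L < L₀ →
  ∀ a b : ℕ, a + b ≤ 4 →
    |((Dd (0, Real.sqrt (L / 56)))^[a] ((Dd (L, T))^[b] FD)) (L, T)| ≤ η

/-- the certified inequality in the charts `(τ, z)` -/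
def ST_CERTH : Prop := ∀ L T : ℝ, 0 < L → L < 37 / 20 → ∃ b₁ b₂ : ℝ × ℝ,
  b₁.1 * b₂.2 - b₁.2 * b₂.1 ≠ 0 ∧ (tenOf (fun p => FU p + FD p) (L, T) b₁ b₂).Cond

/-- the cut-off region -/
def ST_CUT : Prop := ∃ ε : ℝ, 0 < ε ∧ ε ≤ 9 / 10 ∧ ∀ L T : ℝ, 0 < L → L ≤ 2 * ε →
  ∃ b₁ b₂ : ℝ × ℝ, b₁.1 * b₂.2 - b₁.2 * b₂.1 ≠ 0 ∧ (tenOf (Feps ε) (L, T) b₁ b₂).Cond

def ST_HGOOD : Prop := ∃ ε : ℝ, 0 < ε ∧ ε ≤ 9 / 10 ∧ ∀ N : ℕ, 1 ≤ N → GoodPot (potH N ε) (UH N)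
def ST_DGOOD : Prop := GoodPot potD UD

def ST_GOOD : Prop := ∃ ε : ℝ, 0 < ε ∧ ∀ (M : ModData) (N : ℕ), NOK N → 5 * Real.pi / N ≤ ε →
  ∀ t : ℝ, (ricData M N ε t).Good

/-! ### Part F: the surface `X_t` is not projective for some `t` -/

/-- `f` has local holomorphic lifts on `W` -/
def LiftsOn {n : ℕ} (f : E → ℙ ℂ (Fin (n + 1) → ℂ)) (W : Set E) : Prop :=
  ∀ x ∈ W, ∃ V : Set E, IsOpen V ∧ x ∈ V ∧ ∃ F : E → (Fin (n + 1) → ℂ),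
    DifferentiableOn ℂ F V ∧ ∀ y ∈ V, ∃ h : F y ≠ 0, f y = Projectivization.mk ℂ (F y) h

def Emb (M : ModData) (N : ℕ) (t : ℝ) : Prop :=
  ∃ (n : ℕ) (f : Idx M N → E → ℙ ℂ (Fin (n + 1) → ℂ)),
    (∀ i j, ∀ x ∈ Uof i, ∀ y ∈ Uof j, f i x = f j y ↔ ricR M t i x j y) ∧
    ∀ i, LiftsOn (f i) (Uof i)

/-- extension to the whole open part -/
structure ExtData (M : ModData) (N : ℕ) (t : ℝ) where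
  n : ℕ
  fH : QN M N → E → ℙ ℂ (Fin (n + 1) → ℂ)
  fD : Cusp M N × ZMod N → E → ℙ ℂ (Fin (n + 1) → ℂ)
  iff : ∀ (q q' : QN M N) (x x' : E), 0 < x.1.im → 0 < x'.1.im →
    (fH q x = fH q' x' ↔ GR M t q q' x x')
  liftH : ∀ q, LiftsOn (fH q) {x : E | 0 < x.1.im}
  liftD : ∀ ck, LiftsOn (fD ck) UD
  compat : ∀ (c : Cusp M N) (k : ZMod N), ∀ p ∈ UD, ∀ x₀, D0 k p x₀ →
    fD (c, k) p = fH (cout M c) x₀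

def ST_EXT : Prop := ∀ (M : ModData) (N : ℕ), NOK N → ∀ t : ℝ, Emb M N t →
  Nonempty (ExtData M N t)

/-- a generic hyperplane -/
def ST_GEN : Prop := ∀ (M : ModData) (N : ℕ), NOK N → ∀ (t : ℝ) (D : ExtData M N t),
  ∃ l : (Fin (D.n + 1) → ℂ) →ₗ[ℂ] ℂ,
    (∀ (q : QN M N) (τ : ℂ), 0 < τ.im → ∃ z : ℂ, l (D.fH q (τ, z)).rep ≠ 0) ∧
    (∀ (c : Cusp M N) (k : ZMod N) (p : E), ‖p.1‖ ≤ 1 → ‖p.2‖ ≤ 1 → p.1 * p.2 = 0 →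
      (‖p.1‖ = 1 ∨ ‖p.2‖ = 1 ∨ p = 0) → l (D.fD (c, k) p).rep ≠ 0)

/-- `μ` is the fibrewise multiplicity function of a divisor on `W` -/
def FibDiv (μ : E → ℕ) (W : Set E) : Prop :=
  ∀ x ∈ W, ∃ V : Set E, IsOpen V ∧ x ∈ V ∧ ∃ G : E → ℂ, DifferentiableOn ℂ G V ∧
    ∀ y ∈ V, analyticOrderAt (fun z => G (y.1, z)) y.2 ≠ ⊤ ∧
      μ y = analyticOrderNatAt (fun z => G (y.1, z)) y.2

/-- the zero divisor of a generic hyperplane section -/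
structure DivData (M : ModData) (N : ℕ) (t : ℝ) where
  μ : QN M N → E → ℕ
  fib : ∀ q, FibDiv (μ q) {x : E | 0 < x.1.im}
  inv : ∀ (q q' : QN M N) (x x' : E), 0 < x.1.im → GR M t q q' x x' → μ q x = μ q' x'
  pos : ∃ (q : QN M N) (x : E), 0 < x.1.im ∧ 0 < μ q x
  cusp : ∀ (c : Cusp M N) (k : ZMod N) (p : E), ‖p.1‖ ≤ 1 → ‖p.2‖ ≤ 1 → p.1 * p.2 = 0 →
    ∃ V : Set E, IsOpen V ∧ p ∈ V ∧ ∃ G : E → ℂ, DifferentiableOn ℂ G V ∧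
      (∀ p' ∈ V, ∀ x₀, D0 k p' x₀ → μ (cout M c) x₀ = analyticOrderNatAt
        (fun s : ℂ => G (p'.1 * exp (-(2 * Real.pi * I * s)), p'.2 * exp (2 * Real.pi * I * s))) 0) ∧
      ((‖p.1‖ = 1 ∨ ‖p.2‖ = 1 ∨ p = 0) → G p ≠ 0) ∧
      (p.2 = 0 → analyticOrderAt (fun X => G (X, 0)) p.1 ≠ ⊤) ∧
      (p.1 = 0 → analyticOrderAt (fun Y => G (0, Y)) p.2 ≠ ⊤)

def ST_DIV : Prop := ∀ (M : ModData) (N : ℕ), NOK N → ∀ (t : ℝ) (D : ExtData M N t)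
  (l : (Fin (D.n + 1) → ℂ) →ₗ[ℂ] ℂ),
    (∀ (q : QN M N) (τ : ℂ), 0 < τ.im → ∃ z : ℂ, l (D.fH q (τ, z)).rep ≠ 0) →
    (∀ (c : Cusp M N) (k : ZMod N) (p : E), ‖p.1‖ ≤ 1 → ‖p.2‖ ≤ 1 → p.1 * p.2 = 0 →
      (‖p.1‖ = 1 ∨ ‖p.2‖ = 1 ∨ p = 0) → l (D.fD (c, k) p).rep ≠ 0) →
    Nonempty (DivData M N t)

/-- the lattice `ℤτ + ℤ` -/
def latt (τ : ℂ) : AddSubgroup ℂ where
  carrier := {z | ∃ m n : ℤ, z = (m : ℂ) * τ + n}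
  zero_mem' := ⟨0, 0, by simp⟩
  add_mem' := by
    rintro a b ⟨m, n, rfl⟩ ⟨m', n', rfl⟩
    exact ⟨m + m', n + n', by push_cast; ring⟩
  neg_mem' := by
    rintro a ⟨m, n, rfl⟩
    exact ⟨-m, -n, by push_cast; ring⟩

/-- number of zeros in the fibre -/
def degF (μ : E → ℕ) (τ : ℂ) : ℕ := ∑ᶠ x : ℂ ⧸ latt τ, μ (τ, Quotient.out x)

/-- sum of the zeros in the fibre -/
def sumF (μ : E → ℕ) (τ : ℂ) : ℂ ⧸ latt τ := ∑ᶠ x : ℂ ⧸ latt τ, μ (τ, Quotient.out x) • x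

/-- zeros near an isolated zero: the argument principle with a holomorphic parameter -/
def ST_CL : Prop := ∀ (V : Set E) (G : E → ℂ) (s₀ z₀ : ℂ), IsOpen V → (s₀, z₀) ∈ V →
  DifferentiableOn ℂ G V → analyticOrderAt (fun z => G (s₀, z)) z₀ ≠ ⊤ →
  ∃ ρ₀ > 0, ∀ ρ, 0 < ρ → ρ ≤ ρ₀ → ∃ δ > 0,
    (∀ s ∈ Metric.ball s₀ δ, ∀ z ∈ Metric.closedBall z₀ ρ, (s, z) ∈ V) ∧
    (∀ s ∈ Metric.ball s₀ δ, ∀ z ∈ Metric.sphere z₀ ρ, G (s, z) ≠ 0) ∧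
    (∀ s ∈ Metric.ball s₀ δ, {z | z ∈ Metric.ball z₀ ρ ∧ G (s, z) = 0}.Finite) ∧
    (∀ s ∈ Metric.ball s₀ δ,
      ∑ᶠ z ∈ Metric.ball z₀ ρ, analyticOrderNatAt (fun w => G (s, w)) z
        = analyticOrderNatAt (fun w => G (s₀, w)) z₀) ∧
    (∀ u : E → ℂ, DifferentiableOn ℂ u V → DifferentiableOn ℂ (fun s =>
      ∑ᶠ z ∈ Metric.ball z₀ ρ, (analyticOrderNatAt (fun w => G (s, w)) z : ℂ) * u (s, z))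
      (Metric.ball s₀ δ))

/-- local holomorphic choice of the sum of the zeros -/
def ST_LOC : Prop := ∀ μ : E → ℕ, FibDiv μ {x : E | 0 < x.1.im} →
  (∀ (τ z : ℂ) (m n : ℤ), 0 < τ.im → μ (τ, z + m * τ + n) = μ (τ, z)) →
  ∀ τ₀ : ℂ, 0 < τ₀.im → ∃ δ > 0, Metric.ball τ₀ δ ⊆ {τ : ℂ | 0 < τ.im} ∧
    ∃ S : ℂ → ℂ, DifferentiableOn ℂ S (Metric.ball τ₀ δ) ∧ ∀ τ ∈ Metric.ball τ₀ δ,
      sumF μ τ = ((S τ : ℂ) : ℂ ⧸ latt τ) ∧ degF μ τ = degF μ τ₀ ∧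
      {z | z ∈ Set.range (fun x : ℂ ⧸ latt τ => Quotient.out x) ∧ 0 < μ (τ, z)}.Finite

/-- global holomorphic choice -/
def ST_GLOB : Prop := ∀ μ : E → ℕ, FibDiv μ {x : E | 0 < x.1.im} →
  (∀ (τ z : ℂ) (m n : ℤ), 0 < τ.im → μ (τ, z + m * τ + n) = μ (τ, z)) →
  ∃ (d : ℕ) (S : ℂ → ℂ), DifferentiableOn ℂ S {τ : ℂ | 0 < τ.im} ∧
    ∀ τ : ℂ, 0 < τ.im → sumF μ τ = ((S τ : ℂ) : ℂ ⧸ latt τ) ∧ degF μ τ = d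

/-- the function `S_q` -/
structure SumData (M : ModData) (N : ℕ) (t : ℝ) where
  d : ℕ
  S : QN M N → ℂ → ℂ
  pos : 1 ≤ d
  hol : ∀ q, DifferentiableOn ℂ (S q) {τ : ℂ | 0 < τ.im}
  equi : ∀ (q q' : QN M N) (γ : SL(2, ℤ)),
    (q : SL(2, ZMod N) × ℂˣ) = (q' : SL(2, ZMod N) × ℂˣ) * hN M N γ →
    ∃ m n : ℤ, ∀ τ : ℂ, 0 < τ.im → S q' (mob γ τ) * jj γ τ = S q τ
      + (d : ℂ) * (t : ℂ) * ((((zet M q' * M.V₁ γ).re : ℝ) : ℂ) * τ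
        + (((zet M q' * M.V₂ γ).re : ℝ) : ℂ)) + (m : ℂ) * τ + (n : ℂ)
  cusp : ∀ q, ∃ (m : ℤ) (b : ℂ), ∀ ε > 0, ∃ Y : ℝ, ∀ τ : ℂ, Y < τ.im →
    ‖S q τ - (m : ℂ) / N * τ - b‖ < ε

/-- equivariance of the sums -/
def ST_SEQ : Prop := ∀ (M : ModData) (N : ℕ), NOK N → ∀ (t : ℝ) (D : DivData M N t)
  (q q' : QN M N) (γ : SL(2, ℤ)),
  (q : SL(2, ZMod N) × ℂˣ) = (q' : SL(2, ZMod N) × ℂˣ) * hN M N γ →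
  (∀ τ : ℂ, 0 < τ.im → degF (D.μ q') (mob γ τ) = degF (D.μ q) τ) ∧
  ∀ (d : ℕ) (S S' : ℂ → ℂ), ContinuousOn S {τ : ℂ | 0 < τ.im} →
    ContinuousOn S' {τ : ℂ | 0 < τ.im} →
    (∀ τ : ℂ, 0 < τ.im → sumF (D.μ q) τ = ((S τ : ℂ) : ℂ ⧸ latt τ) ∧ degF (D.μ q) τ = d) →
    (∀ τ : ℂ, 0 < τ.im → sumF (D.μ q') τ = ((S' τ : ℂ) : ℂ ⧸ latt τ)) →
    ∃ m n : ℤ, ∀ τ : ℂ, 0 < τ.im → S' (mob γ τ) * jj γ τ = S τ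
      + (d : ℂ) * (t : ℂ) * ((((zet M q' * M.V₁ γ).re : ℝ) : ℂ) * τ
        + (((zet M q' * M.V₂ γ).re : ℝ) : ℂ)) + (m : ℂ) * τ + (n : ℂ)

/-- the sums near a cusp -/
def ST_SCU : Prop := ∀ (M : ModData) (N : ℕ), NOK N → ∀ (t : ℝ) (D : DivData M N t)
  (c : Cusp M N), ∃ (m : ℤ) (b : ℂ → ℂ) (Y₀ : ℝ), DifferentiableAt ℂ b 0 ∧
    (∀ᶠ q in 𝓝 (0 : ℂ), DifferentiableAt ℂ b q) ∧
    ∀ τ : ℂ, Y₀ < τ.im → 0 < τ.im → sumF (D.μ (cout M c)) τ =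
      (((m : ℂ) / N * τ + b (exp (2 * Real.pi * I * τ / N)) : ℂ) : ℂ ⧸ latt τ)

def ST_SUM : Prop := ∀ (M : ModData) (N : ℕ), NOK N → ∀ t : ℝ, DivData M N t →
  Nonempty (SumData M N t)

/-- two parameters with the same integral data -/
def ST_PIG : Prop := ∀ (M : ModData) (N : ℕ), NOK N → (∀ t : ℝ, Nonempty (SumData M N t)) →
  ∃ (δ : ℝ) (D : QN M N → ℂ → ℂ), δ ≠ 0 ∧
    (∀ q, DifferentiableOn ℂ (D q) {τ : ℂ | 0 < τ.im}) ∧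
    (∀ (q q' : QN M N) (γ : SL(2, ℤ)), (γ = ModularGroup.S ∨ γ = ModularGroup.T) →
      (q : SL(2, ZMod N) × ℂˣ) = (q' : SL(2, ZMod N) × ℂˣ) * hN M N γ →
      ∀ τ : ℂ, 0 < τ.im → D q' (mob γ τ) * jj γ τ = D q τ
        + (δ : ℂ) * ((((zet M q' * M.V₁ γ).re : ℝ) : ℂ) * τ
          + (((zet M q' * M.V₂ γ).re : ℝ) : ℂ))) ∧
    (∀ q, ∃ b : ℂ, ∀ ε > 0, ∃ Y : ℝ, ∀ τ : ℂ, Y < τ.im → ‖D q τ - b‖ < ε)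

/-- maximum principle -/
def ST_MAXP : Prop := ∀ (M : ModData) (N : ℕ), NOK N → ∀ (δ : ℝ) (D : QN M N → ℂ → ℂ), δ ≠ 0 →
    (∀ q, DifferentiableOn ℂ (D q) {τ : ℂ | 0 < τ.im}) →
    (∀ (q q' : QN M N) (γ : SL(2, ℤ)), (γ = ModularGroup.S ∨ γ = ModularGroup.T) →
      (q : SL(2, ZMod N) × ℂˣ) = (q' : SL(2, ZMod N) × ℂˣ) * hN M N γ →
      ∀ τ : ℂ, 0 < τ.im → D q' (mob γ τ) * jj γ τ = D q τ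
        + (δ : ℂ) * ((((zet M q' * M.V₁ γ).re : ℝ) : ℂ) * τ
          + (((zet M q' * M.V₂ γ).re : ℝ) : ℂ))) →
    (∀ q, ∃ b : ℂ, ∀ ε > 0, ∃ Y : ℝ, ∀ τ : ℂ, Y < τ.im → ‖D q τ - b‖ < ε) → False

def ST_NP : Prop := ∀ (M : ModData) (N : ℕ), NOK N → ∃ t : ℝ, ¬ Emb M N t

end RicP
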