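import Pool.Agent.Helper88.Ric.HNRun

/-!
MP_092777_ag: kernel evaluation of the certificate HNUM, part B.
-/

set_option autoImplicit false
set_option maxRecDepth 100000

namespace RicP

namespace HN

def tree7 : Tr :=
    (Tr.c (Tr.c (Tr.l (Tr.c (Tr.l (Tr.c (Tr.l Tr.o Tr.o) (Tr.l Tr.o Tr.o)) (Tr.c (Tr.l Tr.o
    Tr.o) (Tr.l Tr.o Tr.o))) (Tr.l (Tr.c (Tr.l Tr.o Tr.o) (Tr.l Tr.o Tr.o)) (Tr.c (Tr.l Tr.o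
    Tr.o) (Tr.l Tr.o Tr.o)))) (Tr.c (Tr.l (Tr.c (Tr.l Tr.o Tr.o) (Tr.l Tr.o Tr.o)) (Tr.c (Tr.l
    Tr.o Tr.o) (Tr.l Tr.o Tr.o))) (Tr.l (Tr.c (Tr.l Tr.o Tr.o) (Tr.l Tr.o Tr.o)) (Tr.c (Tr.l
    Tr.o Tr.o) (Tr.l Tr.o Tr.o))))) (Tr.l (Tr.c (Tr.l (Tr.c (Tr.l Tr.o Tr.o) (Tr.l Tr.o Tr.o))
    (Tr.c (Tr.l Tr.o Tr.o) (Tr.l Tr.o Tr.o))) (Tr.l (Tr.c Tr.o Tr.o) (Tr.c Tr.o Tr.o))) (Tr.c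
    (Tr.l (Tr.c (Tr.l Tr.o Tr.o) (Tr.l Tr.o Tr.o)) (Tr.c (Tr.l Tr.o Tr.o) (Tr.l Tr.o Tr.o)))
    (Tr.l (Tr.c Tr.o Tr.o) (Tr.c Tr.o Tr.o))))) (Tr.c (Tr.l (Tr.c (Tr.l (Tr.c Tr.o Tr.o) (Tr.c
    Tr.o Tr.o)) (Tr.l (Tr.c Tr.o Tr.o) (Tr.c Tr.o Tr.o))) (Tr.c (Tr.l (Tr.c Tr.o Tr.o) (Tr.c
    Tr.o Tr.o)) (Tr.l (Tr.c Tr.o Tr.o) (Tr.c Tr.o Tr.o)))) (Tr.l (Tr.c (Tr.l (Tr.c Tr.o Tr.o)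
    (Tr.c Tr.o Tr.o)) (Tr.l (Tr.c Tr.o Tr.o) (Tr.c Tr.o Tr.o))) (Tr.c (Tr.l (Tr.c Tr.o Tr.o)
    (Tr.c Tr.o Tr.o)) (Tr.l (Tr.c Tr.o Tr.o) (Tr.c Tr.o Tr.o))))))

theorem run7 : run tree7 1288490188800 1467805073408 0 2199023255552 = true := by
  decide +kernel

def tree8 : Tr :=
    (Tr.c (Tr.c (Tr.c (Tr.l (Tr.c (Tr.l (Tr.c Tr.o Tr.o) (Tr.c Tr.o Tr.o)) (Tr.l (Tr.c Tr.o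
    Tr.o) (Tr.c Tr.o Tr.o))) (Tr.c (Tr.l (Tr.c Tr.o Tr.o) (Tr.c Tr.o Tr.o)) (Tr.l (Tr.c Tr.o
    Tr.o) (Tr.c Tr.o Tr.o)))) (Tr.l (Tr.c (Tr.l (Tr.c Tr.o Tr.o) (Tr.c Tr.o Tr.o)) (Tr.l Tr.o
    Tr.o)) (Tr.c (Tr.l (Tr.c Tr.o Tr.o) (Tr.c Tr.o Tr.o)) (Tr.l (Tr.c Tr.o Tr.o) (Tr.c Tr.o
    Tr.o))))) (Tr.c (Tr.l (Tr.c (Tr.l Tr.o Tr.o) (Tr.l Tr.o Tr.o)) (Tr.c (Tr.l Tr.o Tr.o) (Tr.l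
    Tr.o Tr.o))) (Tr.l (Tr.c (Tr.l Tr.o Tr.o) (Tr.l Tr.o Tr.o)) (Tr.c (Tr.l Tr.o Tr.o) (Tr.l
    Tr.o Tr.o))))) (Tr.c (Tr.c (Tr.l (Tr.c (Tr.l Tr.o Tr.o) (Tr.l Tr.o Tr.o)) (Tr.c (Tr.l Tr.o
    Tr.o) (Tr.l Tr.o Tr.o))) (Tr.l (Tr.c (Tr.l Tr.o Tr.o) (Tr.l Tr.o Tr.o)) (Tr.c (Tr.l Tr.o
    Tr.o) (Tr.l Tr.o Tr.o)))) (Tr.c (Tr.l (Tr.c (Tr.l Tr.o Tr.o) (Tr.l Tr.o Tr.o)) (Tr.c (Tr.l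
    Tr.o Tr.o) (Tr.l Tr.o Tr.o))) (Tr.l (Tr.c (Tr.l Tr.o Tr.o) (Tr.l Tr.o Tr.o)) (Tr.c (Tr.l
    Tr.o Tr.o) (Tr.l Tr.o Tr.o))))))

theorem run8 : run tree8 1467805073408 1610612736000 0 2199023255552 = true := by
  decide +kernel

end HN

end RicP
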