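import Pool.Agent.Helper88.Ric.HNRun

/-!
MP_092777_ag: kernel evaluation of the certificate HNUM, part D.
-/

set_option autoImplicit false
set_option maxRecDepth 100000

namespace RicP

namespace HN

def tree11 : Tr :=
    (Tr.c (Tr.c (Tr.c (Tr.l (Tr.c (Tr.l (Tr.c Tr.o Tr.o) (Tr.c Tr.o Tr.o)) (Tr.l (Tr.c Tr.o
    Tr.o) (Tr.c Tr.o Tr.o))) (Tr.c (Tr.l (Tr.c Tr.o Tr.o) (Tr.c Tr.o Tr.o)) (Tr.l (Tr.c Tr.o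
    Tr.o) (Tr.c Tr.o Tr.o)))) (Tr.l (Tr.c (Tr.l (Tr.c Tr.o Tr.o) (Tr.c Tr.o Tr.o)) (Tr.l (Tr.c
    Tr.o Tr.o) (Tr.c Tr.o Tr.o))) (Tr.c (Tr.l (Tr.c Tr.o Tr.o) (Tr.c Tr.o Tr.o)) (Tr.l (Tr.c
    Tr.o Tr.o) (Tr.c Tr.o Tr.o))))) (Tr.c (Tr.l (Tr.c (Tr.l (Tr.c Tr.o Tr.o) (Tr.c Tr.o Tr.o))
    (Tr.l (Tr.c Tr.o Tr.o) (Tr.c Tr.o Tr.o))) (Tr.c (Tr.l (Tr.c Tr.o Tr.o) (Tr.c Tr.o Tr.o))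
    (Tr.l (Tr.c Tr.o Tr.o) (Tr.c Tr.o Tr.o)))) (Tr.l (Tr.c (Tr.l (Tr.c Tr.o Tr.o) (Tr.c Tr.o
    Tr.o)) (Tr.l (Tr.c Tr.o Tr.o) (Tr.c Tr.o Tr.o))) (Tr.c (Tr.l (Tr.c Tr.o Tr.o) (Tr.c Tr.o
    Tr.o)) (Tr.l (Tr.c Tr.o Tr.o) (Tr.c Tr.o Tr.o)))))) (Tr.c (Tr.c (Tr.l (Tr.c (Tr.l (Tr.c Tr.o
    Tr.o) (Tr.c Tr.o Tr.o)) (Tr.l (Tr.c Tr.o Tr.o) (Tr.c Tr.o Tr.o))) (Tr.c (Tr.l (Tr.c Tr.o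
    Tr.o) (Tr.c Tr.o Tr.o)) (Tr.l (Tr.c Tr.o Tr.o) (Tr.c Tr.o Tr.o)))) (Tr.l (Tr.c (Tr.l (Tr.c
    Tr.o Tr.o) (Tr.c Tr.o Tr.o)) (Tr.l (Tr.c Tr.o Tr.o) (Tr.c Tr.o Tr.o))) (Tr.c (Tr.l (Tr.c
    Tr.o Tr.o) (Tr.c Tr.o Tr.o)) (Tr.l (Tr.c Tr.o Tr.o) (Tr.c Tr.o Tr.o))))) (Tr.c (Tr.l (Tr.c
    (Tr.l (Tr.c Tr.o Tr.o) (Tr.c Tr.o Tr.o)) (Tr.l (Tr.c Tr.o Tr.o) (Tr.c Tr.o Tr.o))) (Tr.c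
    (Tr.l (Tr.c Tr.o Tr.o) (Tr.c Tr.o Tr.o)) (Tr.l (Tr.c Tr.o Tr.o) (Tr.c Tr.o Tr.o)))) (Tr.l
    (Tr.c (Tr.l (Tr.c Tr.o Tr.o) (Tr.c Tr.o Tr.o)) (Tr.l Tr.o (Tr.c Tr.o Tr.o))) (Tr.c (Tr.l
    (Tr.c Tr.o Tr.o) (Tr.c Tr.o Tr.o)) (Tr.l (Tr.c Tr.o Tr.o) (Tr.c Tr.o Tr.o)))))))

theorem run11 : run tree11 1889785610240 2034740756480 0 2199023255552 = true := by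
  decide +kernel

end HN

end RicP
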