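import Pool.Agent.Helper88.Ric.HNRunA
import Pool.Agent.Helper88.Ric.HNRunB
import Pool.Agent.Helper88.Ric.HNRunC
import Pool.Agent.Helper88.Ric.HNRunD

/-!
MP_092777_ag: the certificate HNUM.
-/

set_option autoImplicit false

noncomputable section

namespace RicP

open TM

namespace HN

theorem pick (t h : ℝ) (hh : 0 ≤ h) (ht : |t| ≤ h + 1) : ∃ u : ℝ, |u| ≤ 1 ∧ |t - h * u| ≤ 1 := by
  have h1 : 0 < h + 1 := by linarith
  refine ⟨t / (h + 1), ?_, ?_⟩
  · rw [abs_div, abs_of_pos h1, div_le_one h1]; exact ht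
  · have : t - h * (t / (h + 1)) = t / (h + 1) := by field_simp; ring
    rw [this, abs_div, abs_of_pos h1, div_le_one h1]; exact ht

/-- midpoint and half width -/
theorem mid_bound (a b : ℕ) (x : ℝ) (h0 : (a : ℝ) ≤ x) (h1 : x ≤ b) :
    |x - ((Nat.shiftRight (Nat.add a b) 1 : ℕ) : ℝ)|
      ≤ ((Nat.shiftRight (Nat.sub b a) 1 : ℕ) : ℝ) + 1 := by
  have hab : a ≤ b := by exact_mod_cast h0.trans h1
  have e1 : Nat.shiftRight (Nat.add a b) 1 = (a + b) / 2 ^ 1 := Nat.shiftRight_eq_div_pow _ 1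
  have e2 : Nat.shiftRight (Nat.sub b a) 1 = (b - a) / 2 ^ 1 := Nat.shiftRight_eq_div_pow _ 1
  rw [e1, e2]
  have f1 : (a + b) / 2 ^ 1 ≤ a + (b - a) / 2 ^ 1 := by omega
  have f2 : b ≤ (a + b) / 2 ^ 1 + (b - a) / 2 ^ 1 + 1 := by omega
  have f1' : (((a + b) / 2 ^ 1 : ℕ) : ℝ) ≤ a + (((b - a) / 2 ^ 1 : ℕ) : ℝ) := by exact_mod_cast f1
  have f2' : (b : ℝ) ≤ (((a + b) / 2 ^ 1 : ℕ) : ℝ) + (((b - a) / 2 ^ 1 : ℕ) : ℝ) + 1 := by
    exact_mod_cast f2
  rw [abs_le]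
  constructor <;> linarith

theorem enc_mkL {l0 l1 : ℕ} {L : ℝ} (h0 : (l0 : ℝ) ≤ L * 1099511627776)
    (h1 : L * 1099511627776 ≤ l1) : ∃ u : ℝ, |u| ≤ 1 ∧ ∀ v : ℝ, |v| ≤ 1 →
      Enc (mkL l0 l1) u v L := by
  obtain ⟨u, hu, h⟩ := pick _ _ (Nat.cast_nonneg _) (mid_bound l0 l1 _ h0 h1)
  refine ⟨u, hu, fun v hv => ⟨hu, hv, ?_⟩⟩
  unfold mkL
  refine le_trans (le_of_eq ?_) (h.trans (by norm_num))
  congr 1
  push_cast
  ring

theorem enc_mkC {c0 c1 : ℕ} {c : ℝ} (h0 : (c0 : ℝ) ≤ (c + 1) * 1099511627776)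
    (h1 : (c + 1) * 1099511627776 ≤ c1) : ∃ v : ℝ, |v| ≤ 1 ∧ ∀ u : ℝ, |u| ≤ 1 →
      Enc (mkC c0 c1) u v c := by
  obtain ⟨v, hv, h⟩ := pick _ _ (Nat.cast_nonneg _) (mid_bound c0 c1 _ h0 h1)
  refine ⟨v, hv, fun u hu => ⟨hu, hv, ?_⟩⟩
  unfold mkC
  rw [cast_sub_sub]
  refine le_trans (le_of_eq ?_) (h.trans (by norm_num))
  congr 1
  push_cast
  ring

theorem run_sound (hTH : ST_HNTH) (hBB : ST_HNBB) (t : Tr) : ∀ (l0 l1 c0 c1 : ℕ),
    run t l0 l1 c0 c1 = true → ∀ L θ : ℝ, (l0 : ℝ) ≤ L * 1099511627776 →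
    L * 1099511627776 ≤ l1 → (c0 : ℝ) ≤ (Real.cos θ + 1) * 1099511627776 →
    (Real.cos θ + 1) * 1099511627776 ≤ c1 → L < 37 / 20 → (tenH L θ).Cond := by
  induction t with
  | o =>
    intro l0 l1 c0 c1 h L θ a1 a2 a3 a4 a5
    obtain ⟨u, hu, hl⟩ := enc_mkL a1 a2
    obtain ⟨v, hv, hc⟩ := enc_mkC a3 a4
    exact enc_box hTH hBB (hl v hv) (hc u hu) a5 h
  | l a b iha ihb =>
    intro l0 l1 c0 c1 h L θ a1 a2 a3 a4 a5
    obtain ⟨p, q⟩ := and_iff h
    rcases le_total (L * 1099511627776) ((Nat.shiftRight (Nat.add l0 l1) 1 : ℕ) : ℝ) with hh | hh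
    · exact iha _ _ _ _ p L θ a1 hh a3 a4 a5
    · exact ihb _ _ _ _ q L θ hh a2 a3 a4 a5
  | c a b iha ihb =>
    intro l0 l1 c0 c1 h L θ a1 a2 a3 a4 a5
    obtain ⟨p, q⟩ := and_iff h
    rcases le_total ((Real.cos θ + 1) * 1099511627776)
      ((Nat.shiftRight (Nat.add c0 c1) 1 : ℕ) : ℝ) with hh | hh
    · exact iha _ _ _ _ p L θ a1 a2 a3 hh a5
    · exact ihb _ _ _ _ q L θ a1 a2 hh a4 a5

theorem enc_smV (hSM : ST_HNSM) (k κ : ℕ) (hk : k * κ = 4) {L θ u v : ℝ} (hu : |u| ≤ 1)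
    (hv : |v| ≤ 1) (h0 : 0 < L) (h1 : L ≤ 1 / 4) : EncV smV u v (uH k L θ) := by
  have key : ∀ a b (d : ℕ), a + b ≤ 4 → (d : ℝ) = 10996 * 2 ^ a * 23 ^ b →
      |uH k L θ a b - (if a = 0 ∧ b = 0 then 1 else 0)| * 1099511627776 ≤ d := by
    intro a b d h hd
    have h2 := hSM k κ hk L θ h0 h1 a b h
    rw [hd]
    have h3 : (0 : ℝ) ≤ 2 ^ a * 23 ^ b := by positivity
    nlinarith
  have k00 := key 0 0 10996 (by norm_num) (by norm_num)
  have k01 := key 0 1 252908 (by norm_num) (by norm_num)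
  have k02 := key 0 2 5816884 (by norm_num) (by norm_num)
  have k03 := key 0 3 133788332 (by norm_num) (by norm_num)
  have k04 := key 0 4 3077131636 (by norm_num) (by norm_num)
  have k10 := key 1 0 21992 (by norm_num) (by norm_num)
  have k11 := key 1 1 505816 (by norm_num) (by norm_num)
  have k12 := key 1 2 11633768 (by norm_num) (by norm_num)
  have k13 := key 1 3 267576664 (by norm_num) (by norm_num)
  have k20 := key 2 0 43984 (by norm_num) (by norm_num)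
  have k21 := key 2 1 1011632 (by norm_num) (by norm_num)
  have k22 := key 2 2 23267536 (by norm_num) (by norm_num)
  have k30 := key 3 0 87968 (by norm_num) (by norm_num)
  have k31 := key 3 1 2023264 (by norm_num) (by norm_num)
  have k40 := key 4 0 175936 (by norm_num) (by norm_num)
  simp only [OfNat.ofNat_ne_zero, one_ne_zero, and_false, false_and, if_false,
    sub_zero, and_self, if_true] at k00 k01 k02 k03 k04 k10 k11 k12 k13 k20 k21 k22 k30 k31 k40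
  have gen : ∀ (f : ℝ) (d : ℕ), |f| * 1099511627776 ≤ d → Enc (TM.mk 0 0 0 0 0 0 d) u v f := by
    intro f d h
    refine enc_num hu hv 0 d f ?_
    rw [Nat.cast_zero, sub_zero, abs_mul, abs_of_pos (by norm_num : (0 : ℝ) < 1099511627776)]
    exact h
  unfold smV
  refine ⟨?_, gen _ _ k01, gen _ _ k02, gen _ _ k03, gen _ _ k04, gen _ _ k10, gen _ _ k11,
    gen _ _ k12, gen _ _ k13, gen _ _ k20, gen _ _ k21, gen _ _ k22, gen _ _ k30, gen _ _ k31,
    gen _ _ k40⟩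
  refine enc_num hu hv _ _ _ ?_
  have : uH k L θ 0 0 * 1099511627776 - ((1099511627776 : ℕ) : ℝ)
      = (uH k L θ 0 0 - 1) * 1099511627776 := by push_cast; ring
  rw [this, abs_mul, abs_of_pos (by norm_num : (0 : ℝ) < 1099511627776)]
  exact k00

theorem smallTrue : boxS (mkL 0 274877906944) = true := by decide +kernel

theorem small_sound (hSM : ST_HNSM) (hBB : ST_HNBB) {L θ : ℝ} (hL0 : 0 < L) (hL : L ≤ 1 / 4) :
    (tenH L θ).Cond := by
  obtain ⟨u, hu, hl'⟩ := enc_mkL (l0 := 0) (l1 := 274877906944) (L := L)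
    (by push_cast; positivity) (by push_cast; linarith)
  have hv : |(0 : ℝ)| ≤ 1 := by norm_num
  have hl := hl' 0 hv
  have h := smallTrue
  have hL1 : L < 37 / 20 := by linarith
  generalize mkL 0 274877906944 = l at *
  unfold boxS at h
  obtain ⟨p3, h⟩ := and_iff h
  obtain ⟨p4, h⟩ := and_iff h
  obtain ⟨p5, h⟩ := and_iff h
  obtain ⟨p6, h⟩ := and_iff h
  obtain ⟨S, C, hS, hC, hSpos, b2, b3, b4, hrest⟩ := hBB L hL0 hL1
  obtain ⟨hS4pos, b2', b3', b4'⟩ := hrest _ _ _ rfl rfl rfl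
  have eS := enc_bS hl hS
  have eC := enc_bC hl hC
  have eC2 := enc_dC eC
  have eS4 := enc_mul (enc_mul eS eC) eC2
  have eC4 := enc_dC eC2
  obtain ⟨-, z2⟩ := enc_inv (enc_sq eS) p5
  obtain ⟨-, z1⟩ := enc_inv eS p3
  obtain ⟨-, y2⟩ := enc_inv (enc_sq eS4) p6
  obtain ⟨-, y1⟩ := enc_inv eS4 p4
  have f2 := enc_add (enc_nsm 5 z2) (enc_nsm 7 y2)
  have f3 := enc_add (enc_nsm 5 (enc_f3 eC z1 z2)) (enc_nsm 7 (enc_f3 eC4 y1 y2))
  have f4 := enc_add (enc_nsm 5 (enc_f4 eC z2)) (enc_nsm 7 (enc_f4 eC4 y2))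
  have h1 := enc_one hl
  refine enc_chk (r := 1) (s := 1) (θ := θ) (X := uH 1 L θ) (Y := uH 2 L θ) (Z := uH 4 L θ)
    (enc_of h1 (by norm_num)) (enc_of h1 (by norm_num))
    (enc_of f2 (by rw [b2, b2']; push_cast; ring))
    (enc_of f3 (by rw [b3, b3']; push_cast; ring))
    (enc_of f4 (by rw [b4, b4']; push_cast; ring))
    (enc_smV hSM 1 4 (by norm_num) hu hv hL0 hL) (enc_smV hSM 2 2 (by norm_num) hu hv hL0 hL)
    (enc_smV hSM 4 1 (by norm_num) hu hv hL0 hL) ?_ ?_ ?_ h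
  · intro a b _
    simp
  · intro a b _
    simp
  · intro a b _
    simp

end HN

open HN in
/-- the certificate in the charts `(τ, z)` -/
theorem st_HNUM (hTH : ST_HNTH) (hSM : ST_HNSM) (hBB : ST_HNBB) : ST_HNUM := by
  intro L θ h0 h1
  rcases le_or_gt L (1 / 4) with hL | hL
  · exact small_sound hSM hBB h0 hL
  have c0 : (((0 : ℕ)) : ℝ) ≤ (Real.cos θ + 1) * 1099511627776 := by
    have := Real.neg_one_le_cos θ
    push_cast
    nlinarith
  have c1 : (Real.cos θ + 1) * 1099511627776 ≤ ((2199023255552 : ℕ) : ℝ) := by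
    have := Real.cos_le_one θ
    push_cast
    nlinarith
  have key : ∀ (t : Tr) (l0 l1 : ℕ), run t l0 l1 0 2199023255552 = true →
      (l0 : ℝ) ≤ L * 1099511627776 → L * 1099511627776 ≤ l1 → (tenH L θ).Cond :=
    fun t l0 l1 h a b => run_sound hTH hBB t l0 l1 0 2199023255552 h L θ a b c0 c1 h1
  rcases le_total (L * 1099511627776) (343597383680 : ℕ) with h | g0
  · exact key _ _ _ run0 (by push_cast; linarith) h
  rcases le_total (L * 1099511627776) (429496729600 : ℕ) with h | g1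
  · exact key _ _ _ run1 g0 h
  rcases le_total (L * 1099511627776) (536870912000 : ℕ) with h | g2
  · exact key _ _ _ run2 g1 h
  rcases le_total (L * 1099511627776) (671088640000 : ℕ) with h | g3
  · exact key _ _ _ run3 g2 h
  rcases le_total (L * 1099511627776) (839666106368 : ℕ) with h | g4
  · exact key _ _ _ run4 g3 h
  rcases le_total (L * 1099511627776) (1110249046016 : ℕ) with h | g5
  · exact key _ _ _ run5 g4 h
  rcases le_total (L * 1099511627776) (1288490188800 : ℕ) with h | g6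
  · exact key _ _ _ run6 g5 h
  rcases le_total (L * 1099511627776) (1467805073408 : ℕ) with h | g7
  · exact key _ _ _ run7 g6 h
  rcases le_total (L * 1099511627776) (1610612736000 : ℕ) with h | g8
  · exact key _ _ _ run8 g7 h
  rcases le_total (L * 1099511627776) (1752346656768 : ℕ) with h | g9
  · exact key _ _ _ run9 g8 h
  rcases le_total (L * 1099511627776) (1889785610240 : ℕ) with h | g10
  · exact key _ _ _ run10 g9 h
  · exact key _ _ _ run11 g10 (by push_cast; linarith)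

end RicP
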