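import Pool.Agent.Helper91.Ric.FINAL
import Pool.Agent.Helper91.Ric.HGOOD
import Pool.Agent.Helper91.Ric.CL
import Pool.Agent.Helper48.Ric.NP
import Pool.Agent.Helper48.Ric.DIV
import Pool.Agent.Helper16.Ric.CUT
import Pool.Agent.Helper18.Ric.DL
import Pool.Agent.Helper18.Ric.UINV
import Pool.Agent.Helper2.Ric.DCURV
import Pool.Agent.Helper2.Ric.PHISH
import Pool.Agent.Helper2.Ric.RCOV
import Pool.Agent.Helper26.Ric.HTEN
import Pool.Agent.Helper30.RIC.REQ
import Pool.Agent.Helper33.Ric.HNBB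
import Pool.Agent.Helper33.Ric.RCLO
import Pool.Agent.Helper33.Ric.SMF
import Pool.Agent.Helper34.Ric.GINJ
import Pool.Agent.Helper34.Ric.LOGJ
import Pool.Agent.Helper34.Ric.ROT
import Pool.Agent.Helper37.Ric.BOR
import Pool.Agent.Helper37.Ric.RET
import Pool.Agent.Helper38.Ric.LV
import Pool.Agent.Helper41.Ric.GCLO
import Pool.Agent.Helper41.Ric.RLINK
import Pool.Agent.Helper44.Ric.HNSM
import Pool.Agent.Helper44.Ric.HNTH
import Pool.Agent.Helper49.Ric.DD
import Pool.Agent.Helper50.Ric.LOC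
import Pool.Agent.Helper50.Ric.SUM
import Pool.Agent.Helper53.Ric.EXT
import Pool.Agent.Helper53.Ric.GLOB
import Pool.Agent.Helper55.Ric.MAXP
import Pool.Agent.Helper57.RIC.DU
import Pool.Agent.Helper58.Ric.PIG
import Pool.Agent.Helper58.Ric.SEQ
import Pool.Agent.Helper60.Ric.GEN
import Pool.Agent.Helper63.Ric.RINJ
import Pool.Agent.Helper68.Ric.SCU
import Pool.Agent.Helper7.Ric.GREQ
import Pool.Agent.Helper7.Ric.MOD
import Pool.Agent.Helper75.Ric.CHI
import Pool.Agent.Helper75.Ric.FPHI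
import Pool.Agent.Helper76.Ric.GBI
import Pool.Agent.Helper77.Ric.FPER
import Pool.Agent.Helper78.Ric.ZJET
import Pool.Agent.Helper79.Ric.ETALE
import Pool.Agent.Helper79.Ric.GET
import Pool.Agent.Helper79.Ric.ZSM
import Pool.Agent.Helper87.Ric.TOP
import Pool.Agent.Helper88.Ric.HNUM
import Pool.Agent.Helper90.Ric.COND
import Pool.Agent.Helper90.Ric.HCURV
import Pool.Agent.Helper90.Ric.JET
import Pool.Agent.Helper95.Ric.CERTD
import Pool.Agent.Helper99.Ric.FDLIM

/-!
MP_092777_ag: assembly of all modules.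
-/

set_option autoImplicit false

namespace RicP

theorem st_ALL : FinalStatement := by
  have hGREQ := st_GREQ
  have hHT := st_HT
  have hFREE := st_FREE
  have hBOR := st_BOR
  have hDL := st_DL
  have hDU := st_DU
  have hGET := st_GET hBOR
  have hGBI := st_GBI
  have hLV := st_LV
  have hZSM := st_ZSM
  have hSMD := st_SMD
  have hSMF := st_SMF
  have hSMH := st_SMH
  have hCOND := st_COND
  have hCL := st_CL
  have hGCLO := st_GCLO
  have hDD := st_DD hHT hBOR hDL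
  have hREQ := st_REQ hGREQ hDD hBOR hDU
  have hRCLO := st_RCLO hGREQ hGCLO hDL hHT hBOR hDU
  have hRINJ := st_RINJ (st_GINJ hFREE)
  have hRCOV := st_RCOV hGREQ hBOR hDL
  have hRLINK := st_RLINK hGREQ
  have hPHISH := st_PHISH hZSM
  have hUINV := st_UINV hLV hGBI
  have hRET := st_RET hGET hGBI hDL hHT hBOR hLV hUINV st_FPER st_FPHI hPHISH hSMH hSMD
  have hHNUM := st_HNUM st_HNTH st_HNSM st_HNBB
  have hCERTH := st_CERTH st_HTEN hHNUM
  have hCUT := st_CUT (st_FDLIM hSMF) hSMF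
  have hHGOOD := st_HGOOD (st_HCURV hCOND) hCERTH hCUT hSMF
  have hDCURV := st_DCURV (st_JET hCOND) st_ROT st_LOGJ st_ZJET hZSM hSMD
  have hDGOOD := st_DGOOD hDCURV st_CERTD
  have hGOOD := st_GOOD hREQ hRCLO hRINJ hRCOV hRLINK st_TOP hRET hHGOOD hDGOOD hSMH hSMD
  have hEXT := st_EXT hGREQ hGET hGBI hDL hDU hDD hBOR
  have hGLOB := st_GLOB (st_LOC hCL)
  have hSUM := st_SUM hGLOB st_SEQ (st_SCU hCL) hBOR
  have hNP := st_NP hEXT (st_GEN hFREE) (st_DIV hGREQ hGET) hSUM st_PIG st_MAXP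
  exact st_FINAL st_ETALE (st_MOD st_CHI) hGOOD hNP

end RicP
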