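import Mathlib

/-!
MP_092777_ag: a compact non-projective Kähler surface with negative orthogonal Ricci curvature.
Definitions of the final statement and of the construction (blueprint /team-store/ric_blueprint.md).
-/

set_option autoImplicit false

open scoped ContDiff Manifold Topology MatrixGroups LinearAlgebra.Projectivization
open Complex

noncomputable section

namespace RicP

/-! ### Final statement -/

/-- the model space of complex surfaces -/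
abbrev E : Type := ℂ × ℂ

/-- the derivative `∂_v f` of `f` at `p`, for a constant vector `v` (complex linear in `v`) -/
def dz (v : E) (f : E → ℂ) (p : E) : ℂ :=
  (fderiv ℝ f p v - I * fderiv ℝ f p (I • v)) / 2

/-- the derivative `∂̄_v f` of `f` at `p`, for a constant vector `v` (conjugate linear in `v`) -/
def dzb (v : E) (f : E → ℂ) (p : E) : ℂ :=
  (fderiv ℝ f p v + I * fderiv ℝ f p (I • v)) / 2

/-- a real function as a complex valued one -/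
def toC (φ : E → ℝ) : E → ℂ := fun x => (φ x : ℂ)

/-- the Levi form `∂_v ∂̄_w φ` of `φ` at `p`, i.e. the Hermitian form of the Kähler metric with
local potential `φ` -/
def levi (φ : E → ℝ) (p v w : E) : ℂ := dz v (dzb w (toC φ)) p

/-- `(e₁, e₂)` is a unitary frame at `p` of the metric with potential `φ` -/
def UnitaryFrame (φ : E → ℝ) (p e₁ e₂ : E) : Prop :=
  levi φ p e₁ e₁ = 1 ∧ levi φ p e₂ e₂ = 1 ∧ levi φ p e₁ e₂ = 0

/-- the curvature component `R(e₁, ē₁, e₂, ē₂)` of the metric with potential `φ` at `p`, for a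
unitary frame `(e₁, e₂)` at `p`:
`R_{1 1̄ 2 2̄} = - ∂_1 ∂̄_1 ∂_2 ∂̄_2 φ + ∑_a |∂_1 ∂_2 ∂̄_a φ|²`.
In dimension two this is `Ric^⊥(e₁, ē₁)`. -/
def orthBisec (φ : E → ℝ) (p e₁ e₂ : E) : ℝ :=
  - (dz e₁ (dzb e₁ (dz e₂ (dzb e₂ (toC φ)))) p).re
    + ‖dz e₁ (dz e₂ (dzb e₁ (toC φ))) p‖ ^ 2 + ‖dz e₁ (dz e₂ (dzb e₂ (toC φ))) p‖ ^ 2

/-- A Kähler metric on a complex surface, given by local potentials whose Levi forms are positive
definite and agree on overlaps. -/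
structure KahlerStructure (X : Type) [TopologicalSpace X] [ChartedSpace E X] where
  charts : Set (OpenPartialHomeomorph X E)
  pot : OpenPartialHomeomorph X E → E → ℝ
  mem_atlas : ∀ e ∈ charts, e ∈ IsManifold.maximalAtlas 𝓘(ℂ, E) ω X
  cover : ∀ x : X, ∃ e ∈ charts, x ∈ e.source
  smooth : ∀ e ∈ charts, ContDiffOn ℝ ∞ (pot e) e.target
  pos : ∀ e ∈ charts, ∀ p ∈ e.target, ∀ v : E, v ≠ 0 → 0 < (levi (pot e) p v v).re
  compat : ∀ e ∈ charts, ∀ e' ∈ charts, ∀ x ∈ e.source ∩ e'.source, ∀ v w : E,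
    levi (pot e) (e x) v w =
      levi (pot e') (e' x) (fderiv ℂ (e' ∘ e.symm) (e x) v) (fderiv ℂ (e' ∘ e.symm) (e x) w)

/-- negative orthogonal Ricci curvature -/
def KahlerStructure.NegRicPerp {X : Type} [TopologicalSpace X] [ChartedSpace E X]
    (K : KahlerStructure X) : Prop :=
  ∀ e ∈ K.charts, ∀ p ∈ e.target, ∀ e₁ e₂ : E,
    UnitaryFrame (K.pot e) p e₁ e₂ → orthBisec (K.pot e) p e₁ e₂ < 0

/-- `f : X → ℙⁿ` is holomorphic -/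
def HolToProj {X : Type} [TopologicalSpace X] [ChartedSpace E X] (n : ℕ)
    (f : X → ℙ ℂ (Fin (n + 1) → ℂ)) : Prop :=
  ∀ x : X, ∃ e ∈ IsManifold.maximalAtlas 𝓘(ℂ, E) ω X, x ∈ e.source ∧
    ∃ F : E → (Fin (n + 1) → ℂ), DifferentiableOn ℂ F e.target ∧
      ∀ y ∈ e.source, ∃ h : F (e y) ≠ 0, f y = Projectivization.mk ℂ (F (e y)) h

/-- `X` admits an injective holomorphic map to some projective space (this is implied by the
existence of a holomorphic embedding) -/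
def InjectsIntoProj (X : Type) [TopologicalSpace X] [ChartedSpace E X] : Prop :=
  ∃ (n : ℕ) (f : X → ℙ ℂ (Fin (n + 1) → ℂ)), Function.Injective f ∧ HolToProj n f

/-- the final theorem -/
def FinalStatement : Prop :=
  ∃ (X : Type) (_ : TopologicalSpace X) (_ : ChartedSpace E X),
    IsManifold 𝓘(ℂ, E) ω X ∧ CompactSpace X ∧ T2Space X ∧ ConnectedSpace X ∧
    (∃ K : KahlerStructure X, K.NegRicPerp) ∧ ¬ InjectsIntoProj X

/-! ### Étale presentations -/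

/-- positive Levi form and negative orthogonal bisectional curvature on `U` -/
def GoodPot (φ : E → ℝ) (U : Set E) : Prop :=
  ∀ p ∈ U, (∀ v : E, v ≠ 0 → 0 < (levi φ p v v).re) ∧
    ∀ e₁ e₂ : E, UnitaryFrame φ p e₁ e₂ → orthBisec φ p e₁ e₂ < 0

/-- presentation of a surface as quotient of the disjoint union of the `U i` by the relation `R` -/
structure EtaleData where
  ι : Type
  U : ι → Set E
  K : ι → Set E
  R : ι → E → ι → E → Prop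
  pot : ι → E → ℝ

structure EtaleData.Good (D : EtaleData) : Prop where
  fin : Finite D.ι
  nonempty : Nonempty D.ι
  isOpen : ∀ i, IsOpen (D.U i)
  conn : ∀ i, IsConnected (D.U i)
  smooth : ∀ i, ContDiffOn ℝ ∞ (D.pot i) (D.U i)
  good : ∀ i, GoodPot (D.pot i) (D.U i)
  refl : ∀ i, ∀ x ∈ D.U i, D.R i x i x
  symm : ∀ i j, ∀ x ∈ D.U i, ∀ y ∈ D.U j, D.R i x j y → D.R j y i x
  trans : ∀ i j k, ∀ x ∈ D.U i, ∀ y ∈ D.U j, ∀ z ∈ D.U k,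
    D.R i x j y → D.R j y k z → D.R i x k z
  etale : ∀ i j, ∀ x ∈ D.U i, ∀ y ∈ D.U j, D.R i x j y →
    ∃ h : OpenPartialHomeomorph E E, x ∈ h.source ∧ h x = y ∧ h.source ⊆ D.U i ∧
      h.target ⊆ D.U j ∧ ContDiffOn ℂ ω h h.source ∧ ContDiffOn ℂ ω h.symm h.target ∧
      (∀ x' ∈ h.source, D.R i x' j (h x')) ∧
      (∀ x' ∈ h.source, ∀ v w : E, levi (D.pot i) x' v w =
        levi (D.pot j) (h x') (fderiv ℂ h x' v) (fderiv ℂ h x' w))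
  inj : ∀ i, ∀ x ∈ D.U i, ∃ V ∈ 𝓝 x, ∀ y ∈ V ∩ D.U i, ∀ z ∈ V ∩ D.U i, D.R i y i z → y = z
  closed : ∀ i j, ∀ x ∈ D.U i, ∀ y ∈ D.U j,
    (x, y) ∈ closure {z : E × E | z.1 ∈ D.U i ∧ z.2 ∈ D.U j ∧ D.R i z.1 j z.2} → D.R i x j y
  compact : ∀ i, IsCompact (D.K i)
  sub : ∀ i, D.K i ⊆ D.U i
  cover : ∀ i, ∀ x ∈ D.U i, ∃ j, ∃ y ∈ D.K j, D.R i x j y
  link : ∀ i j, Relation.ReflTransGen (fun i j => ∃ x ∈ D.U i, ∃ y ∈ D.U j, D.R i x j y) i j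

/-! ### Modular data -/

/-- Möbius action -/
def mob (γ : SL(2, ℤ)) (τ : ℂ) : ℂ :=
  (((γ 0 0 : ℤ) : ℂ) * τ + ((γ 0 1 : ℤ) : ℂ)) / (((γ 1 0 : ℤ) : ℂ) * τ + ((γ 1 1 : ℤ) : ℂ))

/-- automorphy factor -/
def jj (γ : SL(2, ℤ)) (τ : ℂ) : ℂ := ((γ 1 0 : ℤ) : ℂ) * τ + ((γ 1 1 : ℤ) : ℂ)

/-- A nowhere vanishing weight 3 form `g` on `SL₂(ℤ)` with character `χ` of order dividing 4
(`g = η⁶`) and its Eichler integral `(F₁, F₂)`, `F₁' = g`, `F₂' = - τ g`. -/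
structure ModData where
  χ : SL(2, ℤ) →* ℂˣ
  g : ℂ → ℂ
  F₁ : ℂ → ℂ
  F₂ : ℂ → ℂ
  V₁ : SL(2, ℤ) → ℂ
  V₂ : SL(2, ℤ) → ℂ
  χ_pow : ∀ γ, χ γ ^ 4 = 1
  χ_T : ((χ ModularGroup.T : ℂˣ) : ℂ) = I
  g_ne : ∀ τ : ℂ, 0 < τ.im → g τ ≠ 0
  hF₁ : ∀ τ : ℂ, 0 < τ.im → HasDerivAt F₁ (g τ) τ
  hF₂ : ∀ τ : ℂ, 0 < τ.im → HasDerivAt F₂ (-(τ * g τ)) τ
  period₁ : ∀ γ, ∀ τ : ℂ, 0 < τ.im →
    F₁ (mob γ τ) * ((γ 0 0 : ℤ) : ℂ) + F₂ (mob γ τ) * ((γ 1 0 : ℤ) : ℂ) = χ γ * F₁ τ + V₁ γ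
  period₂ : ∀ γ, ∀ τ : ℂ, 0 < τ.im →
    F₁ (mob γ τ) * ((γ 0 1 : ℤ) : ℂ) + F₂ (mob γ τ) * ((γ 1 1 : ℤ) : ℂ) = χ γ * F₂ τ + V₂ γ
  decay : ∃ C : ℝ, ∀ τ : ℂ, 1 / 2 ≤ τ.im → |τ.re| ≤ 1 →
    ‖F₁ τ‖ ≤ C * Real.exp (-τ.im) ∧ ‖F₂ τ‖ ≤ C * Real.exp (-τ.im)

variable (M : ModData) (N : ℕ)

/-- `γ ↦ (γ mod N, χ γ)` -/
def hN : SL(2, ℤ) →* SL(2, ZMod N) × ℂˣ :=
  (Matrix.SpecialLinearGroup.map (Int.castRingHom (ZMod N))).prod M.χ

/-- the finite group `Q = SL₂(ℤ)/Γ` -/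
abbrev QN : Type := (hN M N).range

/-- `t Re(ζ (F₁, F₂)) · (τ, 1)` -/
def sF (t : ℝ) (ζ τ : ℂ) : ℂ :=
  (t : ℂ) * ((((ζ * M.F₁ τ).re : ℝ) : ℂ) * τ + (((ζ * M.F₂ τ).re : ℝ) : ℂ))

variable {N}

/-- the component `ζ` of an element of `Q` -/
def zet (q : QN M N) : ℂ := ((q : SL(2, ZMod N) × ℂˣ).2 : ℂ)

/-- the relation on `Q × ℍ × ℂ` whose quotient is the open part of the surface `X_t` -/
def GR (t : ℝ) (q q' : QN M N) (x x' : E) : Prop :=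
  ∃ (γ : SL(2, ℤ)) (m n : ℤ),
    (q : SL(2, ZMod N) × ℂˣ) = (q' : SL(2, ZMod N) × ℂˣ) * hN M N γ ∧ x'.1 = mob γ x.1 ∧
    (x'.2 - sF M t (zet M q') x'.1) * jj γ x.1
      = x.2 - sF M t (zet M q) x.1 + (m : ℂ) * x.1 + (n : ℂ)

/-- upper triangular matrices `± T^j` -/
def borel : Subgroup SL(2, ℤ) where
  carrier := {γ | γ 1 0 = 0}
  one_mem' := by simp
  mul_mem' := by
    intro a b ha hb
    simp only [Set.mem_setOf_eq] at ha hb ⊢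
    simp [Matrix.SpecialLinearGroup.coe_mul, Matrix.mul_apply, Fin.sum_univ_two, ha, hb]
  inv_mem' := by
    intro a ha
    simp only [Set.mem_setOf_eq] at ha ⊢
    simp [Matrix.SpecialLinearGroup.coe_inv, Matrix.adjugate_fin_two, ha]

variable (N)

/-- image of the upper triangular matrices in `Q` -/
def HB : Subgroup (QN M N) := borel.map (hN M N).rangeRestrict

/-- the cusps -/
abbrev Cusp : Type := QN M N ⧸ HB M N

variable {N}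

/-- the chosen representative of a cusp -/
def cout (c : Cusp M N) : QN M N := Quotient.out c

/-- `(τ₀, z₀)` represents the point `p = (X, Y)`, `X Y ≠ 0`, of the `k`-th node chart:
`exp(2πi τ₀/N) = X Y`, `exp(2πi z₀) = Y (X Y)^k`. -/
def D0 (k : ZMod N) (p x₀ : E) : Prop :=
  0 < x₀.1.im ∧ Complex.exp (2 * Real.pi * I * x₀.1 / N) = p.1 * p.2 ∧
    Complex.exp (2 * Real.pi * I * x₀.2) = p.2 * (p.1 * p.2) ^ k.val

/-- relation between the node charts at one cusp -/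
def RDD (k k' : ZMod N) (p p' : E) : Prop :=
  (k = k' ∧ p = p') ∨ (k = k' + 1 ∧ p'.1 * p.2 = 1 ∧ p'.2 = p.1 * p.2 ^ 2) ∨
    (k' = k + 1 ∧ p.1 * p'.2 = 1 ∧ p'.1 = p.1 ^ 2 * p.2)

variable (N)

/-- index set of the charts -/
abbrev Idx : Type := QN M N ⊕ (Cusp M N × ZMod N)

variable {N}

/-- the relation defining `X_t` -/
def ricR (t : ℝ) : Idx M N → E → Idx M N → E → Prop
  | Sum.inl q, x, Sum.inl q', x' => GR M t q q' x x'
  | Sum.inl q, x, Sum.inr (c, k), p => ∃ x₀, D0 k p x₀ ∧ GR M t q (cout M c) x x₀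
  | Sum.inr (c, k), p, Sum.inl q, x => ∃ x₀, D0 k p x₀ ∧ GR M t q (cout M c) x x₀
  | Sum.inr (c, k), p, Sum.inr (c', k'), p' => c = c' ∧ RDD k k' p p'

/-! ### Domains -/

def UH (N : ℕ) : Set E := {x | 4 / 5 < x.1.im ∧ 4 * Real.pi * x.1.im / N < 37 / 20}
def UD : Set E := {p | ‖p.1‖ < 65 / 64 ∧ ‖p.2‖ < 65 / 64 ∧ ‖p.1 * p.2‖ < 2 / 5}
def KH (N : ℕ) : Set E :=
  {x | |x.1.re| ≤ 1 / 2 ∧ 17 / 20 ≤ x.1.im ∧ 4 * Real.pi * x.1.im / N ≤ 46 / 25 ∧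
    ∃ α β : ℝ, 0 ≤ α ∧ α ≤ 1 ∧ 0 ≤ β ∧ β ≤ 1 ∧ x.2 = (α : ℂ) * x.1 + (β : ℂ)}
def KD : Set E := {p | ‖p.1‖ ≤ 1 ∧ ‖p.2‖ ≤ 1 ∧ ‖p.1 * p.2‖ ≤ 399 / 1000}

/-! ### Potentials -/

/-- `∑_m exp(-2π²m²/(kL)) cos(2πm(T/L - 1/2))` -/
def thd (k : ℕ) (p : ℝ × ℝ) : ℝ :=
  ∑' m : ℤ, Real.exp (-(2 * Real.pi ^ 2 * (m : ℝ) ^ 2) / (k * p.1)) *
    Real.cos (2 * Real.pi * m * (p.2 / p.1 - 1 / 2))

/-- `log (sinh(jL/2)/(jL/2))` -/
def shb (j : ℕ) (p : ℝ × ℝ) : ℝ := Real.log (Real.sinh (j * p.1 / 2) / (j * p.1 / 2))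

/-- semi-flat potential `28 T²/L - 23 log L` -/
def FU (p : ℝ × ℝ) : ℝ := 28 * p.2 ^ 2 / p.1 - 23 * Real.log p.1

/-- difference of the full potential and `FU` -/
def FD (p : ℝ × ℝ) : ℝ :=
  4 * Real.log (thd 1 p) + 10 * Real.log (thd 2 p) + 8 * Real.log (thd 4 p)
    - 5 * shb 1 p - 7 * shb 4 p

/-- the potential with cut-off: `FU` for `L ≤ ε`, `FU + FD` for `L ≥ 2ε` -/
def Feps (ε : ℝ) (p : ℝ × ℝ) : ℝ := FU p + Real.smoothTransition (p.1 / ε - 1) * FD p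

/-- the potential in the charts `(τ, z)`: `L = 4π Im τ / N`, `T = 4π Im z` -/
def potH (N : ℕ) (ε : ℝ) (x : E) : ℝ :=
  Feps ε (4 * Real.pi * x.1.im / N, 4 * Real.pi * x.2.im)

/-- `∑_n |X|^{k n (n+1)} |Y|^{k n (n-1)}` -/
def Zk (k : ℕ) (p : E) : ℝ :=
  ∑' n : ℤ, ‖p.1‖ ^ (k * (n * (n + 1)).toNat) * ‖p.2‖ ^ (k * (n * (n - 1)).toNat)

/-- the potential in the node charts -/
def potD (p : E) : ℝ :=
  4 * Real.log (Zk 1 p) + 10 * Real.log (Zk 2 p) + 8 * Real.log (Zk 4 p)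
    - 5 * Real.log (1 - ‖p.1 * p.2‖ ^ 2) - 7 * Real.log (1 - ‖p.1 * p.2‖ ^ 8)

/-- the étale presentation of the surface `X_t` -/
def ricData (M : ModData) (N : ℕ) (ε t : ℝ) : EtaleData where
  ι := Idx M N
  U := fun i => match i with
    | Sum.inl _ => UH N
    | Sum.inr _ => UD
  K := fun i => match i with
    | Sum.inl _ => KH N
    | Sum.inr _ => KD
  R := ricR M t
  pot := fun i => match i with
    | Sum.inl _ => potH N ε
    | Sum.inr _ => potD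

end RicP
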