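import Pool.Agent.Helper88.Ric.TM

/-!
MP_092777_ag: the program of the certificate HNUM (evaluated by the kernel).
-/

set_option autoImplicit false

namespace RicP

open TM

/-- `(a,b)`-indexed values -/
structure V15 where
  x00 : TM
  x01 : TM
  x02 : TM
  x03 : TM
  x04 : TM
  x10 : TM
  x11 : TM
  x12 : TM
  x13 : TM
  x20 : TM
  x21 : TM
  x22 : TM
  x30 : TM
  x31 : TM
  x40 : TM

/-- cumulants, or tensor components -/
structure K12 where
  k20 : TM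
  k11 : TM
  k02 : TM
  k30 : TM
  k21 : TM
  k12 : TM
  k03 : TM
  k40 : TM
  k31 : TM
  k22 : TM
  k13 : TM
  k04 : TM

namespace HN

def one : TM := TM.mk 1099511627776 0 0 0 0 0 0

def add2 (x y : TM) : TM := add x y

/-- the polynomials `PL a b`, from the powers `y, y², y³, y⁴` -/
def p01 (y1 : TM) : TM := y1
def p11 (y1 : TM) : TM := sub y1 one
def p21 (y1 : TM) : TM := sub y1 (nsm 2 one)
def p31 (y1 : TM) : TM := sub y1 (nsm 3 one)
def p02 (y1 y2 : TM) : TM := sub y2 (nsm 2 y1)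
def p12 (y1 y2 : TM) : TM := sub (add y2 (nsm 2 one)) (nsm 4 y1)
def p22 (y1 y2 : TM) : TM := sub (add y2 (nsm 6 one)) (nsm 6 y1)
def p03 (y1 y2 y3 : TM) : TM := sub (add y3 (nsm 6 y1)) (nsm 6 y2)
def p13 (y1 y2 y3 : TM) : TM := sub (add y3 (nsm 18 y1)) (add (nsm 9 y2) (nsm 6 one))
def p04 (y1 y2 y3 y4 : TM) : TM := sub (add y4 (nsm 36 y2)) (add (nsm 12 y3) (nsm 24 y1))

/-- harmonics: `eC = 2 E C`, `eU = 2 E U` -/
def harm (m : Nat) (y1 y2 y3 y4 eC eU : TM) : V15 :=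
  V15.mk eC (mul eC (p01 y1)) (mul eC (p02 y1 y2)) (mul eC (p03 y1 y2 y3))
    (mul eC (p04 y1 y2 y3 y4))
    (neg (nsm m eU)) (neg (nsm m (mul eU (p11 y1)))) (neg (nsm m (mul eU (p12 y1 y2))))
    (neg (nsm m (mul eU (p13 y1 y2 y3))))
    (neg (nsm (m * m) eC)) (neg (nsm (m * m) (mul eC (p21 y1))))
    (neg (nsm (m * m) (mul eC (p22 y1 y2))))
    (nsm (m * m * m) eU) (nsm (m * m * m) (mul eU (p31 y1)))
    (nsm (m * m * m * m) eC)

def vadd (x y : V15) : V15 :=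
  V15.mk (fat (add (add x.x00 y.x00) one) 84) (fat (add x.x01 y.x01) 2268)
    (fat (add x.x02 y.x02) 61236)
    (fat (add x.x03 y.x03) 1653372) (fat (add x.x04 y.x04) 44641044)
    (fat (add x.x10 y.x10) 756) (fat (add x.x11 y.x11) 20412) (fat (add x.x12 y.x12) 551124)
    (fat (add x.x13 y.x13) 14880348)
    (fat (add x.x20 y.x20) 756) (fat (add x.x21 y.x21) 20412) (fat (add x.x22 y.x22) 551124)
    (fat (add x.x30 y.x30) 6804) (fat (add x.x31 y.x31) 183708) (fat (add x.x40 y.x40) 6804)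

/-- enclosures of the reduced theta moments; `κ = 4/k`, `c1 = cos θ`, `c2 = cos 2θ`,
`u2 = 2 cos θ`, `e1 = exp(-κ w)`, `e2 = exp(-4 κ w)` -/
def theta (κ : Nat) (c1 c2 u2 w w2 w3 w4 e1 e2 : TM) : V15 :=
  vadd (harm 1 (nsm κ w) (nsm (κ * κ) w2) (nsm (κ * κ * κ) w3) (nsm (κ * κ * κ * κ) w4)
      (nsm 2 (mul e1 c1)) (nsm 2 e1))
    (harm 2 (nsm (4 * κ) w) (nsm (16 * (κ * κ)) w2) (nsm (64 * (κ * κ * κ)) w3)
      (nsm (256 * (κ * κ * κ * κ)) w4) (nsm 2 (mul e2 c2)) (nsm 2 (mul e2 u2)))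

/-- division by the first component -/
def nrm (z : TM) (x : V15) : V15 :=
  V15.mk one (mul z x.x01) (mul z x.x02) (mul z x.x03) (mul z x.x04) (mul z x.x10)
    (mul z x.x11) (mul z x.x12) (mul z x.x13) (mul z x.x20) (mul z x.x21) (mul z x.x22)
    (mul z x.x30) (mul z x.x31) (mul z x.x40)

/-- second cumulants -/
def c20 (s2 m10 m20 : TM) : TM := sub m20 (mul (sq m10) s2)
def c11 (m10 m01 m11 : TM) : TM := sub m11 (mul m10 m01)
def c02 (m01 m02 : TM) : TM := sub m02 (sq m01)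
def c30 (m10 m20 m30 k20 : TM) : TM := sub m30 (mul m10 (add m20 (nsm 2 k20)))
def c21 (m01 m20 m21 m10s k11 : TM) : TM := sub m21 (add (mul m01 m20) (nsm 2 (mul k11 m10s)))
def c12 (m10 m01 m02 m12 k11 : TM) : TM := sub m12 (add (mul m10 m02) (nsm 2 (mul k11 m01)))
def c03 (m01 m02 m03 k02 : TM) : TM := sub m03 (mul m01 (add m02 (nsm 2 k02)))
def c40 (m20 m30 m40 m10s k20 k30 : TM) : TM :=
  sub m40 (add (mul m10s (add m30 (nsm 3 k30))) (nsm 3 (mul k20 m20)))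
def c31 (m01 m10 m20 m30 m31 k11 k21 : TM) : TM :=
  sub m31 (add (mul m01 m30) (nsm 3 (add (mul k11 m20) (mul k21 m10))))
def c22 (s2 m01 m20 m11 m21 m22 m10s k11 k02 k21 k12 : TM) : TM :=
  sub m22 (add (mul m01 (add m21 k21)) (add (mul k02 m20)
    (nsm 2 (add (mul (mul k11 m11) s2) (mul k12 m10s)))))
def c13 (m10 m01 m02 m03 m13 k11 k12 : TM) : TM :=
  sub m13 (add (mul m10 m03) (nsm 3 (add (mul k11 m02) (mul k12 m01))))
def c04 (m01 m02 m03 m04 k02 k03 : TM) : TM :=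
  sub m04 (add (mul m01 (add m03 (nsm 3 k03))) (nsm 3 (mul k02 m02)))

/-- cumulants from the normalised moments; `s2 = sin² θ` -/
def cum (s2 : TM) (m : V15) : K12 :=
  let m10s := mul m.x10 s2
  let k20 := c20 s2 m.x10 m.x20
  let k11 := c11 m.x10 m.x01 m.x11
  let k02 := c02 m.x01 m.x02
  let k30 := c30 m.x10 m.x20 m.x30 k20
  let k21 := c21 m.x01 m.x20 m.x21 m10s k11
  let k12 := c12 m.x10 m.x01 m.x02 m.x12 k11
  let k03 := c03 m.x01 m.x02 m.x03 k02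
  K12.mk k20 k11 k02 k30 k21 k12 k03
    (c40 m.x20 m.x30 m.x40 m10s k20 k30)
    (c31 m.x01 m.x10 m.x20 m.x30 m.x31 k11 k21)
    (c22 s2 m.x01 m.x20 m.x11 m.x21 m.x22 m10s k11 k02 k21 k12)
    (c13 m.x10 m.x01 m.x02 m.x03 m.x13 k11 k12)
    (c04 m.x01 m.x02 m.x03 m.x04 k02 k03)

/-- `4 x + 10 y + 8 z` -/
def wsum (x y z : TM) : TM := add (nsm 4 x) (add (nsm 10 y) (nsm 8 z))

/-- the tensors (reduced) -/
def tens (mu b2 b3 b4 : TM) (x y z : K12) : K12 :=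
  K12.mk (add one (mul mu (wsum x.k20 y.k20 z.k20)))
    (wsum x.k11 y.k11 z.k11)
    (add (add (nsm 11 one) b2) (wsum x.k02 y.k02 z.k02))
    (mul mu (wsum x.k30 y.k30 z.k30))
    (sub (mul mu (wsum x.k21 y.k21 z.k21)) one)
    (wsum x.k12 y.k12 z.k12)
    (sub (wsum x.k03 y.k03 z.k03) (add (nsm 22 one) b3))
    (mul (sq mu) (wsum x.k40 y.k40 z.k40))
    (mul mu (wsum x.k31 y.k31 z.k31))
    (add (nsm 2 one) (mul mu (wsum x.k22 y.k22 z.k22)))
    (wsum x.k13 y.k13 z.k13)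
    (add (add (nsm 66 one) b4) (wsum x.k04 y.k04 z.k04))

/-- determinant -/
def det (σ : TM) (t : K12) : TM := sub (mul t.k20 t.k02) (mul σ (sq t.k11))

/-- conditions; `σ = μ sin² θ` -/
def cK00 (σ det : TM) (t : K12) : TM :=
  sub (mul t.k40 det) (add (mul (mul σ (sq t.k30)) t.k02)
    (sub (mul (sq t.k21) t.k20) (nsm 2 (mul (mul σ t.k11) (mul t.k30 t.k21)))))
def cK01 (σ det : TM) (t : K12) : TM :=
  sub (mul t.k31 det) (sub (mul t.k21 (add (mul t.k30 t.k02) (mul t.k12 t.k20)))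
    (mul t.k11 (add (mul σ (mul t.k30 t.k12)) (sq t.k21))))
def cK02 (σ det : TM) (t : K12) : TM :=
  sub (mul t.k22 det) (sub (add (mul (mul σ (mul t.k30 t.k12)) t.k02)
      (mul (mul t.k21 t.k03) t.k20))
    (mul (mul σ t.k11) (add (mul t.k30 t.k03) (mul t.k21 t.k12))))
def cK11 (σ det : TM) (t : K12) : TM :=
  sub (mul t.k22 det) (add (mul (sq t.k21) t.k02)
    (sub (mul (mul σ (sq t.k12)) t.k20) (nsm 2 (mul (mul σ t.k11) (mul t.k21 t.k12)))))
def cK12 (σ det : TM) (t : K12) : TM :=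
  sub (mul t.k13 det) (sub (mul t.k12 (add (mul t.k21 t.k02) (mul t.k03 t.k20)))
    (mul t.k11 (add (mul t.k21 t.k03) (mul σ (sq t.k12)))))
def cK22 (σ det : TM) (t : K12) : TM :=
  sub (mul t.k04 det) (add (mul (mul σ (sq t.k12)) t.k02)
    (sub (mul (sq t.k03) t.k20) (nsm 2 (mul (mul σ t.k11) (mul t.k12 t.k03)))))

def cDD (a c K00 K02 K22 : TM) : TM :=
  add (mul (sq c) K00) (sub (mul (sq a) K22) (nsm 2 (mul (mul a c) K02)))
def cOO (σ a b K00 K01 K11 : TM) : TM :=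
  add (mul σ (sub (mul (sq b) K00) (nsm 2 (mul (mul a b) K01)))) (mul (sq a) K11)
def cDO (a b c K00 K01 K02 K12 : TM) : TM :=
  add (mul b (sub (mul c K00) (mul a K02))) (mul a (sub (mul a K12) (mul c K01)))
def cII (σ a b c K00 K01 K02 K11 K12 K22 : TM) : TM :=
  add (add (mul (sq c) K00) (add (mul (sq a) K22) (nsm 2 (mul (mul a c) K02))))
    (nsm 4 (mul (mul σ b) (sub (mul b K11) (add (mul c K01) (mul a K12)))))

/-- all conditions -/
def cond (σ : TM) (t : K12) : Bool :=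
  let d := det σ t
  let K00 := cK00 σ d t
  let K01 := cK01 σ d t
  let K02 := cK02 σ d t
  let K11 := cK11 σ d t
  let K12 := cK12 σ d t
  let K22 := cK22 σ d t
  let DD := cDD t.k20 t.k02 K00 K02 K22
  let OO := cOO σ t.k20 t.k11 K00 K01 K11
  let DO := cDO t.k20 t.k11 t.k02 K00 K01 K02 K12
  and (posB t.k20) (and (posB d) (and (posB DD) (and (posB (sub (mul DD OO) (mul σ (sq DO))))
    (posB (cII σ t.k20 t.k11 t.k02 K00 K01 K02 K11 K12 K22)))))

/-- the whole check, from the theta moments -/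
def chk (s2 mu b2 b3 b4 : TM) (x y z : V15) : Bool :=
  and (posB x.x00) (and (posB y.x00) (and (posB z.x00)
    (cond (mul mu s2) (tens mu b2 b3 b4 (cum s2 (nrm (inv x.x00) x)) (cum s2 (nrm (inv y.x00) y))
      (cum s2 (nrm (inv z.x00) z))))))

/-! base part -/

def tSp (t : TM) : TM :=
  add one (mul t (add (TM.mk 183251937963 0 0 0 0 0 1) (mul t (add (TM.mk 9162596898 0 0 0 0 0 1)
    (mul t (add (TM.mk 218157069 0 0 0 0 0 1) (mul t (add (TM.mk 3029959 0 0 0 0 0 1)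
      (mul t (TM.mk 27545 0 0 0 0 0 1))))))))))
def tCp (t : TM) : TM :=
  add one (mul t (add (TM.mk 549755813888 0 0 0 0 0 0) (mul t (add (TM.mk 45812984491 0 0 0 0 0 1)
    (mul t (add (TM.mk 1527099483 0 0 0 0 0 1) (mul t (add (TM.mk 27269634 0 0 0 0 0 1)
      (mul t (TM.mk 302996 0 0 0 0 0 1))))))))))

/-- `(S, C)` at `L/2` and `2L` -/
def bS (l : TM) : TM := fat (tSp (mul (sq l) (TM.mk 274877906944 0 0 0 0 0 0))) 80
def bC (l : TM) : TM := fat (tCp (mul (sq l) (TM.mk 274877906944 0 0 0 0 0 0))) 1000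
def dC (C : TM) : TM := sub (nsm 2 (sq C)) one

/-- `bb2, bb3, bb4` from `z2 = 1/S²`, `z1 = 1/S` -/
def f3 (C z1 z2 : TM) : TM := nsm 2 (mul C (mul z2 z1))
def f4 (C z2 : TM) : TM := nsm 2 (mul (add (nsm 2 (sq C)) one) (sq z2))

/-- `exp(-w)` -/
def ex0 (x0 : Nat) : TM :=
  let z := TM.mk (Nat.shiftRight x0 8) 0 0 0 0 0 1
  let p := fat (sub one (mul z (sub one (mul z (sub (TM.mk 549755813888 0 0 0 0 0 0)
    (mul z (sub (TM.mk 183251937963 0 0 0 0 0 1) (mul z (sub (TM.mk 45812984491 0 0 0 0 0 1)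
    (mul z (sub (TM.mk 9162596898 0 0 0 0 0 1) (mul z (TM.mk 1527099483 0 0 0 0 0 1))))))))))))) 10
  sq (sq (sq (sq (sq (sq (sq (sq p)))))))

/-- `6 exp(-d)` for small `d` -/
def ex1 (d : TM) : TM :=
  let d2 := sq d
  fat (sub (add (nsm 6 one) (nsm 3 d2)) (add (nsm 6 d) (mul d d2)))
    (Nat.add (Nat.shiftRight (Nat.mul 5 (Nat.mul (Nat.mul (rad d) (rad d)) (Nat.mul (rad d) (rad d))))
      124) 1)

def exw (w : TM) : TM :=
  mul (mul (ex0 w.cp) (TM.mk 183251937963 0 0 0 0 0 1)) (ex1 (TM.mk 0 0 w.ap w.an w.bp w.bn w.e))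

/-- the check for one box: `l = L`, `c = cos θ` -/
def box (l c : TM) : Bool :=
  let li := inv l
  let w := mul (TM.mk 5425872400273 0 0 0 0 0 1) li
  let mu := mul (TM.mk 775124628610 0 0 0 0 0 1) li
  let w2 := sq w
  let w3 := mul w2 w
  let w4 := sq w2
  let q1 := exw w
  let q2 := sq q1
  let q4 := sq q2
  let q8 := sq q4
  let q16 := sq q8
  let u2 := nsm 2 c
  let cc := sq c
  let c2 := sub (nsm 2 cc) one
  let s2 := sub one cc
  let S := bS l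
  let C := bC l
  let C2 := dC C
  let S4 := mul (mul S C) C2
  let C4 := dC C2
  let z2 := inv (sq S)
  let z1 := inv S
  let y2 := inv (sq S4)
  let y1 := inv S4
  let b2 := add (nsm 5 z2) (nsm 7 y2)
  let b3 := add (nsm 5 (f3 C z1 z2)) (nsm 7 (f3 C4 y1 y2))
  let b4 := add (nsm 5 (f4 C z2)) (nsm 7 (f4 C4 y2))
  and (posB l) (and (Nat.beq w.cn 0) (and (and (Nat.ble (rad w) 1099511627776)
    (Nat.ble w.cp 23089744183296))
   (and (posB S) (and (posB S4) (and (posB (sq S)) (and (posB (sq S4))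
   (chk s2 mu b2 b3 b4 (theta 4 c c2 u2 w w2 w3 w4 q4 q16)
    (theta 2 c c2 u2 w w2 w3 w4 q2 q8) (theta 1 c c2 u2 w w2 w3 w4 q1 q4))))))))

end HN

end RicP
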