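import Pool.Agent.Helper88.Ric.HNTheta

/-!
MP_092777_ag: box trees for the certificate HNUM and the region `L ≤ 1/4`.
-/

set_option autoImplicit false

namespace RicP

open TM

/-- splitting trees -/
inductive Tr where
  | o : Tr
  | l : Tr → Tr → Tr
  | c : Tr → Tr → Tr

namespace HN

/-- `L` box -/
def mkL (l0 l1 : Nat) : TM :=
  TM.mk (Nat.shiftRight (Nat.add l0 l1) 1) 0 (Nat.shiftRight (Nat.sub l1 l0) 1) 0 0 0 1

/-- box of the cosine, `c0 ≤ (c + 1) 2^40 ≤ c1` -/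
def mkC (c0 c1 : Nat) : TM :=
  TM.mk (Nat.sub (Nat.shiftRight (Nat.add c0 c1) 1) 1099511627776)
    (Nat.sub 1099511627776 (Nat.shiftRight (Nat.add c0 c1) 1)) 0 0
    (Nat.shiftRight (Nat.sub c1 c0) 1) 0 1

def run : Tr → Nat → Nat → Nat → Nat → Bool
  | Tr.o, l0, l1, c0, c1 => box (mkL l0 l1) (mkC c0 c1)
  | Tr.l a b, l0, l1, c0, c1 =>
    and (run a l0 (Nat.shiftRight (Nat.add l0 l1) 1) c0 c1)
      (run b (Nat.shiftRight (Nat.add l0 l1) 1) l1 c0 c1)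
  | Tr.c a b, l0, l1, c0, c1 =>
    and (run a l0 l1 c0 (Nat.shiftRight (Nat.add c0 c1) 1))
      (run b l0 l1 (Nat.shiftRight (Nat.add c0 c1) 1) c1)

/-- theta moments for small `L` -/
def smV : V15 :=
  V15.mk (TM.mk 1099511627776 0 0 0 0 0 10996) (TM.mk 0 0 0 0 0 0 252908)
    (TM.mk 0 0 0 0 0 0 5816884) (TM.mk 0 0 0 0 0 0 133788332) (TM.mk 0 0 0 0 0 0 3077131636)
    (TM.mk 0 0 0 0 0 0 21992) (TM.mk 0 0 0 0 0 0 505816) (TM.mk 0 0 0 0 0 0 11633768)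
    (TM.mk 0 0 0 0 0 0 267576664) (TM.mk 0 0 0 0 0 0 43984) (TM.mk 0 0 0 0 0 0 1011632)
    (TM.mk 0 0 0 0 0 0 23267536) (TM.mk 0 0 0 0 0 0 87968) (TM.mk 0 0 0 0 0 0 2023264)
    (TM.mk 0 0 0 0 0 0 175936)

/-- check for small `L` -/
def boxS (l : TM) : Bool :=
  let S := bS l
  let C := bC l
  let C2 := dC C
  let S4 := mul (mul S C) C2
  let C4 := dC C2
  let z2 := inv (sq S)
  let z1 := inv S
  let y2 := inv (sq S4)
  let y1 := inv S4
  let b2 := add (nsm 5 z2) (nsm 7 y2)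
  let b3 := add (nsm 5 (f3 C z1 z2)) (nsm 7 (f3 C4 y1 y2))
  let b4 := add (nsm 5 (f4 C z2)) (nsm 7 (f4 C4 y2))
  and (posB S) (and (posB S4) (and (posB (sq S)) (and (posB (sq S4))
   (chk one one b2 b3 b4 smV smV smV))))

end HN

end RicP
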