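import Pool.Agent.Helper88.Ric.HNRun

/-!
MP_092777_ag: kernel evaluation of the certificate HNUM, part A.
-/

set_option autoImplicit false
set_option maxRecDepth 100000

namespace RicP

namespace HN

def tree0 : Tr :=
    (Tr.l (Tr.c (Tr.l Tr.o Tr.o) (Tr.l Tr.o Tr.o)) Tr.o)

theorem run0 : run tree0 274877906944 343597383680 0 2199023255552 = true := by
  decide +kernel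

def tree1 : Tr :=
    (Tr.l Tr.o Tr.o)

theorem run1 : run tree1 343597383680 429496729600 0 2199023255552 = true := by
  decide +kernel

def tree2 : Tr :=
    (Tr.l Tr.o Tr.o)

theorem run2 : run tree2 429496729600 536870912000 0 2199023255552 = true := by
  decide +kernel

def tree3 : Tr :=
    (Tr.l (Tr.c (Tr.l Tr.o Tr.o) Tr.o) (Tr.c (Tr.c (Tr.l Tr.o Tr.o) Tr.o) (Tr.c Tr.o Tr.o)))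

theorem run3 : run tree3 536870912000 671088640000 0 2199023255552 = true := by
  decide +kernel

def tree4 : Tr :=
    (Tr.l (Tr.c (Tr.l Tr.o (Tr.c Tr.o Tr.o)) (Tr.l Tr.o (Tr.c Tr.o Tr.o))) (Tr.c (Tr.l (Tr.c
    (Tr.l Tr.o Tr.o) Tr.o) (Tr.c (Tr.c Tr.o Tr.o) Tr.o)) (Tr.l (Tr.c Tr.o Tr.o) (Tr.c Tr.o (Tr.c
    Tr.o Tr.o)))))

theorem run4 : run tree4 671088640000 839666106368 0 2199023255552 = true := by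
  decide +kernel

def tree5 : Tr :=
    (Tr.l (Tr.c (Tr.l (Tr.c (Tr.l (Tr.c Tr.o Tr.o) (Tr.c Tr.o Tr.o)) (Tr.l Tr.o Tr.o)) (Tr.c
    (Tr.l (Tr.c Tr.o Tr.o) (Tr.c (Tr.l Tr.o Tr.o) Tr.o)) (Tr.l (Tr.c Tr.o Tr.o) (Tr.c Tr.o
    Tr.o)))) (Tr.l (Tr.c (Tr.l Tr.o Tr.o) (Tr.l Tr.o (Tr.c Tr.o Tr.o))) (Tr.c (Tr.l Tr.o (Tr.c
    Tr.o Tr.o)) (Tr.l (Tr.c Tr.o Tr.o) (Tr.c Tr.o (Tr.l Tr.o Tr.o)))))) (Tr.c (Tr.l (Tr.c (Tr.l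
    (Tr.c (Tr.l Tr.o Tr.o) Tr.o) (Tr.c (Tr.l Tr.o Tr.o) (Tr.l Tr.o Tr.o))) (Tr.l (Tr.c Tr.o
    Tr.o) (Tr.c Tr.o Tr.o))) (Tr.c (Tr.l (Tr.c (Tr.l Tr.o Tr.o) (Tr.l Tr.o Tr.o)) (Tr.c (Tr.l
    Tr.o Tr.o) (Tr.l Tr.o Tr.o))) (Tr.l (Tr.c Tr.o Tr.o) (Tr.c Tr.o Tr.o)))) (Tr.l (Tr.c (Tr.l
    (Tr.c Tr.o Tr.o) (Tr.c Tr.o Tr.o)) (Tr.l (Tr.c Tr.o (Tr.l Tr.o Tr.o)) (Tr.c Tr.o (Tr.l Tr.o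
    Tr.o)))) (Tr.c (Tr.l (Tr.c Tr.o Tr.o) (Tr.c Tr.o Tr.o)) (Tr.l (Tr.c Tr.o (Tr.l Tr.o Tr.o))
    (Tr.c (Tr.l Tr.o Tr.o) (Tr.l Tr.o Tr.o)))))))

theorem run5 : run tree5 839666106368 1110249046016 0 2199023255552 = true := by
  decide +kernel

def tree6 : Tr :=
    (Tr.c (Tr.l (Tr.c (Tr.l (Tr.c (Tr.l Tr.o Tr.o) (Tr.l Tr.o Tr.o)) (Tr.c (Tr.l (Tr.c Tr.o
    Tr.o) (Tr.c Tr.o Tr.o)) (Tr.l Tr.o Tr.o))) (Tr.l (Tr.c (Tr.l Tr.o Tr.o) (Tr.l Tr.o Tr.o))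
    (Tr.c (Tr.l Tr.o Tr.o) (Tr.l Tr.o Tr.o)))) (Tr.c (Tr.l (Tr.c (Tr.l (Tr.c Tr.o Tr.o) (Tr.c
    Tr.o Tr.o)) (Tr.l Tr.o Tr.o)) (Tr.c (Tr.l (Tr.c Tr.o Tr.o) (Tr.c Tr.o Tr.o)) (Tr.l (Tr.c
    Tr.o Tr.o) (Tr.c Tr.o Tr.o)))) (Tr.l (Tr.c (Tr.l Tr.o Tr.o) (Tr.l Tr.o Tr.o)) (Tr.c (Tr.l
    Tr.o Tr.o) (Tr.l Tr.o Tr.o))))) (Tr.l (Tr.c (Tr.l (Tr.c (Tr.l Tr.o Tr.o) (Tr.l Tr.o Tr.o))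
    (Tr.c (Tr.l Tr.o Tr.o) (Tr.l Tr.o Tr.o))) (Tr.l (Tr.c (Tr.l Tr.o Tr.o) (Tr.l Tr.o Tr.o))
    (Tr.c (Tr.l Tr.o Tr.o) (Tr.l Tr.o Tr.o)))) (Tr.c (Tr.l (Tr.c (Tr.l Tr.o Tr.o) (Tr.l Tr.o
    Tr.o)) (Tr.c (Tr.l Tr.o Tr.o) (Tr.l Tr.o Tr.o))) (Tr.l (Tr.c (Tr.l Tr.o Tr.o) (Tr.l Tr.o
    Tr.o)) (Tr.c (Tr.l Tr.o Tr.o) (Tr.l Tr.o Tr.o))))))

theorem run6 : run tree6 1110249046016 1288490188800 0 2199023255552 = true := by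
  decide +kernel

end HN

end RicP
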