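import Pool.Agent.Helper88.Ric.HNStmts
import Pool.Agent.Helper88.Ric.HNProg

/-!
MP_092777_ag: soundness of the program of HNUM, algebraic part.
-/

set_option autoImplicit false

noncomputable section

namespace RicP

open TM

attribute [local irreducible] TM.add TM.sub TM.mul TM.sq TM.nsm TM.inv TM.neg TM.fat

namespace HN

theorem enc_of {t : TM} {u v f g : ℝ} (h : Enc t u v f) (e : f = g) : Enc t u v g := e ▸ h

theorem enc_one {t : TM} {u v f : ℝ} (h : Enc t u v f) : Enc one u v 1 :=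
  enc_of (enc_cst h.1 h.2.1 1) (by simp)

attribute [local irreducible] TM.Enc

def EncV (x : V15) (u v : ℝ) (f : ℕ → ℕ → ℝ) : Prop :=
  Enc x.x00 u v (f 0 0) ∧ Enc x.x01 u v (f 0 1) ∧ Enc x.x02 u v (f 0 2) ∧ Enc x.x03 u v (f 0 3) ∧
  Enc x.x04 u v (f 0 4) ∧ Enc x.x10 u v (f 1 0) ∧ Enc x.x11 u v (f 1 1) ∧ Enc x.x12 u v (f 1 2) ∧
  Enc x.x13 u v (f 1 3) ∧ Enc x.x20 u v (f 2 0) ∧ Enc x.x21 u v (f 2 1) ∧ Enc x.x22 u v (f 2 2) ∧
  Enc x.x30 u v (f 3 0) ∧ Enc x.x31 u v (f 3 1) ∧ Enc x.x40 u v (f 4 0)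

/-- real cumulants, reduced: `s2` replaces the square of the odd factor -/
def kR (S : ℝ) (m : ℕ → ℕ → ℝ) (a b : ℕ) : ℝ :=
  match a, b with
  | 2, 0 => m 2 0 - m 1 0 ^ 2 * S
  | 1, 1 => m 1 1 - m 1 0 * m 0 1
  | 0, 2 => m 0 2 - m 0 1 ^ 2
  | 3, 0 => m 3 0 - 3 * m 2 0 * m 1 0 + 2 * m 1 0 ^ 3 * S
  | 2, 1 => m 2 1 - m 2 0 * m 0 1 - 2 * m 1 1 * m 1 0 * S + 2 * m 1 0 ^ 2 * m 0 1 * S
  | 1, 2 => m 1 2 - m 0 2 * m 1 0 - 2 * m 1 1 * m 0 1 + 2 * m 1 0 * m 0 1 ^ 2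
  | 0, 3 => m 0 3 - 3 * m 0 2 * m 0 1 + 2 * m 0 1 ^ 3
  | 4, 0 => m 4 0 - 4 * m 3 0 * m 1 0 * S - 3 * m 2 0 ^ 2 + 12 * m 2 0 * m 1 0 ^ 2 * S
      - 6 * m 1 0 ^ 4 * S ^ 2
  | 3, 1 => m 3 1 - m 3 0 * m 0 1 - 3 * m 2 1 * m 1 0 - 3 * m 2 0 * m 1 1
      + 6 * m 2 0 * m 1 0 * m 0 1 + 6 * m 1 1 * m 1 0 ^ 2 * S - 6 * m 1 0 ^ 3 * m 0 1 * S
  | 2, 2 => m 2 2 - 2 * m 2 1 * m 0 1 - 2 * m 1 2 * m 1 0 * S - m 2 0 * m 0 2 - 2 * m 1 1 ^ 2 * S
      + 2 * m 2 0 * m 0 1 ^ 2 + 2 * m 0 2 * m 1 0 ^ 2 * S + 8 * m 1 1 * m 1 0 * m 0 1 * S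
      - 6 * m 1 0 ^ 2 * m 0 1 ^ 2 * S
  | 1, 3 => m 1 3 - m 0 3 * m 1 0 - 3 * m 1 2 * m 0 1 - 3 * m 0 2 * m 1 1
      + 6 * m 0 2 * m 0 1 * m 1 0 + 6 * m 1 1 * m 0 1 ^ 2 - 6 * m 0 1 ^ 3 * m 1 0
  | 0, 4 => m 0 4 - 4 * m 0 3 * m 0 1 - 3 * m 0 2 ^ 2 + 12 * m 0 2 * m 0 1 ^ 2 - 6 * m 0 1 ^ 4
  | _, _ => 0

def EncK (x : K12) (u v : ℝ) (f : ℕ → ℕ → ℝ) : Prop :=
  Enc x.k20 u v (f 2 0) ∧ Enc x.k11 u v (f 1 1) ∧ Enc x.k02 u v (f 0 2) ∧ Enc x.k30 u v (f 3 0) ∧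
  Enc x.k21 u v (f 2 1) ∧ Enc x.k12 u v (f 1 2) ∧ Enc x.k03 u v (f 0 3) ∧ Enc x.k40 u v (f 4 0) ∧
  Enc x.k31 u v (f 3 1) ∧ Enc x.k22 u v (f 2 2) ∧ Enc x.k13 u v (f 1 3) ∧ Enc x.k04 u v (f 0 4)

theorem enc_nrm {x : V15} {z : TM} {u v Z : ℝ} {f : ℕ → ℕ → ℝ} (hx : EncV x u v f)
    (hz : Enc z u v Z) (h0 : Z * f 0 0 = 1) : EncV (nrm z x) u v (fun a b => f a b * Z) := by
  obtain ⟨h00, h01, h02, h03, h04, h10, h11, h12, h13, h20, h21, h22, h30, h31, h40⟩ := hx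
  have h1 : f 0 0 * Z = 1 := by rw [mul_comm]; exact h0
  unfold EncV nrm
  simp only [h1]
  refine ⟨enc_one hz, ?_, ?_, ?_, ?_, ?_, ?_, ?_, ?_, ?_, ?_, ?_, ?_, ?_, ?_⟩ <;>
  · apply enc_of
    · apply enc_mul hz
      assumption
    · ring

theorem enc_cum {x : V15} {s2 : TM} {u v S : ℝ} {m : ℕ → ℕ → ℝ} (hx : EncV x u v m)
    (hs : Enc s2 u v S) : EncK (cum s2 x) u v (kR S m) := by
  obtain ⟨h00, h01, h02, h03, h04, h10, h11, h12, h13, h20, h21, h22, h30, h31, h40⟩ := hx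
  have hm : Enc (mul x.x10 s2) u v (m 1 0 * S) := enc_mul h10 hs
  have k20 : Enc (c20 s2 x.x10 x.x20) u v (kR S m 2 0) := by
    unfold c20
    apply enc_of
    · repeat' (first | assumption | apply enc_sub | apply enc_add | apply enc_mul | apply enc_sq | apply enc_nsm)
    · simp only [kR]; ring
  have k11 : Enc (c11 x.x10 x.x01 x.x11) u v (kR S m 1 1) := by
    unfold c11
    apply enc_of
    · repeat' (first | assumption | apply enc_sub | apply enc_add | apply enc_mul | apply enc_sq | apply enc_nsm)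
    · simp only [kR]
  have k02 : Enc (c02 x.x01 x.x02) u v (kR S m 0 2) := by
    unfold c02
    apply enc_of
    · repeat' (first | assumption | apply enc_sub | apply enc_add | apply enc_mul | apply enc_sq | apply enc_nsm)
    · simp only [kR]; ring
  have k30 : Enc (c30 x.x10 x.x20 x.x30 (c20 s2 x.x10 x.x20)) u v (kR S m 3 0) := by
    unfold c30
    apply enc_of
    · repeat' (first | assumption | apply enc_sub | apply enc_add | apply enc_mul | apply enc_sq | apply enc_nsm)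
    · simp only [kR]; push_cast; ring
  have k21 : Enc (c21 x.x01 x.x20 x.x21 (mul x.x10 s2) (c11 x.x10 x.x01 x.x11)) u v
      (kR S m 2 1) := by
    unfold c21
    apply enc_of
    · repeat' (first | assumption | apply enc_sub | apply enc_add | apply enc_mul | apply enc_sq | apply enc_nsm)
    · simp only [kR]; push_cast; ring
  have k12 : Enc (c12 x.x10 x.x01 x.x02 x.x12 (c11 x.x10 x.x01 x.x11)) u v (kR S m 1 2) := by
    unfold c12
    apply enc_of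
    · repeat' (first | assumption | apply enc_sub | apply enc_add | apply enc_mul | apply enc_sq | apply enc_nsm)
    · simp only [kR]; push_cast; ring
  have k03 : Enc (c03 x.x01 x.x02 x.x03 (c02 x.x01 x.x02)) u v (kR S m 0 3) := by
    unfold c03
    apply enc_of
    · repeat' (first | assumption | apply enc_sub | apply enc_add | apply enc_mul | apply enc_sq | apply enc_nsm)
    · simp only [kR]; push_cast; ring
  refine ⟨k20, k11, k02, k30, k21, k12, k03, ?_, ?_, ?_, ?_, ?_⟩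
  · change Enc (c40 x.x20 x.x30 x.x40 (mul x.x10 s2) (c20 s2 x.x10 x.x20)
      (c30 x.x10 x.x20 x.x30 (c20 s2 x.x10 x.x20))) u v (kR S m 4 0)
    unfold c40
    apply enc_of
    · repeat' (first | assumption | apply enc_sub | apply enc_add | apply enc_mul | apply enc_sq | apply enc_nsm)
    · simp only [kR]; push_cast; ring
  · change Enc (c31 x.x01 x.x10 x.x20 x.x30 x.x31 (c11 x.x10 x.x01 x.x11)
      (c21 x.x01 x.x20 x.x21 (mul x.x10 s2) (c11 x.x10 x.x01 x.x11))) u v (kR S m 3 1)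
    unfold c31
    apply enc_of
    · repeat' (first | assumption | apply enc_sub | apply enc_add | apply enc_mul | apply enc_sq | apply enc_nsm)
    · simp only [kR]; push_cast; ring
  · change Enc (c22 s2 x.x01 x.x20 x.x11 x.x21 x.x22 (mul x.x10 s2) (c11 x.x10 x.x01 x.x11)
      (c02 x.x01 x.x02) (c21 x.x01 x.x20 x.x21 (mul x.x10 s2) (c11 x.x10 x.x01 x.x11))
      (c12 x.x10 x.x01 x.x02 x.x12 (c11 x.x10 x.x01 x.x11))) u v (kR S m 2 2)
    unfold c22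
    apply enc_of
    · repeat' (first | assumption | apply enc_sub | apply enc_add | apply enc_mul | apply enc_sq | apply enc_nsm)
    · simp only [kR]; push_cast; ring
  · change Enc (c13 x.x10 x.x01 x.x02 x.x03 x.x13 (c11 x.x10 x.x01 x.x11)
      (c12 x.x10 x.x01 x.x02 x.x12 (c11 x.x10 x.x01 x.x11))) u v (kR S m 1 3)
    unfold c13
    apply enc_of
    · repeat' (first | assumption | apply enc_sub | apply enc_add | apply enc_mul | apply enc_sq | apply enc_nsm)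
    · simp only [kR]; push_cast; ring
  · change Enc (c04 x.x01 x.x02 x.x03 x.x04 (c02 x.x01 x.x02)
      (c03 x.x01 x.x02 x.x03 (c02 x.x01 x.x02))) u v (kR S m 0 4)
    unfold c04
    apply enc_of
    · repeat' (first | assumption | apply enc_sub | apply enc_add | apply enc_mul | apply enc_sq | apply enc_nsm)
    · simp only [kR]; push_cast; ring

theorem enc_wsum {x y z : TM} {u v X Y Z : ℝ} (hx : Enc x u v X) (hy : Enc y u v Y)
    (hz : Enc z u v Z) : Enc (wsum x y z) u v (4 * X + 10 * Y + 8 * Z) := by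
  unfold wsum
  apply enc_of
  · repeat' (first | assumption | apply enc_add | apply enc_nsm)
  · push_cast; ring

/-- reduced tensors -/
def tR (μ B2 B3 B4 : ℝ) (x y z : ℕ → ℕ → ℝ) (a b : ℕ) : ℝ :=
  μ ^ (a / 2) * (4 * x a b + 10 * y a b + 8 * z a b)
    + (match a, b with
      | 2, 0 => 1
      | 0, 2 => 11 + B2
      | 2, 1 => -1
      | 0, 3 => -22 + B3
      | 2, 2 => 2
      | 0, 4 => 66 + B4
      | _, _ => 0)

theorem enc_tens {mu b2 b3 b4 : TM} {x y z : K12} {u v μ B2 B3 B4 : ℝ} {X Y Z : ℕ → ℕ → ℝ}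
    (hμ : Enc mu u v μ) (h2 : Enc b2 u v B2) (h3 : Enc b3 u v (-B3)) (h4 : Enc b4 u v B4)
    (hx : EncK x u v X) (hy : EncK y u v Y) (hz : EncK z u v Z) :
    EncK (tens mu b2 b3 b4 x y z) u v (tR μ B2 B3 B4 X Y Z) := by
  obtain ⟨x20, x11, x02, x30, x21, x12, x03, x40, x31, x22, x13, x04⟩ := hx
  obtain ⟨y20, y11, y02, y30, y21, y12, y03, y40, y31, y22, y13, y04⟩ := hy
  obtain ⟨z20, z11, z02, z30, z21, z12, z03, z40, z31, z22, z13, z04⟩ := hz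
  have h1 := enc_one hμ
  refine ⟨?_, ?_, ?_, ?_, ?_, ?_, ?_, ?_, ?_, ?_, ?_, ?_⟩ <;>
  · unfold tens
    apply enc_of
    · repeat' (first | assumption | apply enc_wsum | apply enc_sub | apply enc_add | apply enc_mul | apply enc_sq | apply enc_nsm)
    · simp only [tR]
      first
        | (norm_num; done)
        | (norm_num; ring; done)
        | (norm_num; left; ring)

/-- a tensor from its reduced components -/
def redTen (ρ : ℝ) (T : ℕ → ℕ → ℝ) : Ten :=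
  ![T 2 0, ρ * T 1 1, T 0 2, ρ * T 3 0, T 2 1, T 2 1, ρ * T 1 2, ρ * T 1 2, T 0 3,
    T 4 0, ρ * T 3 1, T 2 2, T 2 2, ρ * T 1 3, T 0 4]

theorem lgR_red (u X : ℕ → ℕ → ℝ) (r s : ℝ)
    (hu : ∀ a b, a + b ≤ 4 → u a b = r ^ a * (s ^ (a % 2) * X a b)) :
    lgR u = redTen (r * s) (fun a b => (r ^ 2) ^ (a / 2)
      * kR (s ^ 2) (fun a b => X a b * (X 0 0)⁻¹) a b) := by
  have hm : ∀ a b, a + b ≤ 4 → u a b / u 0 0 = r ^ a * (s ^ (a % 2) * (X a b * (X 0 0)⁻¹)) := by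
    intro a b h
    rw [hu a b h, hu 0 0 (by norm_num), div_eq_mul_inv]
    simp
    ring
  have h01 := hm 0 1 (by norm_num)
  have h02 := hm 0 2 (by norm_num)
  have h03 := hm 0 3 (by norm_num)
  have h04 := hm 0 4 (by norm_num)
  have h10 := hm 1 0 (by norm_num)
  have h11 := hm 1 1 (by norm_num)
  have h12 := hm 1 2 (by norm_num)
  have h13 := hm 1 3 (by norm_num)
  have h20 := hm 2 0 (by norm_num)
  have h21 := hm 2 1 (by norm_num)
  have h22 := hm 2 2 (by norm_num)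
  have h30 := hm 3 0 (by norm_num)
  have h31 := hm 3 1 (by norm_num)
  have h40 := hm 4 0 (by norm_num)
  norm_num at h01 h02 h03 h04 h10 h11 h12 h13 h20 h21 h22 h30 h31 h40
  unfold lgR redTen
  simp only [h01, h02, h03, h04, h10, h11, h12, h13, h20, h21, h22, h30, h31, h40, kR]
  norm_num
  repeat' apply And.intro
  all_goals ring

theorem tens_red (L θ r s : ℝ) (X Y Z : ℕ → ℕ → ℝ)
    (hX : ∀ a b, a + b ≤ 4 → uH 1 L θ a b = r ^ a * (s ^ (a % 2) * X a b))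
    (hY : ∀ a b, a + b ≤ 4 → uH 2 L θ a b = r ^ a * (s ^ (a % 2) * Y a b))
    (hZ : ∀ a b, a + b ≤ 4 → uH 4 L θ a b = r ^ a * (s ^ (a % 2) * Z a b)) :
    tenH L θ = redTen (r * s) (tR (r ^ 2) (5 * bb2 (L / 2) + 7 * bb2 (2 * L))
      (5 * bb3 (L / 2) + 7 * bb3 (2 * L)) (5 * bb4 (L / 2) + 7 * bb4 (2 * L))
      (kR (s ^ 2) (fun a b => X a b * (X 0 0)⁻¹)) (kR (s ^ 2) (fun a b => Y a b * (Y 0 0)⁻¹))
      (kR (s ^ 2) (fun a b => Z a b * (Z 0 0)⁻¹))) := by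
  unfold tenH
  rw [lgR_red _ X r s hX, lgR_red _ Y r s hY, lgR_red _ Z r s hZ]
  unfold tenS redTen
  simp only [tR]
  funext i
  fin_cases i <;> simp <;> ring

/-- the reduced conditions -/
theorem cond_red (ρ σ D A00 A01 A02 A11 A12 A22 : ℝ) (T : ℕ → ℕ → ℝ) (hσ : σ = ρ ^ 2)
    (hD : D = T 2 0 * T 0 2 - σ * T 1 1 ^ 2)
    (h00 : A00 = T 4 0 * D - (σ * T 3 0 ^ 2 * T 0 2 + (T 2 1 ^ 2 * T 2 0
      - 2 * (σ * T 1 1 * (T 3 0 * T 2 1)))))
    (h01 : A01 = T 3 1 * D - (T 2 1 * (T 3 0 * T 0 2 + T 1 2 * T 2 0)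
      - T 1 1 * (σ * (T 3 0 * T 1 2) + T 2 1 ^ 2)))
    (h02 : A02 = T 2 2 * D - (σ * (T 3 0 * T 1 2) * T 0 2 + T 2 1 * T 0 3 * T 2 0
      - σ * T 1 1 * (T 3 0 * T 0 3 + T 2 1 * T 1 2)))
    (h11 : A11 = T 2 2 * D - (T 2 1 ^ 2 * T 0 2 + (σ * T 1 2 ^ 2 * T 2 0
      - 2 * (σ * T 1 1 * (T 2 1 * T 1 2)))))
    (h12 : A12 = T 1 3 * D - (T 1 2 * (T 2 1 * T 0 2 + T 0 3 * T 2 0)
      - T 1 1 * (T 2 1 * T 0 3 + σ * T 1 2 ^ 2)))
    (h22 : A22 = T 0 4 * D - (σ * T 1 2 ^ 2 * T 0 2 + (T 0 3 ^ 2 * T 2 0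
      - 2 * (σ * T 1 1 * (T 1 2 * T 0 3)))))
    (c0 : 0 < T 2 0) (c1 : 0 < D)
    (c2 : 0 < T 0 2 ^ 2 * A00 + (T 2 0 ^ 2 * A22 - 2 * (T 2 0 * T 0 2 * A02)))
    (c3 : 0 < (T 0 2 ^ 2 * A00 + (T 2 0 ^ 2 * A22 - 2 * (T 2 0 * T 0 2 * A02)))
      * (σ * (T 1 1 ^ 2 * A00 - 2 * (T 2 0 * T 1 1 * A01)) + T 2 0 ^ 2 * A11)
      - σ * (T 1 1 * (T 0 2 * A00 - T 2 0 * A02) + T 2 0 * (T 2 0 * A12 - T 0 2 * A01)) ^ 2)
    (c4 : 0 < T 0 2 ^ 2 * A00 + (T 2 0 ^ 2 * A22 + 2 * (T 2 0 * T 0 2 * A02))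
      + 4 * (σ * T 1 1 * (T 1 1 * A11 - (T 0 2 * A01 + T 2 0 * A12)))) :
    (redTen ρ T).Cond := by
  have t0 : redTen ρ T 0 = T 2 0 := rfl
  have t1 : redTen ρ T 1 = ρ * T 1 1 := rfl
  have t2 : redTen ρ T 2 = T 0 2 := rfl
  have t3 : redTen ρ T 3 = ρ * T 3 0 := rfl
  have t4 : redTen ρ T 4 = T 2 1 := rfl
  have t5 : redTen ρ T 5 = T 2 1 := rfl
  have t6 : redTen ρ T 6 = ρ * T 1 2 := rfl
  have t7 : redTen ρ T 7 = ρ * T 1 2 := rfl
  have t8 : redTen ρ T 8 = T 0 3 := rfl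
  have t9 : redTen ρ T 9 = T 4 0 := rfl
  have t10 : redTen ρ T 10 = ρ * T 3 1 := rfl
  have t11 : redTen ρ T 11 = T 2 2 := rfl
  have t12 : redTen ρ T 12 = T 2 2 := rfl
  have t13 : redTen ρ T 13 = ρ * T 1 3 := rfl
  have t14 : redTen ρ T 14 = T 0 4 := rfl
  have e0 : (redTen ρ T).det = D := by
    rw [Ten.det, t0, t1, t2, hD, hσ]; ring
  have e00 : (redTen ρ T).K00 = A00 := by
    rw [Ten.K00, Ten.kk, e0, t0, t1, t2, t3, t4, t9, h00, hσ]; ring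
  have e01 : (redTen ρ T).K01 = ρ * A01 := by
    rw [Ten.K01, Ten.kk, e0, t0, t1, t2, t3, t4, t5, t6, t10, h01, hσ]; ring
  have e02 : (redTen ρ T).K02 = A02 := by
    rw [Ten.K02, Ten.kk, e0, t0, t1, t2, t3, t4, t7, t8, t11, h02, hσ]; ring
  have e11 : (redTen ρ T).K11 = A11 := by
    rw [Ten.K11, Ten.kk, e0, t0, t1, t2, t5, t6, t12, h11, hσ]; ring
  have e12 : (redTen ρ T).K12 = ρ * A12 := by
    rw [Ten.K12, Ten.kk, e0, t0, t1, t2, t5, t6, t7, t8, t13, h12, hσ]; ring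
  have e22 : (redTen ρ T).K22 = A22 := by
    rw [Ten.K22, Ten.kk, e0, t0, t1, t2, t7, t8, t14, h22, hσ]; ring
  have f0 : (redTen ρ T).KDD = T 0 2 ^ 2 * A00 + (T 2 0 ^ 2 * A22 - 2 * (T 2 0 * T 0 2 * A02)) := by
    rw [Ten.KDD, e00, e02, e22, t0, t2]; ring
  have f1 : (redTen ρ T).KOO = σ * (T 1 1 ^ 2 * A00 - 2 * (T 2 0 * T 1 1 * A01))
      + T 2 0 ^ 2 * A11 := by
    rw [Ten.KOO, e00, e01, e11, t0, t1, hσ]; ring
  have f2 : (redTen ρ T).KDO = ρ * (T 1 1 * (T 0 2 * A00 - T 2 0 * A02)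
      + T 2 0 * (T 2 0 * A12 - T 0 2 * A01)) := by
    rw [Ten.KDO, e00, e01, e02, e12, t0, t1, t2]; ring
  have f3 : (redTen ρ T).KII = T 0 2 ^ 2 * A00 + (T 2 0 ^ 2 * A22 + 2 * (T 2 0 * T 0 2 * A02))
      + 4 * (σ * T 1 1 * (T 1 1 * A11 - (T 0 2 * A01 + T 2 0 * A12))) := by
    rw [Ten.KII, e00, e01, e02, e11, e12, e22, t0, t1, t2, hσ]; ring
  refine ⟨by rw [t0]; exact c0, by rw [e0]; exact c1, by rw [f0]; exact c2, ?_,
    by rw [f3]; exact c4⟩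
  rw [f0, f1, f2]
  have : (ρ * (T 1 1 * (T 0 2 * A00 - T 2 0 * A02) + T 2 0 * (T 2 0 * A12 - T 0 2 * A01))) ^ 2
    = σ * (T 1 1 * (T 0 2 * A00 - T 2 0 * A02) + T 2 0 * (T 2 0 * A12 - T 0 2 * A01)) ^ 2 := by
    rw [hσ]; ring
  rw [this]
  linarith

theorem and_iff {a b : Bool} (h : and a b = true) : a = true ∧ b = true := by
  cases a <;> cases b <;> simp_all

theorem enc_cond {t : K12} {σ : TM} {u v S ρ : ℝ} {T : ℕ → ℕ → ℝ} (hσ : Enc σ u v S)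
    (hS : S = ρ ^ 2) (ht : EncK t u v T) (h : cond σ t = true) : (redTen ρ T).Cond := by
  obtain ⟨h20, h11, h02, h30, h21, h12, h03, h40, h31, h22, h13, h04⟩ := ht
  have hd : Enc (det σ t) u v (T 2 0 * T 0 2 - S * T 1 1 ^ 2) := by
    unfold det
    apply enc_of
    · repeat' (first | assumption | apply enc_sub | apply enc_mul | apply enc_sq)
    · ring
  set D := T 2 0 * T 0 2 - S * T 1 1 ^ 2 with hD
  have a00 : Enc (cK00 σ (det σ t) t) u v (T 4 0 * D - (S * T 3 0 ^ 2 * T 0 2 + (T 2 1 ^ 2 * T 2 0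
      - 2 * (S * T 1 1 * (T 3 0 * T 2 1))))) := by
    unfold cK00
    apply enc_of
    · repeat' (first | assumption | apply enc_sub | apply enc_add | apply enc_mul | apply enc_sq | apply enc_nsm)
    · push_cast; ring
  have a01 : Enc (cK01 σ (det σ t) t) u v (T 3 1 * D - (T 2 1 * (T 3 0 * T 0 2 + T 1 2 * T 2 0)
      - T 1 1 * (S * (T 3 0 * T 1 2) + T 2 1 ^ 2))) := by
    unfold cK01
    apply enc_of
    · repeat' (first | assumption | apply enc_sub | apply enc_add | apply enc_mul | apply enc_sq)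
    · ring
  have a02 : Enc (cK02 σ (det σ t) t) u v (T 2 2 * D - (S * (T 3 0 * T 1 2) * T 0 2
      + T 2 1 * T 0 3 * T 2 0 - S * T 1 1 * (T 3 0 * T 0 3 + T 2 1 * T 1 2))) := by
    unfold cK02
    apply enc_of
    · repeat' (first | assumption | apply enc_sub | apply enc_add | apply enc_mul | apply enc_sq)
    · ring
  have a11 : Enc (cK11 σ (det σ t) t) u v (T 2 2 * D - (T 2 1 ^ 2 * T 0 2 + (S * T 1 2 ^ 2 * T 2 0
      - 2 * (S * T 1 1 * (T 2 1 * T 1 2))))) := by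
    unfold cK11
    apply enc_of
    · repeat' (first | assumption | apply enc_sub | apply enc_add | apply enc_mul | apply enc_sq | apply enc_nsm)
    · push_cast; ring
  have a12 : Enc (cK12 σ (det σ t) t) u v (T 1 3 * D - (T 1 2 * (T 2 1 * T 0 2 + T 0 3 * T 2 0)
      - T 1 1 * (T 2 1 * T 0 3 + S * T 1 2 ^ 2))) := by
    unfold cK12
    apply enc_of
    · repeat' (first | assumption | apply enc_sub | apply enc_add | apply enc_mul | apply enc_sq)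
    · ring
  have a22 : Enc (cK22 σ (det σ t) t) u v (T 0 4 * D - (S * T 1 2 ^ 2 * T 0 2 + (T 0 3 ^ 2 * T 2 0
      - 2 * (S * T 1 1 * (T 1 2 * T 0 3))))) := by
    unfold cK22
    apply enc_of
    · repeat' (first | assumption | apply enc_sub | apply enc_add | apply enc_mul | apply enc_sq | apply enc_nsm)
    · push_cast; ring
  unfold cond at h
  obtain ⟨p0, h⟩ := and_iff h
  obtain ⟨p1, h⟩ := and_iff h
  obtain ⟨p2, h⟩ := and_iff h
  obtain ⟨p3, p4⟩ := and_iff h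
  generalize cK00 σ (det σ t) t = k00 at *
  generalize cK01 σ (det σ t) t = k01 at *
  generalize cK02 σ (det σ t) t = k02 at *
  generalize cK11 σ (det σ t) t = k11 at *
  generalize cK12 σ (det σ t) t = k12 at *
  generalize cK22 σ (det σ t) t = k22 at *
  refine cond_red ρ S D _ _ _ _ _ _ T hS hD rfl rfl rfl rfl rfl rfl (enc_pos h20 p0)
    (enc_pos hd p1) ?_ ?_ ?_
  · refine enc_pos (u := u) (v := v) ?_ p2
    unfold cDD
    apply enc_of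
    · repeat' (first | assumption | apply enc_sub | apply enc_add | apply enc_mul | apply enc_sq | apply enc_nsm)
    · push_cast; ring
  · refine enc_pos (u := u) (v := v) ?_ p3
    unfold cDD cOO cDO
    apply enc_of
    · repeat' (first | assumption | apply enc_sub | apply enc_add | apply enc_mul | apply enc_sq | apply enc_nsm)
    · push_cast; ring
  · refine enc_pos (u := u) (v := v) ?_ p4
    unfold cII
    apply enc_of
    · repeat' (first | assumption | apply enc_sub | apply enc_add | apply enc_mul | apply enc_sq | apply enc_nsm)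
    · push_cast; ring

/-- soundness of `chk` -/
theorem enc_chk {s2 mu b2 b3 b4 : TM} {x y z : V15} {u v r s L θ : ℝ} {X Y Z : ℕ → ℕ → ℝ}
    (hs : Enc s2 u v (s ^ 2)) (hμ : Enc mu u v (r ^ 2))
    (h2 : Enc b2 u v (5 * bb2 (L / 2) + 7 * bb2 (2 * L)))
    (h3 : Enc b3 u v (-(5 * bb3 (L / 2) + 7 * bb3 (2 * L))))
    (h4 : Enc b4 u v (5 * bb4 (L / 2) + 7 * bb4 (2 * L)))
    (hx : EncV x u v X) (hy : EncV y u v Y) (hz : EncV z u v Z)
    (hX : ∀ a b, a + b ≤ 4 → uH 1 L θ a b = r ^ a * (s ^ (a % 2) * X a b))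
    (hY : ∀ a b, a + b ≤ 4 → uH 2 L θ a b = r ^ a * (s ^ (a % 2) * Y a b))
    (hZ : ∀ a b, a + b ≤ 4 → uH 4 L θ a b = r ^ a * (s ^ (a % 2) * Z a b))
    (h : chk s2 mu b2 b3 b4 x y z = true) : (tenH L θ).Cond := by
  unfold chk at h
  obtain ⟨px, h⟩ := and_iff h
  obtain ⟨py, h⟩ := and_iff h
  obtain ⟨pz, h⟩ := and_iff h
  obtain ⟨ix, jx⟩ := enc_inv hx.1 px
  obtain ⟨iy, jy⟩ := enc_inv hy.1 py
  obtain ⟨iz, jz⟩ := enc_inv hz.1 pz
  rw [tens_red L θ r s X Y Z hX hY hZ]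
  refine enc_cond (enc_mul hμ hs) (by ring) (enc_tens hμ h2 h3 h4
    (enc_cum (enc_nrm hx jx ?_) hs) (enc_cum (enc_nrm hy jy ?_) hs)
    (enc_cum (enc_nrm hz jz ?_) hs)) h
  · exact inv_mul_cancel₀ ix.ne'
  · exact inv_mul_cancel₀ iy.ne'
  · exact inv_mul_cancel₀ iz.ne'

end HN

end RicP
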