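import Pool.Agent.Helper88.Ric.Stmts

/-!
MP_092777_ag: sub-statements of the certificate HNUM.
-/

set_option autoImplicit false

noncomputable section

namespace RicP

/-- `cos mθ` for `m = 1, 2` as function of `c = cos θ` -/
def hC (m : ℕ) (c : ℝ) : ℝ := if m = 1 then c else 2 * c ^ 2 - 1
/-- `sin mθ / sin θ` for `m = 1, 2` -/
def hU (m : ℕ) (c : ℝ) : ℝ := if m = 1 then 1 else 2 * c
/-- sign of the `a`-th derivative of the cosine -/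
def hs (a : ℕ) : ℝ := if a = 1 ∨ a = 2 then -1 else 1
def hB (a m : ℕ) (c : ℝ) : ℝ := if a % 2 = 0 then hC m c else hU m c

/-- main part (harmonics 1 and 2) of `thH k a b`, `κ = 4/k`, `w = π²/(2L)`, without the factor
`sin θ` if `a` is odd -/
def hM (κ a b : ℕ) (c w : ℝ) : ℝ :=
  (if a = 0 ∧ b = 0 then 1 else 0)
    + 2 * hs a * hB a 1 c * PL a b (κ * w) * Real.exp (-(κ * w))
    + 2 * 2 ^ a * hs a * hB a 2 c * PL a b (4 * κ * w) * Real.exp (-(4 * κ * w))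

/-- tail bound -/
def hTl (a b : ℕ) : ℝ := 84 * 3 ^ (a + a % 2) * 27 ^ b / 1099511627776

/-- truncation of the theta series -/
def ST_HNTH : Prop := ∀ k κ : ℕ, k * κ = 4 → ∀ L θ : ℝ, 0 < L → L < 37 / 20 →
  ∀ a b : ℕ, a + b ≤ 4 → ∃ r : ℝ, |r| ≤ hTl a b ∧
    thH k a b L θ = Real.sin θ ^ (a % 2) * (hM κ a b (Real.cos θ) (Real.pi ^ 2 / (2 * L)) + r)

/-- the theta series for small `L` -/
def ST_HNSM : Prop := ∀ k κ : ℕ, k * κ = 4 → ∀ L θ : ℝ, 0 < L → L ≤ 1 / 4 →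
  ∀ a b : ℕ, a + b ≤ 4 →
    |uH k L θ a b - (if a = 0 ∧ b = 0 then 1 else 0)| ≤ 2 ^ a * 23 ^ b / 10 ^ 8

/-- Taylor polynomials of `sinh z / z` and `cosh z` in `t = z²` -/
def tS (t : ℝ) : ℝ :=
  1 + t * (1 / 6 + t * (1 / 120 + t * (1 / 5040 + t * (1 / 362880 + t * (1 / 39916800)))))
def tC (t : ℝ) : ℝ :=
  1 + t * (1 / 2 + t * (1 / 24 + t * (1 / 720 + t * (1 / 40320 + t * (1 / 3628800)))))

/-- base part: `S = sinh z / z`, `C = cosh z` at `z = L/2`, and duplication -/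
def ST_HNBB : Prop := ∀ L : ℝ, 0 < L → L < 37 / 20 → ∃ S C : ℝ,
  |S - tS (L ^ 2 / 4)| ≤ 80 / 1099511627776 ∧ |C - tC (L ^ 2 / 4)| ≤ 1000 / 1099511627776 ∧
  0 < S ∧
  bb2 (L / 2) = (S * S)⁻¹ ∧ bb3 (L / 2) = -(2 * (C * ((S * S)⁻¹ * S⁻¹))) ∧
  bb4 (L / 2) = 2 * ((2 * (C * C) + 1) * ((S * S)⁻¹ * (S * S)⁻¹)) ∧
  ∀ C2 S4 C4 : ℝ, C2 = 2 * (C * C) - 1 → S4 = S * C * C2 → C4 = 2 * (C2 * C2) - 1 → 0 < S4 ∧
  bb2 (2 * L) = (S4 * S4)⁻¹ ∧ bb3 (2 * L) = -(2 * (C4 * ((S4 * S4)⁻¹ * S4⁻¹))) ∧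
  bb4 (2 * L) = 2 * ((2 * (C4 * C4) + 1) * ((S4 * S4)⁻¹ * (S4 * S4)⁻¹))

/-- square brackets of exponentials: `lo ≤ 2⁴⁶ exp(-x) ≤ hi` -/
def exSq (p : ℕ × ℕ) : ℕ × ℕ :=
  (Nat.shiftRight (Nat.mul p.1 p.1) 46, Nat.succ (Nat.shiftRight (Nat.mul p.2 p.2) 46))

end RicP
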