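import Pool.Agent.Helper88.Ric.HNSound

/-!
MP_092777_ag: soundness of the program of HNUM, theta functions, base part, exponential.
-/

set_option autoImplicit false

noncomputable section

namespace RicP

open TM

attribute [local irreducible] TM.add TM.sub TM.mul TM.sq TM.nsm TM.inv TM.neg TM.fat TM.Enc

namespace HN

/-- one harmonic -/
def hv (m : ℕ) (y EC EU : ℝ) (a b : ℕ) : ℝ :=
  hs a * (m : ℝ) ^ a * (if a % 2 = 0 then EC else EU) * PL a b y

theorem enc_harm (m : ℕ) {y1 y2 y3 y4 eC eU : TM} {u v y EC EU : ℝ} (h1 : Enc y1 u v y)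
    (h2 : Enc y2 u v (y ^ 2)) (h3 : Enc y3 u v (y ^ 3)) (h4 : Enc y4 u v (y ^ 4))
    (hC : Enc eC u v EC) (hU : Enc eU u v EU) :
    EncV (harm m y1 y2 y3 y4 eC eU) u v (hv m y EC EU) := by
  have h0 := enc_one h1
  refine ⟨?_, ?_, ?_, ?_, ?_, ?_, ?_, ?_, ?_, ?_, ?_, ?_, ?_, ?_, ?_⟩ <;>
  · unfold harm p01 p02 p03 p04 p11 p12 p13 p21 p22 p31
    apply enc_of
    · repeat' (first | assumption | apply enc_neg | apply enc_sub | apply enc_add | apply enc_mul | apply enc_nsm)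
    · simp only [hv, hs, PL]
      first
        | (norm_num; done)
        | (norm_num; ring; done)
        | (norm_num; left; ring)

theorem enc_vadd {x y : V15} {u v : ℝ} {F G X : ℕ → ℕ → ℝ} (hx : EncV x u v F)
    (hy : EncV y u v G) (hX : ∀ a b, a + b ≤ 4 →
      |X a b - (F a b + G a b + (if a = 0 ∧ b = 0 then 1 else 0))| ≤ hTl a b) :
    EncV (vadd x y) u v X := by
  obtain ⟨x00, x01, x02, x03, x04, x10, x11, x12, x13, x20, x21, x22, x30, x31, x40⟩ := hx
  obtain ⟨y00, y01, y02, y03, y04, y10, y11, y12, y13, y20, y21, y22, y30, y31, y40⟩ := hy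
  have h0 := enc_one x00
  have key : ∀ a b (d : ℕ), a + b ≤ 4 → (d : ℝ) = 84 * 3 ^ (a + a % 2) * 27 ^ b →
      |X a b - (F a b + G a b + (if a = 0 ∧ b = 0 then 1 else 0))| * 1099511627776 ≤ d := by
    intro a b d h hd
    have := hX a b h
    rw [hTl, ← hd, le_div_iff₀ (by norm_num)] at this
    exact this
  have k01 := key 0 1 2268 (by norm_num) (by norm_num)
  have k02 := key 0 2 61236 (by norm_num) (by norm_num)
  have k03 := key 0 3 1653372 (by norm_num) (by norm_num)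
  have k04 := key 0 4 44641044 (by norm_num) (by norm_num)
  have k10 := key 1 0 756 (by norm_num) (by norm_num)
  have k11 := key 1 1 20412 (by norm_num) (by norm_num)
  have k12 := key 1 2 551124 (by norm_num) (by norm_num)
  have k13 := key 1 3 14880348 (by norm_num) (by norm_num)
  have k20 := key 2 0 756 (by norm_num) (by norm_num)
  have k21 := key 2 1 20412 (by norm_num) (by norm_num)
  have k22 := key 2 2 551124 (by norm_num) (by norm_num)
  have k30 := key 3 0 6804 (by norm_num) (by norm_num)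
  have k31 := key 3 1 183708 (by norm_num) (by norm_num)
  have k40 := key 4 0 6804 (by norm_num) (by norm_num)
  have k00 := key 0 0 84 (by norm_num) (by norm_num)
  simp only [OfNat.ofNat_ne_zero, one_ne_zero, and_false, false_and, if_false,
    add_zero, and_self, if_true] at k00 k01 k02 k03 k04 k10 k11 k12 k13 k20 k21 k22 k30 k31 k40
  unfold vadd
  refine ⟨enc_fat (enc_add (enc_add x00 y00) h0) k00, enc_fat (enc_add x01 y01) k01,
    enc_fat (enc_add x02 y02) k02, enc_fat (enc_add x03 y03) k03, enc_fat (enc_add x04 y04) k04,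
    enc_fat (enc_add x10 y10) k10, enc_fat (enc_add x11 y11) k11, enc_fat (enc_add x12 y12) k12,
    enc_fat (enc_add x13 y13) k13, enc_fat (enc_add x20 y20) k20, enc_fat (enc_add x21 y21) k21,
    enc_fat (enc_add x22 y22) k22, enc_fat (enc_add x30 y30) k30, enc_fat (enc_add x31 y31) k31,
    enc_fat (enc_add x40 y40) k40⟩

theorem enc_theta (κ : ℕ) {c1 c2 u2 w w2 w3 w4 e1 e2 : TM} {u v c W : ℝ} {X : ℕ → ℕ → ℝ}
    (hc : Enc c1 u v c) (hc2 : Enc c2 u v (2 * c ^ 2 - 1)) (hu2 : Enc u2 u v (2 * c))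
    (hw : Enc w u v W) (hw2 : Enc w2 u v (W ^ 2)) (hw3 : Enc w3 u v (W ^ 3))
    (hw4 : Enc w4 u v (W ^ 4)) (h1 : Enc e1 u v (Real.exp (-(κ * W))))
    (h2 : Enc e2 u v (Real.exp (-(4 * κ * W))))
    (hX : ∀ a b, a + b ≤ 4 → |X a b - hM κ a b c W| ≤ hTl a b) :
    EncV (theta κ c1 c2 u2 w w2 w3 w4 e1 e2) u v X := by
  unfold theta
  refine enc_vadd (enc_harm 1 (y := κ * W) (EC := 2 * (Real.exp (-(κ * W)) * c))
      (EU := 2 * Real.exp (-(κ * W))) ?_ ?_ ?_ ?_ ?_ ?_)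
    (enc_harm 2 (y := 4 * κ * W) (EC := 2 * (Real.exp (-(4 * κ * W)) * (2 * c ^ 2 - 1)))
      (EU := 2 * (Real.exp (-(4 * κ * W)) * (2 * c))) ?_ ?_ ?_ ?_ ?_ ?_) ?_
  · exact enc_nsm κ hw
  · exact enc_of (enc_nsm _ hw2) (by push_cast; ring)
  · exact enc_of (enc_nsm _ hw3) (by push_cast; ring)
  · exact enc_of (enc_nsm _ hw4) (by push_cast; ring)
  · exact enc_of (enc_nsm _ (enc_mul h1 hc)) (by push_cast; ring)
  · exact enc_of (enc_nsm _ h1) (by push_cast; ring)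
  · exact enc_of (enc_nsm _ hw) (by push_cast; ring)
  · exact enc_of (enc_nsm _ hw2) (by push_cast; ring)
  · exact enc_of (enc_nsm _ hw3) (by push_cast; ring)
  · exact enc_of (enc_nsm _ hw4) (by push_cast; ring)
  · exact enc_of (enc_nsm _ (enc_mul h2 hc2)) (by push_cast; ring)
  · exact enc_of (enc_nsm _ (enc_mul h2 hu2)) (by push_cast; ring)
  · intro a b hab
    refine le_trans (le_of_eq ?_) (hX a b hab)
    congr 2
    unfold hM hv hB hC hU
    rcases Nat.even_or_odd a with he | ho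
    · have : a % 2 = 0 := Nat.even_iff.1 he
      simp only [this, if_true]
      norm_num
      ring
    · have : a % 2 = 1 := Nat.odd_iff.1 ho
      simp only [this]
      norm_num
      ring

theorem enc_num {u v : ℝ} (hu : |u| ≤ 1) (hv : |v| ≤ 1) (n e : ℕ) (q : ℝ)
    (h : |q * 1099511627776 - n| ≤ e) : Enc (TM.mk n 0 0 0 0 0 e) u v q := by
  unfold Enc
  refine ⟨hu, hv, ?_⟩
  simpa using h

theorem enc_uv {t : TM} {u v f : ℝ} (h : Enc t u v f) : |u| ≤ 1 ∧ |v| ≤ 1 := by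
  unfold Enc at h
  exact ⟨h.1, h.2.1⟩

theorem enc_tSp {t : TM} {u v T : ℝ} (h : Enc t u v T) : Enc (tSp t) u v (tS T) := by
  obtain ⟨hu, hv⟩ := enc_uv h
  have h1 := enc_one h
  have a1 : Enc (TM.mk 183251937963 0 0 0 0 0 1) u v (1 / 6) :=
    enc_num hu hv _ _ _ (by rw [abs_le]; constructor <;> norm_num)
  have a2 : Enc (TM.mk 9162596898 0 0 0 0 0 1) u v (1 / 120) :=
    enc_num hu hv _ _ _ (by rw [abs_le]; constructor <;> norm_num)
  have a3 : Enc (TM.mk 218157069 0 0 0 0 0 1) u v (1 / 5040) :=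
    enc_num hu hv _ _ _ (by rw [abs_le]; constructor <;> norm_num)
  have a4 : Enc (TM.mk 3029959 0 0 0 0 0 1) u v (1 / 362880) :=
    enc_num hu hv _ _ _ (by rw [abs_le]; constructor <;> norm_num)
  have a5 : Enc (TM.mk 27545 0 0 0 0 0 1) u v (1 / 39916800) :=
    enc_num hu hv _ _ _ (by rw [abs_le]; constructor <;> norm_num)
  unfold tSp tS
  exact enc_add h1 (enc_mul h (enc_add a1 (enc_mul h (enc_add a2 (enc_mul h (enc_add a3
    (enc_mul h (enc_add a4 (enc_mul h a5)))))))))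

theorem enc_tCp {t : TM} {u v T : ℝ} (h : Enc t u v T) : Enc (tCp t) u v (tC T) := by
  obtain ⟨hu, hv⟩ := enc_uv h
  have h1 := enc_one h
  have a1 : Enc (TM.mk 549755813888 0 0 0 0 0 0) u v (1 / 2) :=
    enc_num hu hv _ _ _ (by rw [abs_le]; constructor <;> norm_num)
  have a2 : Enc (TM.mk 45812984491 0 0 0 0 0 1) u v (1 / 24) :=
    enc_num hu hv _ _ _ (by rw [abs_le]; constructor <;> norm_num)
  have a3 : Enc (TM.mk 1527099483 0 0 0 0 0 1) u v (1 / 720) :=
    enc_num hu hv _ _ _ (by rw [abs_le]; constructor <;> norm_num)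
  have a4 : Enc (TM.mk 27269634 0 0 0 0 0 1) u v (1 / 40320) :=
    enc_num hu hv _ _ _ (by rw [abs_le]; constructor <;> norm_num)
  have a5 : Enc (TM.mk 302996 0 0 0 0 0 1) u v (1 / 3628800) :=
    enc_num hu hv _ _ _ (by rw [abs_le]; constructor <;> norm_num)
  unfold tCp tC
  exact enc_add h1 (enc_mul h (enc_add a1 (enc_mul h (enc_add a2 (enc_mul h (enc_add a3
    (enc_mul h (enc_add a4 (enc_mul h a5)))))))))

theorem enc_quarter {l : TM} {u v L : ℝ} (h : Enc l u v L) :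
    Enc (mul (sq l) (TM.mk 274877906944 0 0 0 0 0 0)) u v (L ^ 2 / 4) := by
  obtain ⟨hu, hv⟩ := enc_uv h
  have a1 : Enc (TM.mk 274877906944 0 0 0 0 0 0) u v (1 / 4) :=
    enc_num hu hv _ _ _ (by rw [abs_le]; constructor <;> norm_num)
  exact enc_of (enc_mul (enc_sq h) a1) (by ring)

theorem enc_bS {l : TM} {u v L S : ℝ} (h : Enc l u v L)
    (hS : |S - tS (L ^ 2 / 4)| ≤ 80 / 1099511627776) : Enc (bS l) u v S := by
  unfold bS
  refine enc_fat (enc_tSp (enc_quarter h)) ?_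
  rw [le_div_iff₀ (by norm_num)] at hS
  simpa using hS

theorem enc_bC {l : TM} {u v L C : ℝ} (h : Enc l u v L)
    (hC : |C - tC (L ^ 2 / 4)| ≤ 1000 / 1099511627776) : Enc (bC l) u v C := by
  unfold bC
  refine enc_fat (enc_tCp (enc_quarter h)) ?_
  rw [le_div_iff₀ (by norm_num)] at hC
  simpa using hC

theorem enc_dC {C : TM} {u v c : ℝ} (h : Enc C u v c) : Enc (dC C) u v (2 * (c * c) - 1) := by
  unfold dC
  exact enc_of (enc_sub (enc_nsm 2 (enc_sq h)) (enc_one h)) (by push_cast; ring)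

theorem enc_sqexp {t : TM} {u v a : ℝ} (h : Enc t u v (Real.exp a)) :
    Enc (sq t) u v (Real.exp (2 * a)) :=
  enc_of (enc_sq h) (by rw [two_mul, Real.exp_add])

theorem enc_ex0 {u v : ℝ} (hu : |u| ≤ 1) (hv : |v| ≤ 1) (x0 : ℕ) (hx : x0 ≤ 23089744183296) :
    Enc (ex0 x0) u v (Real.exp (-((x0 : ℝ) / 1099511627776))) := by
  set X : ℝ := (x0 : ℝ) / 1099511627776 / 256 with hX
  have hX0 : 0 ≤ X := by positivity
  have hX1 : X ≤ 21 / 256 := by
    rw [hX]
    have : (x0 : ℝ) ≤ 23089744183296 := by exact_mod_cast hx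
    rw [div_div, div_le_iff₀ (by norm_num)]
    linarith
  have hz : Enc (TM.mk (Nat.shiftRight x0 8) 0 0 0 0 0 1) u v X := by
    refine enc_num hu hv _ _ _ ?_
    have h1 := shr_le x0 8
    have h2 := shr_ge x0 8
    have h3 : X * 1099511627776 = (x0 : ℝ) / 2 ^ 8 := by rw [hX]; field_simp; norm_num
    rw [h3, abs_le]
    push_cast
    constructor <;> linarith
  have h1 := enc_one hz
  have a1 : Enc (TM.mk 549755813888 0 0 0 0 0 0) u v (1 / 2) :=
    enc_num hu hv _ _ _ (by rw [abs_le]; constructor <;> norm_num)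
  have a2 : Enc (TM.mk 183251937963 0 0 0 0 0 1) u v (1 / 6) :=
    enc_num hu hv _ _ _ (by rw [abs_le]; constructor <;> norm_num)
  have a3 : Enc (TM.mk 45812984491 0 0 0 0 0 1) u v (1 / 24) :=
    enc_num hu hv _ _ _ (by rw [abs_le]; constructor <;> norm_num)
  have a4 : Enc (TM.mk 9162596898 0 0 0 0 0 1) u v (1 / 120) :=
    enc_num hu hv _ _ _ (by rw [abs_le]; constructor <;> norm_num)
  have a5 : Enc (TM.mk 1527099483 0 0 0 0 0 1) u v (1 / 720) :=
    enc_num hu hv _ _ _ (by rw [abs_le]; constructor <;> norm_num)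
  have hp := enc_sub h1 (enc_mul hz (enc_sub h1 (enc_mul hz (enc_sub a1 (enc_mul hz (enc_sub a2
    (enc_mul hz (enc_sub a3 (enc_mul hz (enc_sub a4 (enc_mul hz a5)))))))))))
  have hb := Real.exp_bound (x := -X) (by rw [abs_neg, abs_of_nonneg hX0]; linarith) (n := 7)
    (by norm_num)
  rw [abs_neg, abs_of_nonneg hX0] at hb
  have hpow : X ^ 7 ≤ (21 / 256) ^ 7 := pow_le_pow_left₀ hX0 hX1 7
  have hq := enc_fat (d := 10) (g := Real.exp (-X)) hp (by
    have e : Real.exp (-X) - (1 - X * (1 - X * (1 / 2 - X * (1 / 6 - X * (1 / 24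
        - X * (1 / 120 - X * (1 / 720))))))) = Real.exp (-X)
        - ∑ m ∈ Finset.range 7, (-X) ^ m / (m.factorial : ℝ) := by
      simp only [Finset.sum_range_succ, Finset.sum_range_zero, Nat.factorial]
      push_cast
      ring
    rw [e]
    have hb2 : X ^ 7 * (((7 : ℕ).succ : ℝ) / (((7 : ℕ).factorial : ℝ) * ((7 : ℕ) : ℝ)))
        ≤ (21 / 256) ^ 7 * (((7 : ℕ).succ : ℝ) / (((7 : ℕ).factorial : ℝ) * ((7 : ℕ) : ℝ))) :=
      mul_le_mul_of_nonneg_right hpow (by positivity)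
    have hb3 := hb.trans hb2
    have hb4 : (21 / 256 : ℝ) ^ 7 * (((7 : ℕ).succ : ℝ) / (((7 : ℕ).factorial : ℝ) * ((7 : ℕ) : ℝ)))
        * 1099511627776 ≤ 10 := by
      norm_num [Nat.factorial]
    calc _ ≤ _ := mul_le_mul_of_nonneg_right hb3 (by norm_num)
      _ ≤ ((10 : ℕ) : ℝ) := by push_cast at hb4 ⊢; linarith)
  have hfin := enc_sqexp (enc_sqexp (enc_sqexp (enc_sqexp (enc_sqexp (enc_sqexp (enc_sqexp
    (enc_sqexp hq)))))))
  unfold ex0
  refine enc_of hfin ?_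
  congr 1
  rw [hX]
  ring

theorem enc_ex1 {d : TM} {u v D : ℝ} (h : Enc d u v D) (hr : rad d ≤ 1099511627776)
    (h0 : d.cp = 0) (h0' : d.cn = 0) :
    Enc (ex1 d) u v (6 * Real.exp (-D)) := by
  have hD : |D| * 1099511627776 ≤ rad d := by
    have hh := h
    unfold Enc at hh
    obtain ⟨hu, hv, hh⟩ := hh
    rw [h0, h0'] at hh
    have hRr : (rad d : ℝ) = ((d.ap : ℝ) + d.an) + (d.bp + d.bn) + d.e := by
      rw [rad]; simp only [Nat.add_eq, Nat.cast_add]
    have bl := abs_lin (A := (d.ap : ℝ) - d.an) (B := (d.bp : ℝ) - d.bn) hu hv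
      (abs_nat_sub _ _) (abs_nat_sub _ _)
    have e : D * 1099511627776 = (D * 1099511627776 - ((((0 : ℕ) : ℝ) - ((0 : ℕ) : ℝ))
      + ((d.ap : ℝ) - d.an) * u + ((d.bp : ℝ) - d.bn) * v))
      + (((d.ap : ℝ) - d.an) * u + ((d.bp : ℝ) - d.bn) * v) := by push_cast; ring
    have h7 : |D| * 1099511627776 = |D * 1099511627776| := by
      rw [abs_mul]; norm_num
    rw [h7, e]
    refine (abs_add_le _ _).trans ?_
    linarith
  have hr' : (rad d : ℝ) ≤ 1099511627776 := by exact_mod_cast hr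
  have hD1 : |D| ≤ 1 := by linarith
  have hb := Real.exp_bound (x := -D) (by rw [abs_neg]; exact hD1) (n := 4) (by norm_num)
  rw [abs_neg] at hb
  have hd2 := enc_sq h
  have hp := enc_sub (enc_add (enc_nsm 6 (enc_one h)) (enc_nsm 3 hd2))
    (enc_add (enc_nsm 6 h) (enc_mul h hd2))
  have hpow : (|D| * 1099511627776) ^ 4 ≤ (rad d : ℝ) ^ 4 :=
    pow_le_pow_left₀ (by positivity) hD 4
  have hs := shr_le (Nat.mul 5 (Nat.mul (Nat.mul (rad d) (rad d)) (Nat.mul (rad d) (rad d)))) 124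
  unfold ex1
  refine enc_fat hp ?_
  have e : 6 * Real.exp (-D) - ((((6 : ℕ) : ℝ) * 1 + ((3 : ℕ) : ℝ) * (D * D))
      - (((6 : ℕ) : ℝ) * D + D * (D * D))) = 6 * (Real.exp (-D)
      - ∑ m ∈ Finset.range 4, (-D) ^ m / (m.factorial : ℝ)) := by
    simp only [Finset.sum_range_succ, Finset.sum_range_zero, Nat.factorial]
    push_cast
    ring
  rw [e, abs_mul, abs_of_pos (by norm_num : (0 : ℝ) < 6), cast_nadd]
  have hcast : ((Nat.mul 5 (Nat.mul (Nat.mul (rad d) (rad d)) (Nat.mul (rad d) (rad d))) : ℕ) : ℝ)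
      = 5 * ((rad d : ℝ) * rad d * (rad d * rad d)) := by
    simp only [Nat.mul_eq, Nat.cast_mul, Nat.cast_ofNat]
  rw [hcast] at hs
  have h124 : (2 : ℝ) ^ 124 = 21267647932558653966460912964485513216 := by norm_num
  rw [h124] at hs
  have hf : |D| ^ 4 * (((4 : ℕ).succ : ℝ) / (((4 : ℕ).factorial : ℝ) * ((4 : ℕ) : ℝ)))
      = 5 / 96 * |D| ^ 4 := by
    norm_num [Nat.factorial]; ring
  rw [hf] at hb
  have hb2 : 6 * |Real.exp (-D) - ∑ m ∈ Finset.range 4, (-D) ^ m / (m.factorial : ℝ)|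
      * 1099511627776 ≤ 5 * ((rad d : ℝ) * rad d * (rad d * rad d))
        / 21267647932558653966460912964485513216 := by
    rw [le_div_iff₀ (by norm_num)]
    have e2 : (|D| * 1099511627776) ^ 4 = |D| ^ 4 * 1099511627776 ^ 4 := by ring
    rw [e2] at hpow
    nlinarith [hb, hpow]
  push_cast
  linarith

theorem enc_exw {w : TM} {u v W : ℝ} (h : Enc w u v W) (hr : rad w ≤ 1099511627776)
    (h0 : w.cn = 0) (hw : w.cp ≤ 23089744183296) : Enc (exw w) u v (Real.exp (-W)) := by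
  obtain ⟨hu, hv⟩ := enc_uv h
  have a2 : Enc (TM.mk 183251937963 0 0 0 0 0 1) u v (1 / 6) :=
    enc_num hu hv _ _ _ (by rw [abs_le]; constructor <;> norm_num)
  have hd : Enc (TM.mk 0 0 w.ap w.an w.bp w.bn w.e) u v (W - (w.cp : ℝ) / 1099511627776) := by
    unfold Enc at h ⊢
    refine ⟨hu, hv, ?_⟩
    have := h.2.2
    rw [h0] at this
    refine le_trans (le_of_eq ?_) this
    congr 1
    push_cast
    ring
  have h1 := enc_ex1 hd hr rfl rfl
  have h2 := enc_ex0 hu hv w.cp hw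
  unfold exw
  refine enc_of (enc_mul (enc_mul h2 a2) h1) ?_
  have e : Real.exp (-W) = Real.exp (-((w.cp : ℝ) / 1099511627776))
      * Real.exp (-(W - (w.cp : ℝ) / 1099511627776)) := by
    rw [← Real.exp_add]; congr 1; ring
  rw [e]
  ring

theorem enc_f3 {C z1 z2 : TM} {u v c s1 s2 : ℝ} (hC : Enc C u v c) (h1 : Enc z1 u v s1)
    (h2 : Enc z2 u v s2) : Enc (f3 C z1 z2) u v (2 * (c * (s2 * s1))) := by
  unfold f3
  exact enc_of (enc_nsm 2 (enc_mul hC (enc_mul h2 h1))) (by push_cast; ring)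

theorem enc_f4 {C z2 : TM} {u v c s2 : ℝ} (hC : Enc C u v c)
    (h2 : Enc z2 u v s2) : Enc (f4 C z2) u v (2 * ((2 * (c * c) + 1) * (s2 * s2))) := by
  unfold f4
  exact enc_of (enc_nsm 2 (enc_mul (enc_add (enc_nsm 2 (enc_sq hC)) (enc_one hC)) (enc_sq h2)))
    (by push_cast; ring)

theorem pi_sq_half : |Real.pi ^ 2 / 2 * 1099511627776 - ((5425872400273 : ℕ) : ℝ)|
    ≤ ((1 : ℕ) : ℝ) := by
  have h1 := Real.pi_gt_d20
  have h2 := Real.pi_lt_d20
  rw [abs_le]
  push_cast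
  constructor <;> nlinarith [h1, h2, Real.pi_pos]

theorem pi_sq_14 : |Real.pi ^ 2 / 14 * 1099511627776 - ((775124628610 : ℕ) : ℝ)|
    ≤ ((1 : ℕ) : ℝ) := by
  have h1 := Real.pi_gt_d20
  have h2 := Real.pi_lt_d20
  rw [abs_le]
  push_cast
  constructor <;> nlinarith [h1, h2, Real.pi_pos]

/-- soundness of `box` -/
theorem enc_box (hTH : ST_HNTH) (hBB : ST_HNBB) {l c : TM} {u v L θ : ℝ} (hl : Enc l u v L)
    (hc : Enc c u v (Real.cos θ)) (hL1 : L < 37 / 20) (h : box l c = true) :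
    (tenH L θ).Cond := by
  obtain ⟨hu, hv⟩ := enc_uv hl
  unfold box at h
  obtain ⟨p0, h⟩ := and_iff h
  obtain ⟨p1, h⟩ := and_iff h
  obtain ⟨p2, h⟩ := and_iff h
  obtain ⟨p3, h⟩ := and_iff h
  obtain ⟨p4, h⟩ := and_iff h
  obtain ⟨p5, h⟩ := and_iff h
  obtain ⟨p6, h⟩ := and_iff h
  obtain ⟨p2a, p2b⟩ := and_iff p2
  obtain ⟨hL0, hli⟩ := enc_inv hl p0
  have a1 : Enc (TM.mk 5425872400273 0 0 0 0 0 1) u v (Real.pi ^ 2 / 2) :=
    enc_num hu hv _ _ _ pi_sq_half
  have a2 : Enc (TM.mk 775124628610 0 0 0 0 0 1) u v (Real.pi ^ 2 / 14) :=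
    enc_num hu hv _ _ _ pi_sq_14
  have hw := enc_mul a1 hli
  have hμ := enc_mul a2 hli
  generalize hWd : Real.pi ^ 2 / 2 * L⁻¹ = W at hw
  have hW : Real.pi ^ 2 / (2 * L) = W := by rw [← hWd]; field_simp
  generalize mul (TM.mk 5425872400273 0 0 0 0 0 1) (inv l) = w at *
  generalize mul (TM.mk 775124628610 0 0 0 0 0 1) (inv l) = mu at *
  have q1 := enc_exw hw (Nat.le_of_ble_eq_true p2a) (Nat.eq_of_beq_eq_true p1)
    (Nat.le_of_ble_eq_true p2b)
  generalize exw w = e1 at *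
  have q2 := enc_sqexp q1
  have q4 := enc_sqexp q2
  have q8 := enc_sqexp q4
  have q16 := enc_sqexp q8
  have hcc := enc_sq hc
  have hc2 : Enc (sub (nsm 2 (sq c)) one) u v (2 * Real.cos θ ^ 2 - 1) :=
    enc_of (enc_sub (enc_nsm 2 hcc) (enc_one hc)) (by push_cast; ring)
  have hs2 : Enc (sub one (sq c)) u v (Real.sin θ ^ 2) :=
    enc_of (enc_sub (enc_one hc) hcc) (by rw [Real.sin_sq]; ring)
  have hu2 : Enc (nsm 2 c) u v (2 * Real.cos θ) := enc_of (enc_nsm 2 hc) (by push_cast; ring)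
  have hw2 : Enc (sq w) u v (W ^ 2) := enc_of (enc_sq hw) (by ring)
  have hw3 : Enc (mul (sq w) w) u v (W ^ 3) := enc_of (enc_mul hw2 hw) (by ring)
  have hw4 : Enc (sq (sq w)) u v (W ^ 4) := enc_of (enc_sq hw2) (by ring)
  obtain ⟨S, C, hS, hC, hSpos, b2, b3, b4, hrest⟩ := hBB L hL0 hL1
  obtain ⟨hS4pos, b2', b3', b4'⟩ := hrest _ _ _ rfl rfl rfl
  have eS := enc_bS hl hS
  have eC := enc_bC hl hC
  generalize bS l = tS' at *
  generalize bC l = tC' at *
  have eC2 := enc_dC eC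
  have eS4 := enc_mul (enc_mul eS eC) eC2
  have eC4 := enc_dC eC2
  generalize dC tC' = tC2 at *
  generalize dC tC2 = tC4 at *
  generalize mul (mul tS' tC') tC2 = tS4 at *
  obtain ⟨-, z2⟩ := enc_inv (enc_sq eS) p5
  obtain ⟨-, z1⟩ := enc_inv eS p3
  obtain ⟨-, y2⟩ := enc_inv (enc_sq eS4) p6
  obtain ⟨-, y1⟩ := enc_inv eS4 p4
  have f2 := enc_add (enc_nsm 5 z2) (enc_nsm 7 y2)
  have f3 := enc_add (enc_nsm 5 (enc_f3 eC z1 z2)) (enc_nsm 7 (enc_f3 eC4 y1 y2))
  have f4 := enc_add (enc_nsm 5 (enc_f4 eC z2)) (enc_nsm 7 (enc_f4 eC4 y2))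
  have t1 := fun a b hab => hTH 1 4 (by norm_num) L θ hL0 hL1 a b hab
  have t2 := fun a b hab => hTH 2 2 (by norm_num) L θ hL0 hL1 a b hab
  have t4 := fun a b hab => hTH 4 1 (by norm_num) L θ hL0 hL1 a b hab
  rw [hW] at t1 t2 t4
  choose! r1 h1 h1' using t1
  choose! r2 h2 h2' using t2
  choose! r4 h4 h4' using t4
  refine enc_chk (r := Real.sqrt (Real.pi ^ 2 / (14 * L))) (s := Real.sin θ) (θ := θ)
    (X := fun a b => hM 4 a b (Real.cos θ) W + r1 a b)
    (Y := fun a b => hM 2 a b (Real.cos θ) W + r2 a b)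
    (Z := fun a b => hM 1 a b (Real.cos θ) W + r4 a b) hs2 ?_
    (enc_of f2 (by rw [b2, b2']; push_cast; ring))
    (enc_of f3 (by rw [b3, b3']; push_cast; ring))
    (enc_of f4 (by rw [b4, b4']; push_cast; ring))
    (enc_theta 4 hc hc2 hu2 hw hw2 hw3 hw4 (enc_of q4 (by congr 1; push_cast; ring))
      (enc_of q16 (by congr 1; push_cast; ring)) ?_)
    (enc_theta 2 hc hc2 hu2 hw hw2 hw3 hw4 (enc_of q2 (by congr 1; push_cast; ring))
      (enc_of q8 (by congr 1; push_cast; ring)) ?_)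
    (enc_theta 1 hc hc2 hu2 hw hw2 hw3 hw4 (enc_of q1 (by congr 1; push_cast; ring))
      (enc_of q4 (by congr 1; push_cast; ring)) ?_) ?_ ?_ ?_ h
  · rw [Real.sq_sqrt (by positivity)]
    exact enc_of hμ (by field_simp)
  · intro a b hab
    simpa using h1 a b hab
  · intro a b hab
    simpa using h2 a b hab
  · intro a b hab
    simpa using h4 a b hab
  · intro a b hab
    rw [uH, h1' a b hab]
  · intro a b hab
    rw [uH, h2' a b hab]
  · intro a b hab
    rw [uH, h4' a b hab]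

end HN

end RicP
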