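import Pool.Agent.Helper90.Ric.Calc

/-!
MP_092777_ag: from the frame form of negative orthogonal Ricci curvature to the form with
arbitrary nonzero vectors.
-/

set_option autoImplicit false

open scoped ContDiff Topology
open Complex ComplexConjugate

noncomputable section

namespace RicP

/-- curvature tensor `R(a, b̄, c, d̄)`, computed with the unitary frame `(f₁, f₂)` -/
def Rm (φ : E → ℝ) (p f₁ f₂ a b c d : E) : ℂ :=
  - dz a (dzb b (dz c (dzb d (toC φ)))) p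
    + (dz a (dz c (dzb f₁ (toC φ))) p * conj (dz b (dz d (dzb f₁ (toC φ))) p)
      + dz a (dz c (dzb f₂ (toC φ))) p * conj (dz b (dz d (dzb f₂ (toC φ))) p))

/-- `Ric(v, v̄) - R(v, v̄, v, v̄) / |v|²` -/
def RicPerp (φ : E → ℝ) (p f₁ f₂ v : E) : ℝ :=
  (Rm φ p f₁ f₂ v v f₁ f₁ + Rm φ p f₁ f₂ v v f₂ f₂).re
    - (Rm φ p f₁ f₂ v v v v).re / (levi φ p v v).re

theorem perp_conj_dz (v : E) (f : E → ℂ) (p : E) (hf : DifferentiableAt ℝ f p) :
    conj (dz v f p) = dzb v (fun x => conj (f x)) p := by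
  have h : fderiv ℝ (fun x => conj (f x)) p = (conjCLE : ℂ →L[ℝ] ℂ).comp (fderiv ℝ f p) :=
    ((conjCLE : ℂ →L[ℝ] ℂ).hasFDerivAt.comp p hf.hasFDerivAt).fderiv
  unfold dz dzb
  rw [h]
  have h2 : conj (2 : ℂ) = 2 := map_ofNat _ 2
  simp [map_sub, map_mul, h2]

theorem perp_conj_dzb (v : E) (f : E → ℂ) (p : E) (hf : DifferentiableAt ℝ f p) :
    conj (dzb v f p) = dz v (fun x => conj (f x)) p := by
  have h : fderiv ℝ (fun x => conj (f x)) p = (conjCLE : ℂ →L[ℝ] ℂ).comp (fderiv ℝ f p) :=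
    ((conjCLE : ℂ →L[ℝ] ℂ).hasFDerivAt.comp p hf.hasFDerivAt).fderiv
  unfold dz dzb
  rw [h]
  have h2 : conj (2 : ℂ) = 2 := map_ofNat _ 2
  simp [map_mul, sub_eq_add_neg, h2]

theorem perp_levi_conj {U : Set E} (hU : IsOpen U) {φ : E → ℝ} (hφ : ContDiffOn ℝ ∞ φ U) {p : E}
    (hp : p ∈ U) (v w : E) : conj (levi φ p v w) = levi φ p w v := by
  have hc := calc_toC_smooth hφ
  have h1 : ∀ x ∈ U, conj (dzb w (toC φ) x) = dz w (toC φ) x := by
    intro x hx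
    rw [perp_conj_dzb w _ x (calc_diff hU hc hx)]
    congr 1
    funext y
    simp [toC]
  unfold levi
  rw [perp_conj_dz v _ p (calc_diff hU (calc_dzb_smooth hU hc w) hp),
    calc_dzb_congr hU (f := fun x => conj (dzb w (toC φ) x)) (g := dz w (toC φ)) h1 v hp,
    calc_dzb_dz_comm hU hc v w hp]

/-- a unitary frame spans -/
theorem perp_span {U : Set E} (hU : IsOpen U) {φ : E → ℝ} (hφ : ContDiffOn ℝ ∞ φ U) {p : E}
    (hp : p ∈ U) {f₁ f₂ : E} (hf : UnitaryFrame φ p f₁ f₂) (v : E) :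
    ∃ c : Fin 2 → ℂ, v = ∑ k, c k • (![f₁, f₂] : Fin 2 → E) k := by
  obtain ⟨h11, h22, h12⟩ := hf
  have h21 : levi φ p f₂ f₁ = 0 := by
    rw [← perp_levi_conj hU hφ hp f₁ f₂, h12, map_zero]
  have hli : LinearIndependent ℂ (![f₁, f₂] : Fin 2 → E) := by
    rw [Fintype.linearIndependent_iff]
    intro g hg
    have hlev := fun d : Fin 2 → ℂ => calc_levi_frame hU hφ (![f₁, f₂] : Fin 2 → E) g d hp
    have hz : ∀ x : E, dz (0 : E) (dzb x (toC φ)) p = 0 := by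
      intro x
      unfold dz
      simp
    have a1 := hlev (![1, 0] : Fin 2 → ℂ)
    have a2 := hlev (![0, 1] : Fin 2 → ℂ)
    rw [hg] at a1 a2
    rw [hz] at a1 a2
    simp only [Fintype.sum_prod_type, Fin.sum_univ_two, Matrix.cons_val_zero, Matrix.cons_val_one,
      Matrix.cons_val_fin_one, map_one, map_zero, one_mul, zero_mul, add_zero, zero_add] at a1 a2
    change 0 = g 0 * levi φ p f₁ f₁ + g 1 * levi φ p f₂ f₁ at a1
    change 0 = g 0 * levi φ p f₁ f₂ + g 1 * levi φ p f₂ f₂ at a2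
    rw [h11, h21] at a1
    rw [h12, h22] at a2
    intro i
    fin_cases i
    · simpa using a1.symm
    · simpa using a2.symm
  have hcard : Fintype.card (Fin 2) = Module.finrank ℂ E := by
    simp [E, Module.finrank_prod]
  have hspan := hli.span_eq_top_of_card_eq_finrank' hcard
  have hv : v ∈ Submodule.span ℂ (Set.range (![f₁, f₂] : Fin 2 → E)) := by
    rw [hspan]; trivial
  rw [Submodule.mem_span_range_iff_exists_fun] at hv
  obtain ⟨c, hc⟩ := hv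
  exact ⟨c, hc.symm⟩

/-- from unitary frames to arbitrary vectors -/
theorem perp_neg {U : Set E} (hU : IsOpen U) {φ : E → ℝ} (hφ : ContDiffOn ℝ ∞ φ U) {p : E}
    (hp : p ∈ U) (hneg : ∀ e₁ e₂, UnitaryFrame φ p e₁ e₂ → orthBisec φ p e₁ e₂ < 0)
    {f₁ f₂ : E} (hf : UnitaryFrame φ p f₁ f₂) {v : E} (hv : v ≠ 0) :
    RicPerp φ p f₁ f₂ v < 0 := by
  obtain ⟨c, hc⟩ := perp_span hU hφ hp hf v
  obtain ⟨h11, h22, h12⟩ := hf
  have h21 : levi φ p f₂ f₁ = 0 := by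
    rw [← perp_levi_conj hU hφ hp f₁ f₂, h12, map_zero]
  -- the three expansions
  have hL := fun a d : Fin 2 → ℂ => calc_levi_frame hU hφ (![f₁, f₂] : Fin 2 → E) a d hp
  have hT := fun a b d : Fin 2 → ℂ => calc_third_frame hU hφ (![f₁, f₂] : Fin 2 → E) a b d hp
  have hQ := fun a e b d : Fin 2 → ℂ =>
    calc_fourth_frame hU hφ (![f₁, f₂] : Fin 2 → E) a e b d hp
  simp only [Fintype.sum_prod_type, Fin.sum_univ_two, Matrix.cons_val_zero, Matrix.cons_val_one,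
    Matrix.cons_val_fin_one] at hL hT hQ hc
  generalize c 0 = x at hc
  generalize c 1 = y at hc
  have hsym : ∀ d, dz f₂ (dz f₁ (dzb d (toC φ))) p = dz f₁ (dz f₂ (dzb d (toC φ))) p := fun d =>
    calc_dz_comm hU (calc_dzb_smooth hU (calc_toC_smooth hφ) _) _ _ hp
  have hL' : ∀ a0 a1 d0 d1 : ℂ, levi φ p (a0 • f₁ + a1 • f₂) (d0 • f₁ + d1 • f₂)
      = conj d0 * a0 + conj d1 * a1 := by
    intro a0 a1 d0 d1
    have := hL (![a0, a1] : Fin 2 → ℂ) (![d0, d1] : Fin 2 → ℂ)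
    simp only [Matrix.cons_val_zero, Matrix.cons_val_one, Matrix.cons_val_fin_one] at this
    unfold levi at h11 h22 h12 h21 ⊢
    rw [this, h11, h22, h12, h21]
    ring
  have hT' : ∀ a0 a1 b0 b1 d0 d1 : ℂ,
      dz (a0 • f₁ + a1 • f₂) (dz (b0 • f₁ + b1 • f₂) (dzb (d0 • f₁ + d1 • f₂) (toC φ))) p
      = conj d0 * (a0 * b0 * dz f₁ (dz f₁ (dzb f₁ (toC φ))) p
          + (a0 * b1 + a1 * b0) * dz f₁ (dz f₂ (dzb f₁ (toC φ))) p
          + a1 * b1 * dz f₂ (dz f₂ (dzb f₁ (toC φ))) p)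
        + conj d1 * (a0 * b0 * dz f₁ (dz f₁ (dzb f₂ (toC φ))) p
          + (a0 * b1 + a1 * b0) * dz f₁ (dz f₂ (dzb f₂ (toC φ))) p
          + a1 * b1 * dz f₂ (dz f₂ (dzb f₂ (toC φ))) p) := by
    intro a0 a1 b0 b1 d0 d1
    have := hT (![a0, a1] : Fin 2 → ℂ) (![b0, b1] : Fin 2 → ℂ) (![d0, d1] : Fin 2 → ℂ)
    simp only [Matrix.cons_val_zero, Matrix.cons_val_one, Matrix.cons_val_fin_one] at this
    rw [this, hsym, hsym]
    ring
  have hQ' : ∀ a0 a1 e0 e1 b0 b1 d0 d1 : ℂ,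
      dz (a0 • f₁ + a1 • f₂) (dzb (e0 • f₁ + e1 • f₂) (dz (b0 • f₁ + b1 • f₂)
        (dzb (d0 • f₁ + d1 • f₂) (toC φ)))) p
      = conj d0 * b0 * conj e0 * a0 * dz f₁ (dzb f₁ (dz f₁ (dzb f₁ (toC φ)))) p
        + conj d0 * b0 * conj e0 * a1 * dz f₂ (dzb f₁ (dz f₁ (dzb f₁ (toC φ)))) p
        + conj d0 * b0 * conj e1 * a0 * dz f₁ (dzb f₂ (dz f₁ (dzb f₁ (toC φ)))) p
        + conj d0 * b0 * conj e1 * a1 * dz f₂ (dzb f₂ (dz f₁ (dzb f₁ (toC φ)))) p
        + conj d0 * b1 * conj e0 * a0 * dz f₁ (dzb f₁ (dz f₂ (dzb f₁ (toC φ)))) p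
        + conj d0 * b1 * conj e0 * a1 * dz f₂ (dzb f₁ (dz f₂ (dzb f₁ (toC φ)))) p
        + conj d0 * b1 * conj e1 * a0 * dz f₁ (dzb f₂ (dz f₂ (dzb f₁ (toC φ)))) p
        + conj d0 * b1 * conj e1 * a1 * dz f₂ (dzb f₂ (dz f₂ (dzb f₁ (toC φ)))) p
        + conj d1 * b0 * conj e0 * a0 * dz f₁ (dzb f₁ (dz f₁ (dzb f₂ (toC φ)))) p
        + conj d1 * b0 * conj e0 * a1 * dz f₂ (dzb f₁ (dz f₁ (dzb f₂ (toC φ)))) p
        + conj d1 * b0 * conj e1 * a0 * dz f₁ (dzb f₂ (dz f₁ (dzb f₂ (toC φ)))) p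
        + conj d1 * b0 * conj e1 * a1 * dz f₂ (dzb f₂ (dz f₁ (dzb f₂ (toC φ)))) p
        + conj d1 * b1 * conj e0 * a0 * dz f₁ (dzb f₁ (dz f₂ (dzb f₂ (toC φ)))) p
        + conj d1 * b1 * conj e0 * a1 * dz f₂ (dzb f₁ (dz f₂ (dzb f₂ (toC φ)))) p
        + conj d1 * b1 * conj e1 * a0 * dz f₁ (dzb f₂ (dz f₂ (dzb f₂ (toC φ)))) p
        + conj d1 * b1 * conj e1 * a1 * dz f₂ (dzb f₂ (dz f₂ (dzb f₂ (toC φ)))) p := by
    intro a0 a1 e0 e1 b0 b1 d0 d1
    have := hQ (![a0, a1] : Fin 2 → ℂ) (![e0, e1] : Fin 2 → ℂ) (![b0, b1] : Fin 2 → ℂ)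
      (![d0, d1] : Fin 2 → ℂ)
    simp only [Matrix.cons_val_zero, Matrix.cons_val_one, Matrix.cons_val_fin_one] at this
    rw [this]
    ring
  clear hL hT hQ hsym
  have hxy : 0 < normSq x + normSq y := by
    rcases eq_or_ne x 0 with h0 | h0
    · rcases eq_or_ne y 0 with h1 | h1
      · exfalso; apply hv; rw [hc, h0, h1]; simp
      · have := normSq_pos.2 h1
        linarith [normSq_nonneg x]
    · have := normSq_pos.2 h0
      linarith [normSq_nonneg y]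
  set n : ℝ := normSq x + normSq y with hn
  have hnC : (n : ℂ) = conj x * x + conj y * y := by
    rw [hn]; push_cast
    rw [Complex.normSq_eq_conj_mul_self, Complex.normSq_eq_conj_mul_self]
  set r : ℝ := Real.sqrt n with hr
  have hr2 : r ^ 2 = n := Real.sq_sqrt hxy.le
  have hrpos : 0 < r := Real.sqrt_pos.2 hxy
  set s : ℂ := ((r⁻¹ : ℝ) : ℂ) with hs
  have hsc : conj s = s := Complex.conj_ofReal _
  have hsn : s ^ 2 * (n : ℂ) = 1 := by
    rw [hs, ← hr2]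
    push_cast
    have : (r : ℂ) ≠ 0 := by exact_mod_cast hrpos.ne'
    field_simp
  have hfr : UnitaryFrame φ p ((s * x) • f₁ + (s * y) • f₂)
      ((-(s * conj y)) • f₁ + (s * conj x) • f₂) := by
    refine ⟨?_, ?_, ?_⟩
    · rw [hL']
      simp only [map_mul, hsc]
      rw [← hsn, hnC]; ring
    · rw [hL']
      simp only [map_mul, map_neg, hsc, conj_conj]
      rw [← hsn, hnC]; ring
    · rw [hL']
      simp only [map_mul, map_neg, hsc, conj_conj]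
      ring
  have hlt := hneg _ _ hfr
  have hvv : levi φ p v v = (n : ℂ) := by
    rw [hc, hL', hnC]
  have e1 : f₁ = (1 : ℂ) • f₁ + (0 : ℂ) • f₂ := by simp
  have e2 : f₂ = (0 : ℂ) • f₁ + (1 : ℂ) • f₂ := by simp
  have q1 := hQ' x y x y 1 0 1 0
  have q2 := hQ' x y x y 0 1 0 1
  have q3 := hQ' x y x y x y x y
  have t11 := hT' x y 1 0 1 0
  have t12 := hT' x y 1 0 0 1
  have t21 := hT' x y 0 1 1 0
  have t22 := hT' x y 0 1 0 1
  have u1 := hT' x y x y 1 0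
  have u2 := hT' x y x y 0 1
  have w0 := hQ' (s * x) (s * y) (s * x) (s * y) (-(s * conj y)) (s * conj x) (-(s * conj y))
    (s * conj x)
  have w1 := hT' (s * x) (s * y) (-(s * conj y)) (s * conj x) (s * x) (s * y)
  have w2 := hT' (s * x) (s * y) (-(s * conj y)) (s * conj x) (-(s * conj y)) (s * conj x)
  simp only [one_smul, zero_smul, add_zero, zero_add] at q1 q2 t11 t12 t21 t22 u1 u2
  rw [← hc] at q1 q2 q3 t11 t12 t21 t22 u1 u2
  have key : (Rm φ p f₁ f₂ v v f₁ f₁ + Rm φ p f₁ f₂ v v f₂ f₂) - Rm φ p f₁ f₂ v v v v / (n : ℂ)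
      = (n : ℂ) * (- dz ((s * x) • f₁ + (s * y) • f₂) (dzb ((s * x) • f₁ + (s * y) • f₂)
        (dz ((-(s * conj y)) • f₁ + (s * conj x) • f₂)
          (dzb ((-(s * conj y)) • f₁ + (s * conj x) • f₂) (toC φ)))) p
        + dz ((s * x) • f₁ + (s * y) • f₂) (dz ((-(s * conj y)) • f₁ + (s * conj x) • f₂)
            (dzb ((s * x) • f₁ + (s * y) • f₂) (toC φ))) p
          * conj (dz ((s * x) • f₁ + (s * y) • f₂) (dz ((-(s * conj y)) • f₁ + (s * conj x) • f₂)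
            (dzb ((s * x) • f₁ + (s * y) • f₂) (toC φ))) p)
        + dz ((s * x) • f₁ + (s * y) • f₂) (dz ((-(s * conj y)) • f₁ + (s * conj x) • f₂)
            (dzb ((-(s * conj y)) • f₁ + (s * conj x) • f₂) (toC φ))) p
          * conj (dz ((s * x) • f₁ + (s * y) • f₂) (dz ((-(s * conj y)) • f₁ + (s * conj x) • f₂)
            (dzb ((-(s * conj y)) • f₁ + (s * conj x) • f₂) (toC φ))) p)) := by
    have hn0 : (n : ℂ) ≠ 0 := by exact_mod_cast hxy.ne'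
    unfold Rm
    rw [q1, q2, q3, t11, t12, t21, t22, u1, u2, w0, w1, w2]
    simp only [map_mul, map_add, map_neg, hsc, conj_conj, map_one, map_zero]
    generalize dz f₁ (dz f₁ (dzb f₁ (toC φ))) p = T111
    generalize dz f₁ (dz f₂ (dzb f₁ (toC φ))) p = T121
    generalize dz f₂ (dz f₂ (dzb f₁ (toC φ))) p = T221
    generalize dz f₁ (dz f₁ (dzb f₂ (toC φ))) p = T112
    generalize dz f₁ (dz f₂ (dzb f₂ (toC φ))) p = T122
    generalize dz f₂ (dz f₂ (dzb f₂ (toC φ))) p = T222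
    generalize dz f₁ (dzb f₁ (dz f₁ (dzb f₁ (toC φ)))) p = Q1
    generalize dz f₂ (dzb f₁ (dz f₁ (dzb f₁ (toC φ)))) p = Q2
    generalize dz f₁ (dzb f₂ (dz f₁ (dzb f₁ (toC φ)))) p = Q3
    generalize dz f₂ (dzb f₂ (dz f₁ (dzb f₁ (toC φ)))) p = Q4
    generalize dz f₁ (dzb f₁ (dz f₂ (dzb f₁ (toC φ)))) p = Q5
    generalize dz f₂ (dzb f₁ (dz f₂ (dzb f₁ (toC φ)))) p = Q6
    generalize dz f₁ (dzb f₂ (dz f₂ (dzb f₁ (toC φ)))) p = Q7
    generalize dz f₂ (dzb f₂ (dz f₂ (dzb f₁ (toC φ)))) p = Q8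
    generalize dz f₁ (dzb f₁ (dz f₁ (dzb f₂ (toC φ)))) p = Q9
    generalize dz f₂ (dzb f₁ (dz f₁ (dzb f₂ (toC φ)))) p = Q10
    generalize dz f₁ (dzb f₂ (dz f₁ (dzb f₂ (toC φ)))) p = Q11
    generalize dz f₂ (dzb f₂ (dz f₁ (dzb f₂ (toC φ)))) p = Q12
    generalize dz f₁ (dzb f₁ (dz f₂ (dzb f₂ (toC φ)))) p = Q13
    generalize dz f₂ (dzb f₁ (dz f₂ (dzb f₂ (toC φ)))) p = Q14
    generalize dz f₁ (dzb f₂ (dz f₂ (dzb f₂ (toC φ)))) p = Q15
    generalize dz f₂ (dzb f₂ (dz f₂ (dzb f₂ (toC φ)))) p = Q16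
    generalize conj T111 = T111'
    generalize conj T121 = T121'
    generalize conj T221 = T221'
    generalize conj T112 = T112'
    generalize conj T122 = T122'
    generalize conj T222 = T222'
    generalize conj x = x' at *
    generalize conj y = y' at *
    have fin : ∀ A B W Qw S : ℂ, (x' * x + y' * y) * A - B = -Qw + S →
        W = -(s ^ 4 * Qw) + s ^ 6 * ((x' * x + y' * y) * S) → A - B / (n : ℂ) = n * W := by
      intro A B W Qw S h1 h2
      rw [← hnC] at h1 h2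
      have h3 : A - B / (n : ℂ) = (-Qw + S) / n := by
        rw [← h1]; field_simp
      have h4 : (n : ℂ) * W = (-Qw + S) / n := by
        rw [eq_div_iff hn0, h2]
        linear_combination (-(Qw * (s ^ 2 * (n : ℂ) + 1))
          + S * ((s ^ 2 * (n : ℂ)) ^ 2 + s ^ 2 * (n : ℂ) + 1)) * hsn
      rw [h3, h4]
    refine fin _ _ _ (y * y' * (x' * x * Q1 + x' * y * Q2 + y' * x * Q3 + y' * y * Q4)
      - y * x' * (x' * x * Q5 + x' * y * Q6 + y' * x * Q7 + y' * y * Q8)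
      - x * y' * (x' * x * Q9 + x' * y * Q10 + y' * x * Q11 + y' * y * Q12)
      + x * x' * (x' * x * Q13 + x' * y * Q14 + y' * x * Q15 + y' * y * Q16))
      ((-(x * y' * T111) + (x * x' - y * y') * T121 + y * x' * T221)
        * (-(x' * y * T111') + (x * x' - y * y') * T121' + y' * x * T221')
       + (-(x * y' * T112) + (x * x' - y * y') * T122 + y * x' * T222)
        * (-(x' * y * T112') + (x * x' - y * y') * T122' + y' * x * T222')) ?_ ?_
    · ring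
    · ring
  have hre : RicPerp φ p f₁ f₂ v = ((Rm φ p f₁ f₂ v v f₁ f₁ + Rm φ p f₁ f₂ v v f₂ f₂)
      - Rm φ p f₁ f₂ v v v v / (n : ℂ)).re := by
    unfold RicPerp
    rw [hvv, Complex.ofReal_re, Complex.sub_re, Complex.div_ofReal_re]
  rw [hre, key, Complex.re_ofReal_mul]
  refine mul_neg_of_pos_of_neg hxy ?_
  unfold orthBisec at hlt
  refine lt_of_eq_of_lt ?_ hlt
  rw [Complex.add_re, Complex.add_re, Complex.neg_re, Complex.mul_conj, Complex.mul_conj,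
    Complex.ofReal_re, Complex.ofReal_re, Complex.sq_norm, Complex.sq_norm]

end RicP
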