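import Mathlib

/-!
MP_092777_ag: affine (Taylor model) arithmetic with natural numbers, for kernel evaluation.
A number `f` depending on `|u|, |v| ≤ 1` is enclosed by `c + a u + b v ± e`, all in units of
`2⁻⁴⁰`; a signed number is a difference `p - n` of two natural numbers.
-/

set_option autoImplicit false

namespace RicP

structure TM where
  cp : Nat
  cn : Nat
  ap : Nat
  an : Nat
  bp : Nat
  bn : Nat
  e : Nat

namespace TM

/-- `t` encloses `f` -/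
def Enc (t : TM) (u v f : ℝ) : Prop :=
  |u| ≤ 1 ∧ |v| ≤ 1 ∧
    |f * 1099511627776 - (((t.cp : ℝ) - t.cn) + ((t.ap : ℝ) - t.an) * u
      + ((t.bp : ℝ) - t.bn) * v)| ≤ t.e

def add (x y : TM) : TM :=
  TM.mk (Nat.sub (Nat.add x.cp y.cp) (Nat.add x.cn y.cn))
    (Nat.sub (Nat.add x.cn y.cn) (Nat.add x.cp y.cp))
    (Nat.sub (Nat.add x.ap y.ap) (Nat.add x.an y.an))
    (Nat.sub (Nat.add x.an y.an) (Nat.add x.ap y.ap))
    (Nat.sub (Nat.add x.bp y.bp) (Nat.add x.bn y.bn))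
    (Nat.sub (Nat.add x.bn y.bn) (Nat.add x.bp y.bp))
    (Nat.add x.e y.e)

def sub (x y : TM) : TM :=
  TM.mk (Nat.sub (Nat.add x.cp y.cn) (Nat.add x.cn y.cp))
    (Nat.sub (Nat.add x.cn y.cp) (Nat.add x.cp y.cn))
    (Nat.sub (Nat.add x.ap y.an) (Nat.add x.an y.ap))
    (Nat.sub (Nat.add x.an y.ap) (Nat.add x.ap y.an))
    (Nat.sub (Nat.add x.bp y.bn) (Nat.add x.bn y.bp))
    (Nat.sub (Nat.add x.bn y.bp) (Nat.add x.bp y.bn))
    (Nat.add x.e y.e)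

def neg (x : TM) : TM := TM.mk x.cn x.cp x.an x.ap x.bn x.bp x.e

/-- multiplication by a natural number -/
def nsm (k : Nat) (x : TM) : TM :=
  TM.mk (Nat.mul k x.cp) (Nat.mul k x.cn) (Nat.mul k x.ap) (Nat.mul k x.an) (Nat.mul k x.bp)
    (Nat.mul k x.bn) (Nat.mul k x.e)

/-- the constant `k` -/
def cst (k : Nat) : TM := TM.mk (Nat.mul k 1099511627776) 0 0 0 0 0 0

/-- enlarge the error -/
def fat (x : TM) (d : Nat) : TM := TM.mk x.cp x.cn x.ap x.an x.bp x.bn (Nat.add x.e d)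

def mul (x y : TM) : TM :=
  TM.mk
   (Nat.shiftRight (Nat.sub (Nat.add (Nat.mul x.cp y.cp) (Nat.mul x.cn y.cn))
     (Nat.add (Nat.mul x.cp y.cn) (Nat.mul x.cn y.cp))) 40)
   (Nat.shiftRight (Nat.sub (Nat.add (Nat.mul x.cp y.cn) (Nat.mul x.cn y.cp))
     (Nat.add (Nat.mul x.cp y.cp) (Nat.mul x.cn y.cn))) 40)
   (Nat.shiftRight (Nat.sub
     (Nat.add (Nat.add (Nat.mul x.cp y.ap) (Nat.mul x.cn y.an))
       (Nat.add (Nat.mul x.ap y.cp) (Nat.mul x.an y.cn)))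
     (Nat.add (Nat.add (Nat.mul x.cp y.an) (Nat.mul x.cn y.ap))
       (Nat.add (Nat.mul x.ap y.cn) (Nat.mul x.an y.cp)))) 40)
   (Nat.shiftRight (Nat.sub
     (Nat.add (Nat.add (Nat.mul x.cp y.an) (Nat.mul x.cn y.ap))
       (Nat.add (Nat.mul x.ap y.cn) (Nat.mul x.an y.cp)))
     (Nat.add (Nat.add (Nat.mul x.cp y.ap) (Nat.mul x.cn y.an))
       (Nat.add (Nat.mul x.ap y.cp) (Nat.mul x.an y.cn)))) 40)
   (Nat.shiftRight (Nat.sub
     (Nat.add (Nat.add (Nat.mul x.cp y.bp) (Nat.mul x.cn y.bn))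
       (Nat.add (Nat.mul x.bp y.cp) (Nat.mul x.bn y.cn)))
     (Nat.add (Nat.add (Nat.mul x.cp y.bn) (Nat.mul x.cn y.bp))
       (Nat.add (Nat.mul x.bp y.cn) (Nat.mul x.bn y.cp)))) 40)
   (Nat.shiftRight (Nat.sub
     (Nat.add (Nat.add (Nat.mul x.cp y.bn) (Nat.mul x.cn y.bp))
       (Nat.add (Nat.mul x.bp y.cn) (Nat.mul x.bn y.cp)))
     (Nat.add (Nat.add (Nat.mul x.cp y.bp) (Nat.mul x.cn y.bn))
       (Nat.add (Nat.mul x.bp y.cp) (Nat.mul x.bn y.cn)))) 40)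
   (Nat.add (Nat.shiftRight (Nat.add
     (Nat.mul (Nat.add (Nat.add x.ap x.an) (Nat.add x.bp x.bn))
       (Nat.add (Nat.add y.ap y.an) (Nat.add y.bp y.bn)))
     (Nat.add (Nat.mul x.e (Nat.add (Nat.add (Nat.add y.cp y.cn) y.e)
         (Nat.add (Nat.add y.ap y.an) (Nat.add y.bp y.bn))))
      (Nat.mul y.e (Nat.add (Nat.add x.cp x.cn)
         (Nat.add (Nat.add x.ap x.an) (Nat.add x.bp x.bn)))))) 40) 4)

/-- square; the square of the linear part is centred -/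
def sq (x : TM) : TM :=
  TM.mk
   (Nat.shiftRight (Nat.add (Nat.mul (Nat.sub x.cp x.cn) (Nat.sub x.cp x.cn))
     (Nat.add (Nat.mul (Nat.sub x.cn x.cp) (Nat.sub x.cn x.cp))
      (Nat.shiftRight (Nat.mul (Nat.add (Nat.add x.ap x.an) (Nat.add x.bp x.bn))
       (Nat.add (Nat.add x.ap x.an) (Nat.add x.bp x.bn))) 1))) 40)
   0
   (Nat.shiftRight (Nat.sub
     (Nat.add (Nat.mul x.cp x.ap) (Nat.mul x.cn x.an))
     (Nat.add (Nat.mul x.cp x.an) (Nat.mul x.cn x.ap))) 39)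
   (Nat.shiftRight (Nat.sub
     (Nat.add (Nat.mul x.cp x.an) (Nat.mul x.cn x.ap))
     (Nat.add (Nat.mul x.cp x.ap) (Nat.mul x.cn x.an))) 39)
   (Nat.shiftRight (Nat.sub
     (Nat.add (Nat.mul x.cp x.bp) (Nat.mul x.cn x.bn))
     (Nat.add (Nat.mul x.cp x.bn) (Nat.mul x.cn x.bp))) 39)
   (Nat.shiftRight (Nat.sub
     (Nat.add (Nat.mul x.cp x.bn) (Nat.mul x.cn x.bp))
     (Nat.add (Nat.mul x.cp x.bp) (Nat.mul x.cn x.bn))) 39)
   (Nat.add (Nat.shiftRight (Nat.add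
     (Nat.shiftRight (Nat.mul (Nat.add (Nat.add x.ap x.an) (Nat.add x.bp x.bn))
       (Nat.add (Nat.add x.ap x.an) (Nat.add x.bp x.bn))) 1)
     (Nat.mul x.e (Nat.add (Nat.add (Nat.mul 2 (Nat.add x.cp x.cn)) x.e)
         (Nat.mul 2 (Nat.add (Nat.add x.ap x.an) (Nat.add x.bp x.bn)))))) 40) 7)

/-- `|a| + |b| + e` -/
def rad (x : TM) : Nat := Nat.add (Nat.add (Nat.add x.ap x.an) (Nat.add x.bp x.bn)) x.e

/-- positivity test -/
def posB (x : TM) : Bool := Nat.blt (Nat.add x.cn x.rad) x.cp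

/-- inverse of a positive number (tested by `posB`) -/
def inv (x : TM) : TM :=
  TM.mk
    (Nat.add (Nat.div 1208925819614629174706176 (Nat.sub x.cp x.cn))
      (Nat.shiftRight (Nat.div (Nat.mul 1208925819614629174706176 (Nat.mul x.rad x.rad))
        (Nat.mul (Nat.mul (Nat.sub x.cp x.cn) (Nat.sub x.cp x.cn))
          (Nat.sub x.cp (Nat.add x.cn x.rad)))) 1))
    0
    (Nat.div (Nat.mul 1208925819614629174706176 (Nat.sub x.an x.ap))
      (Nat.mul (Nat.sub x.cp x.cn) (Nat.sub x.cp x.cn)))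
    (Nat.div (Nat.mul 1208925819614629174706176 (Nat.sub x.ap x.an))
      (Nat.mul (Nat.sub x.cp x.cn) (Nat.sub x.cp x.cn)))
    (Nat.div (Nat.mul 1208925819614629174706176 (Nat.sub x.bn x.bp))
      (Nat.mul (Nat.sub x.cp x.cn) (Nat.sub x.cp x.cn)))
    (Nat.div (Nat.mul 1208925819614629174706176 (Nat.sub x.bp x.bn))
      (Nat.mul (Nat.sub x.cp x.cn) (Nat.sub x.cp x.cn)))
    (Nat.add (Nat.add
      (Nat.shiftRight (Nat.div (Nat.mul 1208925819614629174706176 (Nat.mul x.rad x.rad))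
        (Nat.mul (Nat.mul (Nat.sub x.cp x.cn) (Nat.sub x.cp x.cn))
          (Nat.sub x.cp (Nat.add x.cn x.rad)))) 1)
      (Nat.div (Nat.mul 1208925819614629174706176 x.e)
      (Nat.mul (Nat.sub x.cp x.cn) (Nat.sub x.cp x.cn)))) 8)

/-! ### Soundness -/

theorem cast_sub_sub (a b : Nat) : ((Nat.sub a b : ℕ) : ℝ) - ((Nat.sub b a : ℕ) : ℝ) = a - b := by
  change ((a - b : ℕ) : ℝ) - ((b - a : ℕ) : ℝ) = a - b
  rcases le_total a b with h | h
  · rw [Nat.sub_eq_zero_of_le h, Nat.cast_sub h]; simp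
  · rw [Nat.sub_eq_zero_of_le h, Nat.cast_sub h]; simp

theorem enc_add {x y : TM} {u v f g : ℝ} (hx : Enc x u v f) (hy : Enc y u v g) :
    Enc (add x y) u v (f + g) := by
  obtain ⟨hu, hv, hx⟩ := hx
  obtain ⟨-, -, hy⟩ := hy
  refine ⟨hu, hv, ?_⟩
  simp only [add, cast_sub_sub, Nat.add_eq, Nat.cast_add]
  rw [abs_le] at hx hy ⊢
  constructor <;> nlinarith [hx.1, hx.2, hy.1, hy.2]

theorem enc_sub {x y : TM} {u v f g : ℝ} (hx : Enc x u v f) (hy : Enc y u v g) :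
    Enc (sub x y) u v (f - g) := by
  obtain ⟨hu, hv, hx⟩ := hx
  obtain ⟨-, -, hy⟩ := hy
  refine ⟨hu, hv, ?_⟩
  simp only [sub, cast_sub_sub, Nat.add_eq, Nat.cast_add]
  rw [abs_le] at hx hy ⊢
  constructor <;> nlinarith [hx.1, hx.2, hy.1, hy.2]

theorem enc_neg {x : TM} {u v f : ℝ} (hx : Enc x u v f) : Enc (neg x) u v (-f) := by
  obtain ⟨hu, hv, hx⟩ := hx
  refine ⟨hu, hv, ?_⟩
  simp only [neg]
  rw [abs_le] at hx ⊢
  constructor <;> nlinarith [hx.1, hx.2]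

theorem enc_nsm {x : TM} {u v f : ℝ} (k : ℕ) (hx : Enc x u v f) :
    Enc (nsm k x) u v ((k : ℝ) * f) := by
  obtain ⟨hu, hv, hx⟩ := hx
  refine ⟨hu, hv, ?_⟩
  simp only [nsm, Nat.mul_eq, Nat.cast_mul]
  have : (k : ℝ) * f * 1099511627776 - (((k : ℝ) * x.cp - k * x.cn) + ((k : ℝ) * x.ap - k * x.an) * u
      + ((k : ℝ) * x.bp - k * x.bn) * v) = k * (f * 1099511627776 - (((x.cp : ℝ) - x.cn)
      + ((x.ap : ℝ) - x.an) * u + ((x.bp : ℝ) - x.bn) * v)) := by ring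
  rw [this, abs_mul, abs_of_nonneg (Nat.cast_nonneg k)]
  exact mul_le_mul_of_nonneg_left hx (Nat.cast_nonneg k)

theorem enc_cst {u v : ℝ} (hu : |u| ≤ 1) (hv : |v| ≤ 1) (k : ℕ) : Enc (cst k) u v (k : ℝ) := by
  refine ⟨hu, hv, ?_⟩
  simp [cst]

theorem enc_fat {x : TM} {u v f g : ℝ} {d : ℕ} (hx : Enc x u v f)
    (hd : |g - f| * 1099511627776 ≤ d) : Enc (fat x d) u v g := by
  obtain ⟨hu, hv, hx⟩ := hx
  refine ⟨hu, hv, ?_⟩
  simp only [fat, Nat.add_eq, Nat.cast_add]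
  have h1 : |g * 1099511627776 - f * 1099511627776| ≤ d := by
    rw [← sub_mul, abs_mul]; simpa using hd
  rw [abs_le] at hx h1 ⊢
  constructor <;> linarith [hx.1, hx.2, h1.1, h1.2]

/-- rounding of a difference -/
theorem round_diff (X Y s : ℕ) : |((Nat.shiftRight (Nat.sub X Y) s : ℕ) : ℝ)
    - ((Nat.shiftRight (Nat.sub Y X) s : ℕ) : ℝ) - ((X : ℝ) - Y) / 2 ^ s| ≤ 1 := by
  have key : ∀ A : ℕ, 0 ≤ (A : ℝ) / 2 ^ s - ((Nat.shiftRight A s : ℕ) : ℝ) ∧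
      (A : ℝ) / 2 ^ s - ((Nat.shiftRight A s : ℕ) : ℝ) ≤ 1 := by
    intro A
    have h2 : (0 : ℝ) < 2 ^ s := by positivity
    have e : Nat.shiftRight A s = A / 2 ^ s := Nat.shiftRight_eq_div_pow A s
    rw [e]
    have h3 : (((A / 2 ^ s : ℕ)) : ℝ) ≤ (A : ℝ) / ((2 ^ s : ℕ) : ℝ) := Nat.cast_div_le
    have h4 : (A : ℝ) / ((2 ^ s : ℕ) : ℝ) < ((A / 2 ^ s : ℕ) : ℝ) + 1 := by
      rw [div_lt_iff₀ (by positivity)]
      have h5 : A < (A / 2 ^ s + 1) * 2 ^ s := by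
        have := Nat.lt_mul_of_div_lt (Nat.lt_succ_self (A / 2 ^ s)) (Nat.two_pow_pos s)
        exact this
      exact_mod_cast h5
    push_cast at h3 h4
    constructor <;> linarith
  rcases le_total X Y with h | h
  · have h0 : Nat.sub X Y = 0 := Nat.sub_eq_zero_of_le h
    have h1 : ((Nat.sub Y X : ℕ) : ℝ) = (Y : ℝ) - X := Nat.cast_sub h
    have := key (Nat.sub Y X)
    rw [h1] at this
    rw [h0]
    have h6 : Nat.shiftRight 0 s = 0 := by
      have : Nat.shiftRight 0 s = 0 / 2 ^ s := Nat.shiftRight_eq_div_pow 0 s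
      rw [this]; simp
    rw [h6, abs_le]
    have h7 : ((X : ℝ) - Y) / 2 ^ s = -(((Y : ℝ) - X) / 2 ^ s) := by ring
    rw [h7]
    constructor <;> push_cast <;> linarith [this.1, this.2]
  · have h0 : Nat.sub Y X = 0 := Nat.sub_eq_zero_of_le h
    have h1 : ((Nat.sub X Y : ℕ) : ℝ) = (X : ℝ) - Y := Nat.cast_sub h
    have := key (Nat.sub X Y)
    rw [h1] at this
    rw [h0]
    have h6 : Nat.shiftRight 0 s = 0 := by
      have : Nat.shiftRight 0 s = 0 / 2 ^ s := Nat.shiftRight_eq_div_pow 0 s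
      rw [this]; simp
    rw [h6, abs_le]
    constructor <;> push_cast <;> linarith [this.1, this.2]

theorem shr_le (X s : ℕ) : (X : ℝ) / 2 ^ s ≤ ((Nat.shiftRight X s : ℕ) : ℝ) + 1 := by
  have e : Nat.shiftRight X s = X / 2 ^ s := Nat.shiftRight_eq_div_pow X s
  rw [e]
  have h5 : X < (X / 2 ^ s + 1) * 2 ^ s :=
    Nat.lt_mul_of_div_lt (Nat.lt_succ_self (X / 2 ^ s)) (Nat.two_pow_pos s)
  rw [div_le_iff₀ (by positivity)]
  exact_mod_cast h5.le

theorem shr_ge (X s : ℕ) : ((Nat.shiftRight X s : ℕ) : ℝ) ≤ (X : ℝ) / 2 ^ s := by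
  have e : Nat.shiftRight X s = X / 2 ^ s := Nat.shiftRight_eq_div_pow X s
  rw [e]
  have h3 : (((X / 2 ^ s : ℕ)) : ℝ) ≤ (X : ℝ) / ((2 ^ s : ℕ) : ℝ) := Nat.cast_div_le
  push_cast at h3
  exact h3

theorem abs_nat_sub (a b : ℕ) : |(a : ℝ) - b| ≤ (a : ℝ) + b := by
  rw [abs_le]
  have := Nat.cast_nonneg (α := ℝ) a
  have := Nat.cast_nonneg (α := ℝ) b
  constructor <;> linarith

theorem abs_lin {A B u v a b : ℝ} (hu : |u| ≤ 1) (hv : |v| ≤ 1) (hA : |A| ≤ a) (hB : |B| ≤ b) :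
    |A * u + B * v| ≤ a + b := by
  refine (abs_add_le _ _).trans ?_
  rw [abs_mul, abs_mul]
  have h1 := abs_nonneg A
  have h2 := abs_nonneg B
  nlinarith [abs_nonneg u, abs_nonneg v]

theorem mul_core {C A B C' A' B' u v f g cX r eX cY r' eY S D1 D2 D3 : ℝ}
    (hu : |u| ≤ 1) (hv : |v| ≤ 1)
    (hx : |f * 1099511627776 - (C + A * u + B * v)| ≤ eX)
    (hy : |g * 1099511627776 - (C' + A' * u + B' * v)| ≤ eY)
    (bC : |C| ≤ cX) (bC' : |C'| ≤ cY) (bl : |A * u + B * v| ≤ r) (bl' : |A' * u + B' * v| ≤ r')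
    (r1 : |D1 - C * C' / 1099511627776| ≤ 1)
    (r2 : |D2 - (C * A' + A * C') / 1099511627776| ≤ 1)
    (r3 : |D3 - (C * B' + B * C') / 1099511627776| ≤ 1)
    (r4 : (r * r' + (eX * (cY + eY + r') + eY * (cX + r))) / 1099511627776 ≤ S + 1) :
    |f * g * 1099511627776 - (D1 + D2 * u + D3 * v)| ≤ S + 4 := by
  set ε : ℝ := f * 1099511627776 - (C + A * u + B * v) with hε
  set ε' : ℝ := g * 1099511627776 - (C' + A' * u + B' * v) with hε'
  have e1 : f * g * 1099511627776 - (D1 + D2 * u + D3 * v)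
      = ((A * u + B * v) * (A' * u + B' * v) + (ε * (C' + (A' * u + B' * v) + ε')
        + ε' * (C + (A * u + B * v)))) / 1099511627776
        - (D1 - C * C' / 1099511627776) - (D2 - (C * A' + A * C') / 1099511627776) * u
        - (D3 - (C * B' + B * C') / 1099511627776) * v := by
    rw [hε, hε']; ring
  rw [e1]
  have p1 : 0 ≤ eX := (abs_nonneg _).trans hx
  have p2 : 0 ≤ eY := (abs_nonneg _).trans hy
  have p3 : 0 ≤ r := (abs_nonneg _).trans bl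
  have p4 : 0 ≤ r' := (abs_nonneg _).trans bl'
  have q1 : |(A * u + B * v) * (A' * u + B' * v) + (ε * (C' + (A' * u + B' * v) + ε')
        + ε' * (C + (A * u + B * v)))| ≤ r * r' + (eX * (cY + eY + r') + eY * (cX + r)) := by
    refine (abs_add_le _ _).trans (add_le_add ?_ ((abs_add_le _ _).trans (add_le_add ?_ ?_)))
    · rw [abs_mul]; exact mul_le_mul bl bl' (abs_nonneg _) p3
    · rw [abs_mul]
      refine mul_le_mul hx ?_ (abs_nonneg _) p1
      calc |C' + (A' * u + B' * v) + ε'| ≤ |C' + (A' * u + B' * v)| + |ε'| := abs_add_le _ _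
        _ ≤ |C'| + |A' * u + B' * v| + |ε'| := by linarith [abs_add_le C' (A' * u + B' * v)]
        _ ≤ _ := by linarith
    · rw [abs_mul]
      refine mul_le_mul hy ?_ (abs_nonneg _) p2
      calc |C + (A * u + B * v)| ≤ |C| + |A * u + B * v| := abs_add_le _ _
        _ ≤ _ := by linarith
  have q2 : |((A * u + B * v) * (A' * u + B' * v) + (ε * (C' + (A' * u + B' * v) + ε')
        + ε' * (C + (A * u + B * v)))) / 1099511627776| ≤ S + 1 := by
    rw [abs_div, abs_of_pos (by norm_num : (0 : ℝ) < 1099511627776)]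
    exact (div_le_div_of_nonneg_right q1 (by norm_num)).trans r4
  have q3 : |(D2 - (C * A' + A * C') / 1099511627776) * u| ≤ 1 := by
    rw [abs_mul]; exact mul_le_one₀ r2 (abs_nonneg _) hu
  have q4 : |(D3 - (C * B' + B * C') / 1099511627776) * v| ≤ 1 := by
    rw [abs_mul]; exact mul_le_one₀ r3 (abs_nonneg _) hv
  have := (abs_le.1 q2)
  have := (abs_le.1 q3)
  have := (abs_le.1 q4)
  have := (abs_le.1 r1)
  rw [abs_le]
  constructor <;> linarith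

theorem round40 (X Y : ℕ) : |((Nat.shiftRight (Nat.sub X Y) 40 : ℕ) : ℝ)
    - ((Nat.shiftRight (Nat.sub Y X) 40 : ℕ) : ℝ) - ((X : ℝ) - Y) / 1099511627776| ≤ 1 := by
  have := round_diff X Y 40
  norm_num at this
  exact this

theorem round39 (X Y : ℕ) : |((Nat.shiftRight (Nat.sub X Y) 39 : ℕ) : ℝ)
    - ((Nat.shiftRight (Nat.sub Y X) 39 : ℕ) : ℝ) - ((X : ℝ) - Y) / 549755813888| ≤ 1 := by
  have := round_diff X Y 39
  norm_num at this
  exact this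

theorem shr40_le (X : ℕ) : (X : ℝ) / 1099511627776 ≤ ((Nat.shiftRight X 40 : ℕ) : ℝ) + 1 := by
  have := shr_le X 40
  norm_num at this
  exact this

theorem cast_nadd (a b : ℕ) : ((Nat.add a b : ℕ) : ℝ) = (a : ℝ) + (b : ℝ) := Nat.cast_add a b

theorem enc_mul {x y : TM} {u v f g : ℝ} (hx : Enc x u v f) (hy : Enc y u v g) :
    Enc (mul x y) u v (f * g) := by
  obtain ⟨hu, hv, hx⟩ := hx
  obtain ⟨-, -, hy⟩ := hy
  refine ⟨hu, hv, ?_⟩
  have bC : |(x.cp : ℝ) - x.cn| ≤ (x.cp : ℝ) + x.cn := abs_nat_sub _ _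
  have bC' : |(y.cp : ℝ) - y.cn| ≤ (y.cp : ℝ) + y.cn := abs_nat_sub _ _
  have bl : |((x.ap : ℝ) - x.an) * u + ((x.bp : ℝ) - x.bn) * v| ≤
      ((x.ap : ℝ) + x.an) + (x.bp + x.bn) := abs_lin hu hv (abs_nat_sub _ _) (abs_nat_sub _ _)
  have bl' : |((y.ap : ℝ) - y.an) * u + ((y.bp : ℝ) - y.bn) * v| ≤
      ((y.ap : ℝ) + y.an) + (y.bp + y.bn) := abs_lin hu hv (abs_nat_sub _ _) (abs_nat_sub _ _)
  have r1 := round40 (Nat.add (Nat.mul x.cp y.cp) (Nat.mul x.cn y.cn))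
     (Nat.add (Nat.mul x.cp y.cn) (Nat.mul x.cn y.cp))
  have r2 := round40 (Nat.add (Nat.add (Nat.mul x.cp y.ap) (Nat.mul x.cn y.an))
       (Nat.add (Nat.mul x.ap y.cp) (Nat.mul x.an y.cn)))
     (Nat.add (Nat.add (Nat.mul x.cp y.an) (Nat.mul x.cn y.ap))
       (Nat.add (Nat.mul x.ap y.cn) (Nat.mul x.an y.cp)))
  have r3 := round40 (Nat.add (Nat.add (Nat.mul x.cp y.bp) (Nat.mul x.cn y.bn))
       (Nat.add (Nat.mul x.bp y.cp) (Nat.mul x.bn y.cn)))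
     (Nat.add (Nat.add (Nat.mul x.cp y.bn) (Nat.mul x.cn y.bp))
       (Nat.add (Nat.mul x.bp y.cn) (Nat.mul x.bn y.cp)))
  have r4 := shr40_le (Nat.add
     (Nat.mul (Nat.add (Nat.add x.ap x.an) (Nat.add x.bp x.bn))
       (Nat.add (Nat.add y.ap y.an) (Nat.add y.bp y.bn)))
     (Nat.add (Nat.mul x.e (Nat.add (Nat.add (Nat.add y.cp y.cn) y.e)
         (Nat.add (Nat.add y.ap y.an) (Nat.add y.bp y.bn))))
      (Nat.mul y.e (Nat.add (Nat.add x.cp x.cn)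
         (Nat.add (Nat.add x.ap x.an) (Nat.add x.bp x.bn))))))
  simp only [mul]
  rw [cast_nadd (Nat.shiftRight _ _) 4, Nat.cast_ofNat]
  have n1 : (((Nat.add (Nat.mul x.cp y.cp) (Nat.mul x.cn y.cn) : ℕ) : ℝ) -
     ((Nat.add (Nat.mul x.cp y.cn) (Nat.mul x.cn y.cp) : ℕ) : ℝ))
      = ((x.cp : ℝ) - x.cn) * ((y.cp : ℝ) - y.cn) := by
    simp only [Nat.add_eq, Nat.mul_eq, Nat.cast_add, Nat.cast_mul]; ring
  have n2 : (((Nat.add (Nat.add (Nat.mul x.cp y.ap) (Nat.mul x.cn y.an))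
       (Nat.add (Nat.mul x.ap y.cp) (Nat.mul x.an y.cn)) : ℕ) : ℝ) -
     ((Nat.add (Nat.add (Nat.mul x.cp y.an) (Nat.mul x.cn y.ap))
       (Nat.add (Nat.mul x.ap y.cn) (Nat.mul x.an y.cp)) : ℕ) : ℝ))
      = ((x.cp : ℝ) - x.cn) * ((y.ap : ℝ) - y.an) + ((x.ap : ℝ) - x.an) * ((y.cp : ℝ) - y.cn) := by
    simp only [Nat.add_eq, Nat.mul_eq, Nat.cast_add, Nat.cast_mul]; ring
  have n3 : (((Nat.add (Nat.add (Nat.mul x.cp y.bp) (Nat.mul x.cn y.bn))
       (Nat.add (Nat.mul x.bp y.cp) (Nat.mul x.bn y.cn)) : ℕ) : ℝ) -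
     ((Nat.add (Nat.add (Nat.mul x.cp y.bn) (Nat.mul x.cn y.bp))
       (Nat.add (Nat.mul x.bp y.cn) (Nat.mul x.bn y.cp)) : ℕ) : ℝ))
      = ((x.cp : ℝ) - x.cn) * ((y.bp : ℝ) - y.bn) + ((x.bp : ℝ) - x.bn) * ((y.cp : ℝ) - y.cn) := by
    simp only [Nat.add_eq, Nat.mul_eq, Nat.cast_add, Nat.cast_mul]; ring
  rw [n1] at r1
  rw [n2] at r2
  rw [n3] at r3
  refine mul_core hu hv hx hy bC bC' bl bl' r1 r2 r3 (le_trans (le_of_eq ?_) r4)
  simp only [Nat.add_eq, Nat.mul_eq, Nat.cast_add, Nat.cast_mul]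

theorem sq_core {C A B u v f cX r eX S D1 D2 D3 : ℝ}
    (hu : |u| ≤ 1) (hv : |v| ≤ 1)
    (hx : |f * 1099511627776 - (C + A * u + B * v)| ≤ eX)
    (bC : |C| ≤ cX) (bl : |A * u + B * v| ≤ r)
    (r1 : |D1 - (C ^ 2 + r ^ 2 / 2) / 1099511627776| ≤ 2)
    (r2 : |D2 - (C * A) / 549755813888| ≤ 1)
    (r3 : |D3 - (C * B) / 549755813888| ≤ 1)
    (r4 : (r ^ 2 / 2 + eX * (2 * cX + eX + 2 * r)) / 1099511627776 ≤ S + 1) :
    |f * f * 1099511627776 - (D1 + D2 * u + D3 * v)| ≤ S + 5 := by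
  set ε : ℝ := f * 1099511627776 - (C + A * u + B * v) with hε
  have e1 : f * f * 1099511627776 - (D1 + D2 * u + D3 * v)
      = (((A * u + B * v) ^ 2 - r ^ 2 / 2) + ε * (2 * (C + (A * u + B * v)) + ε)) / 1099511627776
        - (D1 - (C ^ 2 + r ^ 2 / 2) / 1099511627776) - (D2 - (C * A) / 549755813888) * u
        - (D3 - (C * B) / 549755813888) * v := by
    rw [hε]; ring
  rw [e1]
  have p1 : 0 ≤ eX := (abs_nonneg _).trans hx
  have p3 : 0 ≤ r := (abs_nonneg _).trans bl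
  have q0 : |(A * u + B * v) ^ 2 - r ^ 2 / 2| ≤ r ^ 2 / 2 := by
    have h1 : (A * u + B * v) ^ 2 ≤ r ^ 2 := by
      rw [← sq_abs]; exact pow_le_pow_left₀ (abs_nonneg _) bl 2
    have h2 := sq_nonneg (A * u + B * v)
    rw [abs_le]; constructor <;> linarith
  have q1 : |((A * u + B * v) ^ 2 - r ^ 2 / 2) + ε * (2 * (C + (A * u + B * v)) + ε)|
      ≤ r ^ 2 / 2 + eX * (2 * cX + eX + 2 * r) := by
    refine (abs_add_le _ _).trans (add_le_add q0 ?_)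
    rw [abs_mul]
    refine mul_le_mul hx ?_ (abs_nonneg _) p1
    have := abs_add_le C (A * u + B * v)
    calc |2 * (C + (A * u + B * v)) + ε| ≤ |2 * (C + (A * u + B * v))| + |ε| := abs_add_le _ _
      _ = 2 * |C + (A * u + B * v)| + |ε| := by rw [abs_mul]; norm_num
      _ ≤ _ := by linarith
  have q2 : |(((A * u + B * v) ^ 2 - r ^ 2 / 2) + ε * (2 * (C + (A * u + B * v)) + ε))
      / 1099511627776| ≤ S + 1 := by
    rw [abs_div, abs_of_pos (by norm_num : (0 : ℝ) < 1099511627776)]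
    exact (div_le_div_of_nonneg_right q1 (by norm_num)).trans r4
  have q3 : |(D2 - (C * A) / 549755813888) * u| ≤ 1 := by
    rw [abs_mul]; exact mul_le_one₀ r2 (abs_nonneg _) hu
  have q4 : |(D3 - (C * B) / 549755813888) * v| ≤ 1 := by
    rw [abs_mul]; exact mul_le_one₀ r3 (abs_nonneg _) hv
  have := (abs_le.1 q2)
  have := (abs_le.1 q3)
  have := (abs_le.1 q4)
  have := (abs_le.1 r1)
  rw [abs_le]
  constructor <;> linarith

theorem enc_sq {x : TM} {u v f : ℝ} (hx : Enc x u v f) : Enc (sq x) u v (f * f) := by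
  obtain ⟨hu, hv, hx⟩ := hx
  refine ⟨hu, hv, ?_⟩
  have bC : |(x.cp : ℝ) - x.cn| ≤ (x.cp : ℝ) + x.cn := abs_nat_sub _ _
  have bl : |((x.ap : ℝ) - x.an) * u + ((x.bp : ℝ) - x.bn) * v| ≤
      ((x.ap : ℝ) + x.an) + (x.bp + x.bn) := abs_lin hu hv (abs_nat_sub _ _) (abs_nat_sub _ _)
  set R : ℕ := Nat.add (Nat.add x.ap x.an) (Nat.add x.bp x.bn) with hR
  have hRr : (R : ℝ) = ((x.ap : ℝ) + x.an) + (x.bp + x.bn) := by
    rw [hR]; simp only [Nat.add_eq, Nat.cast_add]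
  have r2 := round39 (Nat.add (Nat.mul x.cp x.ap) (Nat.mul x.cn x.an))
     (Nat.add (Nat.mul x.cp x.an) (Nat.mul x.cn x.ap))
  have r3 := round39 (Nat.add (Nat.mul x.cp x.bp) (Nat.mul x.cn x.bn))
     (Nat.add (Nat.mul x.cp x.bn) (Nat.mul x.cn x.bp))
  have h1 := shr_le (Nat.mul R R) 1
  have h2 := shr_ge (Nat.mul R R) 1
  have r4 := shr40_le (Nat.add (Nat.shiftRight (Nat.mul R R) 1)
     (Nat.mul x.e (Nat.add (Nat.add (Nat.mul 2 (Nat.add x.cp x.cn)) x.e) (Nat.mul 2 R))))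
  have r1 := round40 (Nat.add (Nat.mul (Nat.sub x.cp x.cn) (Nat.sub x.cp x.cn))
     (Nat.add (Nat.mul (Nat.sub x.cn x.cp) (Nat.sub x.cn x.cp))
      (Nat.shiftRight (Nat.mul R R) 1))) 0
  simp only [sq]
  rw [← hR, cast_nadd (Nat.shiftRight _ _) 7, Nat.cast_zero, sub_zero,
    (Nat.cast_ofNat : ((OfNat.ofNat 7 : ℕ) : ℝ) = OfNat.ofNat 7)]
  have n1 : ((Nat.add (Nat.mul (Nat.sub x.cp x.cn) (Nat.sub x.cp x.cn))
     (Nat.add (Nat.mul (Nat.sub x.cn x.cp) (Nat.sub x.cn x.cp))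
      (Nat.shiftRight (Nat.mul R R) 1)) : ℕ) : ℝ)
      = ((x.cp : ℝ) - x.cn) ^ 2 + ((Nat.shiftRight (Nat.mul R R) 1 : ℕ) : ℝ) := by
    rw [← cast_sub_sub]
    simp only [Nat.add_eq, Nat.mul_eq, Nat.cast_add, Nat.cast_mul]
    rcases le_total x.cp x.cn with h | h
    · have h0 : Nat.sub x.cp x.cn = 0 := Nat.sub_eq_zero_of_le h
      rw [h0]; push_cast; ring
    · have h0 : Nat.sub x.cn x.cp = 0 := Nat.sub_eq_zero_of_le h
      rw [h0]; push_cast; ring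
  have n2 : (((Nat.add (Nat.mul x.cp x.ap) (Nat.mul x.cn x.an) : ℕ) : ℝ) -
     ((Nat.add (Nat.mul x.cp x.an) (Nat.mul x.cn x.ap) : ℕ) : ℝ))
      = ((x.cp : ℝ) - x.cn) * ((x.ap : ℝ) - x.an) := by
    simp only [Nat.add_eq, Nat.mul_eq, Nat.cast_add, Nat.cast_mul]; ring
  have n3 : (((Nat.add (Nat.mul x.cp x.bp) (Nat.mul x.cn x.bn) : ℕ) : ℝ) -
     ((Nat.add (Nat.mul x.cp x.bn) (Nat.mul x.cn x.bp) : ℕ) : ℝ))
      = ((x.cp : ℝ) - x.cn) * ((x.bp : ℝ) - x.bn) := by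
    simp only [Nat.add_eq, Nat.mul_eq, Nat.cast_add, Nat.cast_mul]; ring
  have n4 : ((Nat.mul R R : ℕ) : ℝ) = (R : ℝ) ^ 2 := by
    simp only [Nat.mul_eq, Nat.cast_mul]; ring
  have n5 : ((Nat.add (Nat.shiftRight (Nat.mul R R) 1)
     (Nat.mul x.e (Nat.add (Nat.add (Nat.mul 2 (Nat.add x.cp x.cn)) x.e) (Nat.mul 2 R))) : ℕ) : ℝ)
      = ((Nat.shiftRight (Nat.mul R R) 1 : ℕ) : ℝ)
        + (x.e : ℝ) * (2 * ((x.cp : ℝ) + x.cn) + x.e + 2 * R) := by
    simp only [Nat.add_eq, Nat.mul_eq, Nat.cast_add, Nat.cast_mul, Nat.cast_ofNat]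
  rw [n1] at r1
  rw [n2] at r2
  rw [n3] at r3
  rw [n4] at h1 h2
  rw [n5] at r4
  rw [← hRr] at bl
  have z0 : ((Nat.shiftRight (Nat.sub 0 (Nat.add (Nat.mul (Nat.sub x.cp x.cn) (Nat.sub x.cp x.cn))
     (Nat.add (Nat.mul (Nat.sub x.cn x.cp) (Nat.sub x.cn x.cp))
      (Nat.shiftRight (Nat.mul R R) 1)))) 40 : ℕ) : ℝ) = 0 := by
    have h0 : ∀ m, Nat.sub 0 m = 0 := fun m => Nat.zero_sub m
    rw [h0]
    have : Nat.shiftRight 0 40 = 0 := rfl
    rw [this]; simp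
  have z1 : ∀ m, Nat.sub m 0 = m := fun m => Nat.sub_zero m
  rw [z0, z1, Nat.cast_zero, sub_zero, sub_zero] at r1
  rw [pow_one] at h1 h2
  set Q : ℝ := ((Nat.shiftRight (Nat.mul R R) 1 : ℕ) : ℝ) with hQ
  refine le_trans (sq_core (S := ((Nat.shiftRight (Nat.add (Nat.shiftRight (Nat.mul R R) 1)
     (Nat.mul x.e (Nat.add (Nat.add (Nat.mul 2 (Nat.add x.cp x.cn)) x.e) (Nat.mul 2 R)))) 40 : ℕ) : ℝ)
     + 1) hu hv hx bC bl ?_ r2 r3 ?_) ?_
  · rw [abs_le] at r1 ⊢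
    constructor <;> linarith [r1.1, r1.2]
  · linarith
  · norm_num [add_assoc]

theorem div_fl (X d : ℕ) (hd : 0 < d) : ((Nat.div X d : ℕ) : ℝ) ≤ (X : ℝ) / d ∧
    (X : ℝ) / d ≤ ((Nat.div X d : ℕ) : ℝ) + 1 := by
  have e : Nat.div X d = X / d := rfl
  rw [e]
  have hd' : (0 : ℝ) < d := by exact_mod_cast hd
  refine ⟨Nat.cast_div_le, ?_⟩
  rw [div_le_iff₀ hd']
  have h5 : X < (X / d + 1) * d := Nat.lt_mul_of_div_lt (Nat.lt_succ_self (X / d)) hd
  exact_mod_cast h5.le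

theorem div_diff (K a b d : ℕ) (hd : 0 < d) :
    |((Nat.div (Nat.mul K (Nat.sub a b)) d : ℕ) : ℝ) - ((Nat.div (Nat.mul K (Nat.sub b a)) d : ℕ) : ℝ)
      - (K : ℝ) * ((a : ℝ) - b) / d| ≤ 1 := by
  have z : Nat.div (Nat.mul K 0) d = 0 := by
    change K * 0 / d = 0
    simp
  rcases le_total a b with h | h
  · have h0 : Nat.sub a b = 0 := Nat.sub_eq_zero_of_le h
    have h1 : ((Nat.sub b a : ℕ) : ℝ) = (b : ℝ) - a := Nat.cast_sub h
    have h2 := div_fl (Nat.mul K (Nat.sub b a)) d hd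
    rw [Nat.mul_eq, Nat.cast_mul, h1] at h2
    rw [h0, z]
    change |((0 : ℕ) : ℝ) - (((K * (b.sub a)) / d : ℕ) : ℝ) - _| ≤ 1
    have h2' : (((Nat.div (K * (Nat.sub b a)) d : ℕ)) : ℝ) = (((K * (b.sub a)) / d : ℕ) : ℝ) := rfl
    rw [h2'] at h2
    have h7 : (K : ℝ) * ((a : ℝ) - b) / d = -((K : ℝ) * ((b : ℝ) - a) / d) := by ring
    rw [h7, abs_le, Nat.cast_zero]
    constructor <;> linarith [h2.1, h2.2]
  · have h0 : Nat.sub b a = 0 := Nat.sub_eq_zero_of_le h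
    have h1 : ((Nat.sub a b : ℕ) : ℝ) = (a : ℝ) - b := Nat.cast_sub h
    have h2 := div_fl (Nat.mul K (Nat.sub a b)) d hd
    rw [Nat.mul_eq, Nat.cast_mul, h1] at h2
    rw [h0, z]
    change |(((K * (a.sub b)) / d : ℕ) : ℝ) - ((0 : ℕ) : ℝ) - _| ≤ 1
    have h2' : (((Nat.div (K * (Nat.sub a b)) d : ℕ)) : ℝ) = (((K * (a.sub b)) / d : ℕ) : ℝ) := rfl
    rw [h2'] at h2
    rw [abs_le, Nat.cast_zero]
    constructor <;> linarith [h2.1, h2.2]

theorem inv_core {c A B u v f e R H E D1 D2 D3 : ℝ} (hu : |u| ≤ 1) (hv : |v| ≤ 1)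
    (hx : |f * 1099511627776 - (c + A * u + B * v)| ≤ e)
    (bl : |A * u + B * v| + e ≤ R) (hR : R < c)
    (h1 : |D1 - 1208925819614629174706176 / c| ≤ 1)
    (h2 : |D2 + 1208925819614629174706176 * A / c ^ 2| ≤ 1)
    (h3 : |D3 + 1208925819614629174706176 * B / c ^ 2| ≤ 1)
    (h4 : 1208925819614629174706176 * R ^ 2 / (c ^ 2 * (c - R)) ≤ 2 * H + 3)
    (h5 : 1208925819614629174706176 * e / c ^ 2 ≤ E + 1) :
    0 < f ∧ |f⁻¹ * 1099511627776 - ((D1 + H) + D2 * u + D3 * v)| ≤ H + E + 8 := by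
  set ε : ℝ := f * 1099511627776 - (c + A * u + B * v) with hε
  have he : 0 ≤ e := (abs_nonneg _).trans hx
  have hR0 : 0 ≤ R := by linarith [abs_nonneg (A * u + B * v)]
  have hc : 0 < c := by linarith
  set δ : ℝ := A * u + B * v + ε with hδ
  have bδ : |δ| ≤ R := (abs_add_le _ _).trans (by linarith)
  have hF : f * 1099511627776 = c + δ := by rw [hδ, hε]; ring
  have hF2 : 0 < c + δ := by linarith [(abs_le.1 bδ).1]
  have hf : 0 < f := by
    have : 0 < f * 1099511627776 := by rw [hF]; exact hF2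
    linarith
  refine ⟨hf, ?_⟩
  have e0 : f⁻¹ * 1099511627776 = 1208925819614629174706176 / (c + δ) := by
    rw [← hF]; field_simp; norm_num
  have e1 : 1208925819614629174706176 / (c + δ) = 1208925819614629174706176 / c
      - 1208925819614629174706176 * δ / c ^ 2
      + 1208925819614629174706176 * δ ^ 2 / (c ^ 2 * (c + δ)) := by
    field_simp; ring
  have q0 : 0 ≤ 1208925819614629174706176 * δ ^ 2 / (c ^ 2 * (c + δ)) := by positivity
  have q1 : 1208925819614629174706176 * δ ^ 2 / (c ^ 2 * (c + δ)) ≤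
      1208925819614629174706176 * R ^ 2 / (c ^ 2 * (c - R)) := by
    have t1 : δ ^ 2 ≤ R ^ 2 := by
      rw [← sq_abs]; exact pow_le_pow_left₀ (abs_nonneg _) bδ 2
    have t2 : c - R ≤ c + δ := by linarith [(abs_le.1 bδ).1]
    have t3 : 0 < c - R := by linarith
    apply div_le_div₀ (by positivity) (by linarith) (by positivity)
    exact mul_le_mul_of_nonneg_left t2 (by positivity)
  have q2 : |1208925819614629174706176 * ε / c ^ 2| ≤ E + 1 := by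
    rw [abs_div, abs_mul, abs_of_pos (by norm_num : (0 : ℝ) < 1208925819614629174706176),
      abs_of_pos (by positivity : 0 < c ^ 2)]
    refine le_trans ?_ h5
    gcongr
  have q3 : |(D2 + 1208925819614629174706176 * A / c ^ 2) * u| ≤ 1 := by
    rw [abs_mul]; exact mul_le_one₀ h2 (abs_nonneg _) hu
  have q4 : |(D3 + 1208925819614629174706176 * B / c ^ 2) * v| ≤ 1 := by
    rw [abs_mul]; exact mul_le_one₀ h3 (abs_nonneg _) hv
  have e2 : f⁻¹ * 1099511627776 - ((D1 + H) + D2 * u + D3 * v)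
      = (1208925819614629174706176 * δ ^ 2 / (c ^ 2 * (c + δ)) - H)
        - (D1 - 1208925819614629174706176 / c)
        - 1208925819614629174706176 * ε / c ^ 2
        - (D2 + 1208925819614629174706176 * A / c ^ 2) * u
        - (D3 + 1208925819614629174706176 * B / c ^ 2) * v := by
    rw [e0, e1, hδ]; ring
  rw [e2]
  have := abs_le.1 h1
  have := abs_le.1 q2
  have := abs_le.1 q3
  have := abs_le.1 q4
  have hH : 0 ≤ H + 3 := by linarith
  rw [abs_le]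
  constructor <;> linarith

theorem posB_lt {x : TM} (hp : posB x = true) : x.cn + x.rad < x.cp := by
  unfold posB at hp
  rw [Nat.blt_eq] at hp
  exact hp

theorem enc_inv {x : TM} {u v f : ℝ} (hx : Enc x u v f) (hp : posB x = true) :
    0 < f ∧ Enc (inv x) u v f⁻¹ := by
  obtain ⟨hu, hv, hx⟩ := hx
  have hp' : x.cn + x.rad < x.cp := posB_lt hp
  set R : ℕ := x.rad with hR
  have hRr : (R : ℝ) = ((x.ap : ℝ) + x.an) + (x.bp + x.bn) + x.e := by
    rw [hR, rad]; simp only [Nat.add_eq, Nat.cast_add]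
  set c : ℕ := Nat.sub x.cp x.cn with hc
  have hcr : (c : ℝ) = (x.cp : ℝ) - x.cn := by
    rw [hc]; exact Nat.cast_sub (by omega)
  have hcpos : 0 < c := by
    rw [hc]; change 0 < x.cp - x.cn; omega
  set lo : ℕ := Nat.sub x.cp (Nat.add x.cn R) with hlo
  have hlor : (lo : ℝ) = (c : ℝ) - R := by
    have h1 : ((Nat.sub x.cp (Nat.add x.cn R) : ℕ) : ℝ) = (x.cp : ℝ) - ((x.cn + R : ℕ) : ℝ) :=
      Nat.cast_sub (by change x.cn + R ≤ x.cp; omega)
    rw [hlo, h1, hcr]; push_cast; ring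
  have hlopos : 0 < lo := by
    rw [hlo]; change 0 < x.cp - (x.cn + R); omega
  have bl : |((x.ap : ℝ) - x.an) * u + ((x.bp : ℝ) - x.bn) * v| + x.e ≤ (R : ℝ) := by
    have := abs_lin (A := (x.ap : ℝ) - x.an) (B := (x.bp : ℝ) - x.bn) hu hv
      (abs_nat_sub _ _) (abs_nat_sub _ _)
    rw [hRr]; linarith
  have hRc : (R : ℝ) < c := by
    have : (0 : ℝ) < lo := by exact_mod_cast hlopos
    linarith [hlor]
  have d1 := div_fl 1208925819614629174706176 c hcpos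
  have hcc : 0 < Nat.mul c c := Nat.mul_pos hcpos hcpos
  have hccr : ((Nat.mul c c : ℕ) : ℝ) = (c : ℝ) ^ 2 := by rw [Nat.mul_eq, Nat.cast_mul]; ring
  have d2 := div_diff 1208925819614629174706176 x.an x.ap (Nat.mul c c) hcc
  have d3 := div_diff 1208925819614629174706176 x.bn x.bp (Nat.mul c c) hcc
  have d4 := div_fl (Nat.mul 1208925819614629174706176 (Nat.mul R R))
    (Nat.mul (Nat.mul c c) lo) (Nat.mul_pos hcc hlopos)
  have d5 := shr_le (Nat.div (Nat.mul 1208925819614629174706176 (Nat.mul R R))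
    (Nat.mul (Nat.mul c c) lo)) 1
  have d5' := shr_ge (Nat.div (Nat.mul 1208925819614629174706176 (Nat.mul R R))
    (Nat.mul (Nat.mul c c) lo)) 1
  have d6 := div_fl (Nat.mul 1208925819614629174706176 x.e) (Nat.mul c c) hcc
  have n1 : ((Nat.mul 1208925819614629174706176 (Nat.mul R R) : ℕ) : ℝ)
      / ((Nat.mul (Nat.mul c c) lo : ℕ) : ℝ)
      = 1208925819614629174706176 * (R : ℝ) ^ 2 / ((c : ℝ) ^ 2 * ((c : ℝ) - R)) := by
    rw [← hlor]
    simp only [Nat.mul_eq, Nat.cast_mul, Nat.cast_ofNat]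
    ring
  have n2 : ((Nat.mul 1208925819614629174706176 x.e : ℕ) : ℝ) / ((Nat.mul c c : ℕ) : ℝ)
      = 1208925819614629174706176 * (x.e : ℝ) / (c : ℝ) ^ 2 := by
    rw [hccr]
    simp only [Nat.mul_eq, Nat.cast_mul, Nat.cast_ofNat]
  rw [n1] at d4
  rw [n2] at d6
  rw [hccr, Nat.cast_ofNat] at d2 d3
  rw [Nat.cast_ofNat] at d1
  rw [pow_one] at d5 d5'
  set H : ℝ := ((Nat.shiftRight (Nat.div (Nat.mul 1208925819614629174706176 (Nat.mul R R))
    (Nat.mul (Nat.mul c c) lo)) 1 : ℕ) : ℝ) with hH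
  set E : ℝ := ((Nat.div (Nat.mul 1208925819614629174706176 x.e) (Nat.mul c c) : ℕ) : ℝ) with hE
  have key := inv_core (f := f) (c := (c : ℝ)) (A := (x.ap : ℝ) - x.an) (B := (x.bp : ℝ) - x.bn)
    (e := (x.e : ℝ)) (R := (R : ℝ)) (H := H) (E := E)
    (D1 := ((Nat.div 1208925819614629174706176 c : ℕ) : ℝ))
    (D2 := ((Nat.div (Nat.mul 1208925819614629174706176 (Nat.sub x.an x.ap)) (Nat.mul c c) : ℕ) : ℝ)
      - ((Nat.div (Nat.mul 1208925819614629174706176 (Nat.sub x.ap x.an)) (Nat.mul c c) : ℕ) : ℝ))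
    (D3 := ((Nat.div (Nat.mul 1208925819614629174706176 (Nat.sub x.bn x.bp)) (Nat.mul c c) : ℕ) : ℝ)
      - ((Nat.div (Nat.mul 1208925819614629174706176 (Nat.sub x.bp x.bn)) (Nat.mul c c) : ℕ) : ℝ))
    hu hv (by rw [hcr]; exact hx) bl hRc
    (by rw [abs_le]; constructor <;> linarith [d1.1, d1.2])
    (by
      have h7 : 1208925819614629174706176 * ((x.ap : ℝ) - x.an) / (c : ℝ) ^ 2
        = -(1208925819614629174706176 * ((x.an : ℝ) - x.ap) / (c : ℝ) ^ 2) := by ring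
      rw [h7, ← sub_eq_add_neg]; exact d2)
    (by
      have h7 : 1208925819614629174706176 * ((x.bp : ℝ) - x.bn) / (c : ℝ) ^ 2
        = -(1208925819614629174706176 * ((x.bn : ℝ) - x.bp) / (c : ℝ) ^ 2) := by ring
      rw [h7, ← sub_eq_add_neg]; exact d3)
    (by linarith [d4.1, d4.2])
    (by linarith [d6.1, d6.2])
  refine ⟨key.1, hu, hv, ?_⟩
  simp only [inv]
  rw [← hR, ← hc, ← hlo, cast_nadd (Nat.add _ _) 8, cast_nadd _ (Nat.div _ (Nat.mul c c)),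
    cast_nadd (Nat.div _ _) (Nat.shiftRight _ _), Nat.cast_zero, sub_zero,
    (Nat.cast_ofNat : ((OfNat.ofNat 8 : ℕ) : ℝ) = OfNat.ofNat 8)]
  exact key.2

theorem enc_pos {x : TM} {u v f : ℝ} (hx : Enc x u v f) (hp : posB x = true) : 0 < f := by
  obtain ⟨hu, hv, hx⟩ := hx
  have hp' : x.cn + x.rad < x.cp := posB_lt hp
  have hRr : (x.rad : ℝ) = ((x.ap : ℝ) + x.an) + (x.bp + x.bn) + x.e := by
    rw [rad]; simp only [Nat.add_eq, Nat.cast_add]
  have hp2 : (x.cn : ℝ) + x.rad < x.cp := by exact_mod_cast hp'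
  have bl := abs_lin (A := (x.ap : ℝ) - x.an) (B := (x.bp : ℝ) - x.bn) hu hv
      (abs_nat_sub _ _) (abs_nat_sub _ _)
  have := abs_le.1 hx
  have := abs_le.1 bl
  have : 0 < f * 1099511627776 := by linarith
  linarith

end TM

end RicP
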